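import Mathlib

/-!
# Arithmetically closed families of sets of natural numbers
-/

set_option autoImplicit false

namespace Pool.Agent.Helper88.SetTh

open Encodable

/-- A family of sets of natural numbers closed under arithmetical definability. -/
structure ArithClosed (J : Set (Set ℕ)) : Prop where
  compl : ∀ S ∈ J, Sᶜ ∈ J
  inter : ∀ S ∈ J, ∀ T ∈ J, S ∩ T ∈ J
  preim : ∀ S ∈ J, ∀ f : ℕ → ℕ, Nat.Primrec f → f ⁻¹' S ∈ J
  proj : ∀ S ∈ J, {n | ∃ m, Nat.pair n m ∈ S} ∈ J
  zero : {n : ℕ | n = 0} ∈ J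

/-- A predicate on a (primitively) coded type that belongs to the family `J`. -/
def JP (J : Set (Set ℕ)) {α : Type*} [Primcodable α] (P : α → Prop) : Prop :=
  {n | ∃ a : α, decode n = some a ∧ P a} ∈ J

namespace JP

variable {J : Set (Set ℕ)} {α β γ : Type*} [Primcodable α] [Primcodable β] [Primcodable γ]

theorem congr {P Q : α → Prop} (hP : JP J P) (h : ∀ a, P a ↔ Q a) : JP J Q := by
  unfold JP at hP ⊢
  simp only [h] at hP
  exact hP

theorem single (hJ : ArithClosed J) (k : ℕ) : {n : ℕ | n = k} ∈ J := by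
  induction k with
  | zero => exact hJ.zero
  | succ k ih =>
    have h1 := hJ.preim _ ih _ Nat.Primrec.pred
    have h2 := hJ.inter _ (hJ.compl _ hJ.zero) _ h1
    convert h2 using 1
    ext n
    simp only [Set.mem_setOf_eq, Set.mem_inter_iff, Set.mem_compl_iff, Set.mem_preimage]
    constructor
    · rintro rfl
      exact ⟨by omega, rfl⟩
    · rintro ⟨h3, h4⟩
      have h4 : n - 1 = k := h4
      omega

theorem prim (hJ : ArithClosed J) {P : α → Prop} (hP : PrimrecPred P) : JP J P := by
  obtain ⟨_, hP⟩ := hP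
  have h1 := hJ.preim _ (single hJ 2) _ hP
  unfold JP
  convert h1 using 1
  ext n
  simp only [Set.mem_setOf_eq, Set.mem_preimage]
  cases h : (decode n : Option α) with
  | none => simp
  | some a =>
    by_cases hPa : P a
    · simp [hPa]
    · simp [hPa]

theorem dom (hJ : ArithClosed J) : {n | ∃ a : α, decode n = some a} ∈ J := by
  have := prim hJ (P := fun _ : α => True) (Primrec.primrecPred (by simpa using Primrec.const true))
  unfold JP at this
  simpa using this

theorem not (hJ : ArithClosed J) {P : α → Prop} (hP : JP J P) : JP J fun a => ¬ P a := by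
  have h1 := hJ.inter _ (hJ.compl _ hP) _ (dom (α := α) hJ)
  unfold JP
  convert h1 using 1
  ext n
  simp only [Set.mem_setOf_eq, Set.mem_inter_iff, Set.mem_compl_iff, not_exists, not_and]
  constructor
  · rintro ⟨a, ha, hPa⟩
    refine ⟨fun b hb => ?_, a, ha⟩
    rw [ha] at hb
    cases hb
    exact hPa
  · rintro ⟨h1, a, ha⟩
    exact ⟨a, ha, h1 a ha⟩

theorem and (hJ : ArithClosed J) {P Q : α → Prop} (hP : JP J P) (hQ : JP J Q) :
    JP J fun a => P a ∧ Q a := by
  have h1 := hJ.inter _ hP _ hQ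
  unfold JP
  convert h1 using 1
  ext n
  simp only [Set.mem_setOf_eq, Set.mem_inter_iff]
  constructor
  · rintro ⟨a, ha, hPa, hQa⟩
    exact ⟨⟨a, ha, hPa⟩, a, ha, hQa⟩
  · rintro ⟨⟨a, ha, hPa⟩, b, hb, hQb⟩
    rw [ha] at hb
    cases hb
    exact ⟨a, ha, hPa, hQb⟩

theorem or (hJ : ArithClosed J) {P Q : α → Prop} (hP : JP J P) (hQ : JP J Q) :
    JP J fun a => P a ∨ Q a :=
  ((hP.not hJ).and hJ (hQ.not hJ)).not hJ |>.congr fun a => by tauto

theorem imp (hJ : ArithClosed J) {P Q : α → Prop} (hP : JP J P) (hQ : JP J Q) :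
    JP J fun a => P a → Q a :=
  ((hP.not hJ).or hJ hQ).congr fun a => by tauto

theorem comp (hJ : ArithClosed J) {P : β → Prop} (hP : JP J P) {f : α → β} (hf : Primrec f) :
    JP J fun a => P (f a) := by
  have h1 : {n | ∃ m, n = m + 1 ∧ m ∈ {n | ∃ b : β, decode n = some b ∧ P b}} ∈ J := by
    have h2 := hJ.inter _ (hJ.compl _ hJ.zero) _ (hJ.preim _ hP _ Nat.Primrec.pred)
    convert h2 using 1
    ext n
    simp only [Set.mem_setOf_eq, Set.mem_inter_iff, Set.mem_compl_iff, Set.mem_preimage]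
    constructor
    · rintro ⟨m, rfl, h⟩
      exact ⟨by omega, h⟩
    · rintro ⟨h3, h4⟩
      refine ⟨n - 1, by omega, h4⟩
  have h2 := hJ.preim _ h1 _ hf
  unfold JP
  convert h2 using 1
  ext n
  simp only [Set.mem_setOf_eq, Set.mem_preimage]
  constructor
  · rintro ⟨a, ha, h⟩
    rw [ha]
    exact ⟨encode (f a), by simp, f a, by simp, h⟩
  · rintro ⟨m, hm, b, hb, h⟩
    cases ha : (decode n : Option α) with
    | none =>
      rw [ha] at hm
      simp at hm
    | some a =>
      rw [ha] at hm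
      simp at hm
      subst hm
      rw [encodek] at hb
      cases hb
      exact ⟨a, rfl, h⟩

theorem ex (hJ : ArithClosed J) {P : α → β → Prop} (hP : JP J fun x : α × β => P x.1 x.2) :
    JP J fun a => ∃ b, P a b := by
  have h1 := hJ.proj _ hP
  unfold JP
  convert h1 using 1
  ext n
  simp only [Set.mem_setOf_eq]
  constructor
  · rintro ⟨a, ha, b, hb⟩
    exact ⟨encode b, (a, b), by simp [ha], hb⟩
  · rintro ⟨m, ⟨a, b⟩, h, hP⟩
    rw [decode_prod_val] at h
    simp only [Nat.unpair_pair] at h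
    cases ha : (decode n : Option α) with
    | none => simp [ha] at h
    | some a' =>
      cases hb : (decode m : Option β) with
      | none => simp [ha, hb] at h
      | some b' =>
        simp [ha, hb] at h
        obtain ⟨rfl, rfl⟩ := h
        exact ⟨a', rfl, b', hP⟩

theorem all (hJ : ArithClosed J) {P : α → β → Prop} (hP : JP J fun x : α × β => P x.1 x.2) :
    JP J fun a => ∀ b, P a b :=
  ((hP.not hJ).ex hJ (P := fun a b => ¬ P a b)).not hJ |>.congr fun a => by push Not; rfl

/-- Least witnesses. -/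
theorem least (hJ : ArithClosed J) {P : α → β → Prop} (hP : JP J fun x : α × β => P x.1 x.2) :
    JP J fun x : α × β => P x.1 x.2 ∧ ∀ b', encode b' < encode x.2 → ¬ P x.1 b' := by
  refine hP.and hJ (all hJ (P := fun (x : α × β) b' => encode b' < encode x.2 → ¬ P x.1 b') ?_)
  refine imp hJ (prim hJ ?_) (not hJ ?_)
  · exact Primrec.nat_lt.comp (Primrec.encode.comp Primrec.snd)
      (Primrec.encode.comp (Primrec.snd.comp Primrec.fst))
  · exact hP.comp hJ (f := fun x : (α × β) × β => (x.1.1, x.2))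
      (Primrec.pair (Primrec.fst.comp Primrec.fst) Primrec.snd)

/-- Recursion. -/
theorem iter (hJ : ArithClosed J) {S : ℕ → α → α → Prop}
    (hS : JP J fun x : ℕ × α × α => S x.1 x.2.1 x.2.2) (s : ℕ → α)
    (hs : ∀ n b, S n (s n) b ↔ b = s (n + 1)) : JP J fun x : ℕ × α => s x.1 = x.2 := by
  have h1 : JP J fun x : ℕ × α => ∃ L : List α, (L[0]? = some (s 0) ∧ L[x.1]? = some x.2) ∧
      ∀ i : ℕ, i < x.1 → ∃ ab : α × α, (L[i]? = some ab.1 ∧ L[i + 1]? = some ab.2) ∧
        S i ab.1 ab.2 := by
    refine ex hJ (P := fun (x : ℕ × α) (L : List α) => (L[0]? = some (s 0) ∧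
      L[x.1]? = some x.2) ∧ ∀ i : ℕ, i < x.1 → ∃ ab : α × α, (L[i]? = some ab.1 ∧
      L[i + 1]? = some ab.2) ∧ S i ab.1 ab.2) ?_
    refine and hJ (prim hJ ?_) (all hJ (P := fun (x : (ℕ × α) × List α) (i : ℕ) => i < x.1.1 →
      ∃ ab : α × α, (x.2[i]? = some ab.1 ∧ x.2[i + 1]? = some ab.2) ∧ S i ab.1 ab.2) ?_)
    · refine PrimrecPred.and ?_ ?_
      · exact Primrec.eq.comp (Primrec.list_getElem?.comp Primrec.snd (Primrec.const 0))
          (Primrec.const _)
      · exact Primrec.eq.comp (Primrec.list_getElem?.comp Primrec.snd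
          (Primrec.fst.comp Primrec.fst)) (Primrec.option_some.comp (Primrec.snd.comp Primrec.fst))
    · refine imp hJ (prim hJ (Primrec.nat_lt.comp Primrec.snd
        (Primrec.fst.comp (Primrec.fst.comp Primrec.fst)))) ?_
      refine ex hJ (P := fun (x : ((ℕ × α) × List α) × ℕ) (ab : α × α) =>
        (x.1.2[x.2]? = some ab.1 ∧ x.1.2[x.2 + 1]? = some ab.2) ∧ S x.2 ab.1 ab.2) ?_
      have hL : Primrec fun y : (((ℕ × α) × List α) × ℕ) × (α × α) => y.1.1.2 :=
        Primrec.snd.comp (Primrec.fst.comp Primrec.fst)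
      have hi : Primrec fun y : (((ℕ × α) × List α) × ℕ) × (α × α) => y.1.2 :=
        Primrec.snd.comp Primrec.fst
      refine and hJ (prim hJ (PrimrecPred.and ?_ ?_)) ?_
      · exact Primrec.eq.comp (Primrec.list_getElem?.comp hL hi)
          (Primrec.option_some.comp (Primrec.fst.comp Primrec.snd))
      · exact Primrec.eq.comp (Primrec.list_getElem?.comp hL (Primrec.succ.comp hi))
          (Primrec.option_some.comp (Primrec.snd.comp Primrec.snd))
      · exact hS.comp hJ (f := fun y : (((ℕ × α) × List α) × ℕ) × (α × α) =>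
          (y.1.2, y.2.1, y.2.2)) (Primrec.pair hi (Primrec.pair
            (Primrec.fst.comp Primrec.snd) (Primrec.snd.comp Primrec.snd)))
  refine h1.congr ?_
  rintro ⟨k, a⟩
  constructor
  · rintro ⟨L, ⟨h0, hk⟩, hstep⟩
    have key : ∀ i ≤ k, L[i]? = some (s i) := by
      intro i
      induction i with
      | zero => intro _; exact h0
      | succ i ih =>
        intro hi
        obtain ⟨⟨b, c⟩, ⟨h2, h3⟩, h4⟩ := hstep i hi
        have h5 := ih (by omega)
        rw [h5] at h2
        cases h2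
        rw [h3, (hs i c).1 h4]
    have h2 := key k le_rfl
    have hk : L[k]? = some a := hk
    rw [h2] at hk
    exact Option.some.inj hk
  · intro h
    have h : s k = a := h
    subst h
    refine ⟨(List.range (k + 1)).map s, ⟨by simp, by simp⟩, ?_⟩
    intro i hi
    have hi : i < k := hi
    refine ⟨(s i, s (i + 1)), ⟨?_, ?_⟩, (hs i _).2 rfl⟩
    · simp [show i < k + 1 by omega]
    · simp [show i + 1 < k + 1 by omega]

end JP

end Pool.Agent.Helper88.SetTh
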