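import Pool.Agent.Helper88.SetTh.Forcing
import Pool.Agent.Helper88.SetTh.JCalc

/-!
# The reals of `L` are arithmetically closed
-/

set_option autoImplicit false

universe u

namespace Pool.Agent.Helper88.SetTh

/-- Relations on natural numbers definable over `L`. -/
def NJ (P : (ℕ → ℕ) → Prop) : Prop :=
  ∃ Q : (ℕ → ZFSet.{u}) → Prop, Dfn (LL : Set ZFSet.{u}) LL Q ∧
    ∀ w : ℕ → ℕ, (Q (fun i => nat (w i)) ↔ P w)

/-- Functions on natural numbers definable over `L`. -/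
def NF (f : (ℕ → ℕ) → ℕ) : Prop := NJ.{u} fun w => w 0 = f fun i => w (i + 1)

theorem nat_cons (n : ℕ) (w : ℕ → ℕ) :
    (fun i => nat.{u} (cons n w i)) = cons (nat n) (fun i => nat (w i)) := by
  funext i
  cases i <;> rfl

namespace NJ

variable {P Q : (ℕ → ℕ) → Prop} {f g : (ℕ → ℕ) → ℕ}

theorem congr (hP : NJ.{u} P) (h : ∀ w, P w ↔ Q w) : NJ.{u} Q := by
  obtain ⟨R, h1, h2⟩ := hP
  exact ⟨R, h1, fun w => (h2 w).trans (h w)⟩

theorem not (hP : NJ.{u} P) : NJ.{u} fun w => ¬ P w := by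
  obtain ⟨R, h1, h2⟩ := hP
  exact ⟨_, h1.not, fun w => not_congr (h2 w)⟩

theorem and (hP : NJ.{u} P) (hQ : NJ.{u} Q) : NJ.{u} fun w => P w ∧ Q w := by
  obtain ⟨R, h1, h2⟩ := hP
  obtain ⟨S, h3, h4⟩ := hQ
  exact ⟨_, h1.and h3, fun w => and_congr (h2 w) (h4 w)⟩

theorem or (hP : NJ.{u} P) (hQ : NJ.{u} Q) : NJ.{u} fun w => P w ∨ Q w :=
  (hP.not.and hQ.not).not.congr fun w => by tauto

theorem rename (hP : NJ.{u} P) (ρ : ℕ → ℕ) : NJ.{u} fun w => P fun i => w (ρ i) := by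
  obtain ⟨R, h1, h2⟩ := hP
  exact ⟨_, h1.rename ρ, fun w => h2 _⟩

theorem ex (hP : NJ.{u} P) : NJ.{u} fun w => ∃ n, P (cons n w) := by
  obtain ⟨R, h1, h2⟩ := hP
  refine ⟨_, ctx_LL.bex ctx_LL.om h1, fun w => ?_⟩
  constructor
  · rintro ⟨x, hx, h⟩
    obtain ⟨n, rfl⟩ := mem_om.1 hx
    refine ⟨n, (h2 _).1 ?_⟩
    rw [nat_cons]
    exact h
  · rintro ⟨n, h⟩
    have := (h2 _).2 h
    rw [nat_cons] at this
    exact ⟨nat n, nat_mem_om n, this⟩

theorem lt (i j : ℕ) : NJ.{u} fun w => w i < w j :=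
  ⟨_, ctx_LL.mem (ctx_LL.var i) (ctx_LL.var j), fun _ => nat_mem_nat⟩

theorem eq (i j : ℕ) : NJ.{u} fun w => w i = w j :=
  ⟨_, ctx_LL.eq (ctx_LL.var i) (ctx_LL.var j), fun _ => nat_inj⟩

theorem eqz (i : ℕ) : NJ.{u} fun w => w i = 0 :=
  ⟨_, ctx_LL.eq (ctx_LL.var i) (ctx_LL.nat 0), fun _ => nat_inj⟩

theorem eqs (i j : ℕ) : NJ.{u} fun w => w i = w j + 1 :=
  ⟨_, ctx_LL.eq (ctx_LL.var i) (ctx_LL.insert (ctx_LL.var j) (ctx_LL.var j)), fun w =>
    nat_inj (m := w i) (n := w j + 1)⟩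

theorem comp1 {R : ℕ → Prop} (hR : NJ.{u} fun w => R (w 0)) (hf : NF.{u} f) :
    NJ.{u} fun w => R (f w) := by
  refine ((NJ.and hf hR).ex).congr fun w => ?_
  constructor
  · rintro ⟨n, h1, h2⟩
    have h1 : n = f w := h1
    rw [← h1]
    exact h2
  · intro h
    exact ⟨f w, rfl, h⟩

theorem comp2 {R : ℕ → ℕ → Prop} (hR : NJ.{u} fun w => R (w 0) (w 1)) (hf : NF.{u} f)
    (hg : NF.{u} g) : NJ.{u} fun w => R (f w) (g w) := by
  have h1 : NJ.{u} fun w => w 0 = g fun i => w (i + 2) :=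
    NJ.rename hg fun i => if i = 0 then 0 else i + 1
  have h2 : NJ.{u} fun w => R (w 1) (w 0) := NJ.rename hR fun i => if i = 0 then 1 else 0
  refine ((NJ.and hf (NJ.and h1 h2).ex).ex).congr fun w => ?_
  constructor
  · rintro ⟨n, h3, m, h4, h5⟩
    have h3 : n = f w := h3
    have h4 : m = g w := h4
    have h5 : R n m := h5
    rw [← h3, ← h4]
    exact h5
  · intro h
    exact ⟨f w, rfl, g w, rfl, h⟩

end NJ

namespace NF

variable {f g : (ℕ → ℕ) → ℕ}

theorem var (i : ℕ) : NF.{u} fun w => w i := NJ.eq 0 (i + 1)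

theorem zero : NF.{u} fun _ => 0 := NJ.eqz 0

theorem rename (hf : NF.{u} f) (ρ : ℕ → ℕ) : NF.{u} fun w => f fun i => w (ρ i) :=
  (NJ.rename hf (cons 0 fun i => ρ i + 1)).congr fun w => by rfl

theorem succ (hf : NF.{u} f) : NF.{u} fun w => f w + 1 := by
  have h1 : NF.{u} fun w => f fun i => w (i + 1) := hf.rename fun i => i + 1
  have h2 := NJ.comp2 (R := fun a b => a = b + 1) (NJ.eqs 0 1) (NF.var 0) h1
  exact h2

theorem comp1 {G : ℕ → ℕ} (hG : NF.{u} fun w => G (w 0)) (hf : NF.{u} f) :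
    NF.{u} fun w => G (f w) :=
  NJ.comp2 (R := fun a b => a = G b) hG (NF.var 0) (hf.rename fun i => i + 1)

theorem comp2 {G : ℕ → ℕ → ℕ} (hG : NF.{u} fun w => G (w 0) (w 1)) (hf : NF.{u} f)
    (hg : NF.{u} g) : NF.{u} fun w => G (f w) (g w) := by
  have hG : NJ.{u} fun w => w 0 = G (w 1) (w 2) := hG
  have h1 : NJ.{u} fun w => w 0 = f fun i => w (i + 2) :=
    NJ.rename hf fun i => if i = 0 then 0 else i + 1
  have h2 : NJ.{u} fun w => w 0 = g fun i => w (i + 3) :=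
    NJ.rename hg fun i => if i = 0 then 0 else i + 2
  have h3 : NJ.{u} fun w => w 2 = G (w 1) (w 0) :=
    NJ.rename hG fun i => if i = 0 then 2 else if i = 1 then 1 else 0
  refine ((NJ.and h1 (NJ.and h2 h3).ex).ex).congr fun w => ?_
  constructor
  · rintro ⟨n, h4, m, h5, h6⟩
    have h4 : n = f fun i => w (i + 1) := h4
    have h5 : m = g fun i => w (i + 1) := h5
    have h6 : w 0 = G n m := h6
    rw [h6, h4, h5]
  · intro h
    exact ⟨_, rfl, _, rfl, h⟩

/-- Finite attempts at a recursion. -/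
theorem rec {F : (ℕ → ℕ) → ℕ} {G : (ℕ → ℕ) → ℕ} (hF : NF.{u} F) (hG : NF.{u} G)
    (h : (ℕ → ℕ) → ℕ → ℕ) (h0 : ∀ w, h w 0 = F w)
    (hs : ∀ w k, h w (k + 1) = G (cons k (cons (h w k) w))) :
    NF.{u} fun w => h (fun i => w (i + 1)) (w 0) := by
  obtain ⟨Q0, hQ0, hQ0'⟩ := hF
  obtain ⟨QG, hQG, hQG'⟩ := hG
  have C : Ctx (LL : Set ZFSet.{u}) LL := ctx_LL
  -- `v = (y, k, w)`
  have hd : Dfn (LL : Set ZFSet.{u}) LL fun v => ∃ A ∈ LL, ZFSet.pair (v 1) (v 0) ∈ A ∧
      ∀ i ∈ om, ∀ z ∈ om, ZFSet.pair i z ∈ A →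
        (i = ∅ ∧ Q0 (cons z fun n => v (n + 2))) ∨
        (∃ j ∈ om, i = insert j j ∧ ∃ z' ∈ om, ZFSet.pair j z' ∈ A ∧
          QG (cons z (cons j (cons z' fun n => v (n + 2))))) := by
    have k1 : Dfn (LL : Set ZFSet.{u}) LL fun v => Q0 (cons (v 0) fun n => v (n + 5)) := by
      refine (hQ0.rename fun n => if n = 0 then 0 else n + 4).congr fun v _ => ?_
      apply iff_of_eq
      congr 1
      funext n
      cases n <;> rfl
    have k2 : Dfn (LL : Set ZFSet.{u}) LL fun v => QG (cons (v 2) (cons (v 1) (cons (v 0)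
        fun n => v (n + 7)))) := by
      refine (hQG.rename fun n => if n = 0 then 2 else if n = 1 then 1 else if n = 2 then 0 else
        n + 4).congr fun v _ => ?_
      apply iff_of_eq
      congr 1
      funext n
      rcases n with _ | _ | _ | n <;> rfl
    exact Dfn.ex ((C.mem (C.pair (C.var 2) (C.var 1)) (C.var 0)).and (C.ball C.om (C.ball C.om
      ((C.mem (C.pair (C.var 1) (C.var 0)) (C.var 2)).imp
        (((C.eq (C.var 1) C.empty).and k1).or (C.bex C.om ((C.eq (C.var 2)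
          (C.insert (C.var 0) (C.var 0))).and (C.bex C.om
            ((C.mem (C.pair (C.var 1) (C.var 0)) (C.var 4)).and k2)))))))))
  refine ⟨_, hd, fun w => ?_⟩
  set w' : ℕ → ℕ := fun i => w (i + 2) with hw'
  have e0 : ∀ z : ℕ, Q0 (cons (nat z) fun n => nat (w (n + 2))) ↔ z = F w' := by
    intro z
    rw [← nat_cons z w', hQ0']
    rfl
  have eG : ∀ z j z' : ℕ, QG (cons (nat z) (cons (nat j) (cons (nat z')
      fun n => nat (w (n + 2))))) ↔ z = G (cons j (cons z' w')) := by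
    intro z j z'
    rw [← nat_cons z' w', ← nat_cons, ← nat_cons, hQG']
    rfl
  change (∃ A ∈ LL, ZFSet.pair (nat (w 1)) (nat (w 0)) ∈ A ∧ _) ↔ w 0 = h w' (w 1)
  constructor
  · rintro ⟨A, _, h1, h2⟩
    have key : ∀ i z : ℕ, ZFSet.pair (nat i) (nat z) ∈ A → z = h w' i := by
      intro i
      induction i with
      | zero =>
        intro z hz
        rcases h2 _ (nat_mem_om 0) _ (nat_mem_om z) hz with ⟨_, h3⟩ | ⟨j, hj, h3, _⟩
        · rw [h0]
          exact (e0 z).1 h3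
        · exfalso
          have : j ∈ (∅ : ZFSet.{u}) := by
            have h4 : (nat 0 : ZFSet.{u}) = ∅ := rfl
            rw [← h4, h3]
            exact ZFSet.mem_insert _ _
          exact ZFSet.notMem_empty _ this
      | succ i ih =>
        intro z hz
        rcases h2 _ (nat_mem_om (i + 1)) _ (nat_mem_om z) hz with ⟨h3, _⟩ | ⟨j, hj, h3, z', hz',
          h4, h5⟩
        · exfalso
          have h4 : (nat (i + 1) : ZFSet.{u}) = nat 0 := h3
          rw [nat_inj] at h4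
          omega
        · obtain ⟨j, rfl⟩ := mem_om.1 hj
          obtain ⟨z', rfl⟩ := mem_om.1 hz'
          have h6 : (nat (i + 1) : ZFSet.{u}) = nat (j + 1) := h3
          rw [nat_inj] at h6
          obtain rfl : i = j := by omega
          have h7 := ih z' h4
          have h8 := (eG z i z').1 h5
          rw [hs, ← h7]
          exact h8
    exact key _ _ h1
  · intro hy
    -- the finite attempt
    have hA : ∀ k : ℕ, ∃ A ∈ (LL : Set ZFSet.{u}), ∀ x, x ∈ A ↔ ∃ i ≤ k,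
        x = ZFSet.pair (nat i) (nat (h w' i)) := by
      intro k
      induction k with
      | zero =>
        refine ⟨{ZFSet.pair (nat 0) (nat (h w' 0))}, good_LL.single (good_LL.pair (nat_mem_LL _)
          (nat_mem_LL _)), fun x => ?_⟩
        rw [ZFSet.mem_singleton]
        constructor
        · intro h; exact ⟨0, le_rfl, h⟩
        · rintro ⟨i, hi, rfl⟩
          obtain rfl : i = 0 := by omega
          rfl
      | succ k ih =>
        obtain ⟨A, hA, hA'⟩ := ih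
        refine ⟨insert (ZFSet.pair (nat (k + 1)) (nat (h w' (k + 1)))) A, good_LL.insert
          (good_LL.pair (nat_mem_LL _) (nat_mem_LL _)) hA, fun x => ?_⟩
        rw [ZFSet.mem_insert_iff, hA']
        constructor
        · rintro (h1 | ⟨i, hi, h1⟩)
          · exact ⟨k + 1, le_rfl, h1⟩
          · exact ⟨i, by omega, h1⟩
        · rintro ⟨i, hi, h1⟩
          rcases Nat.lt_or_ge k i with h2 | h2
          · obtain rfl : i = k + 1 := by omega
            exact Or.inl h1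
          · exact Or.inr ⟨i, h2, h1⟩
    obtain ⟨A, hA1, hA2⟩ := hA (w 1)
    refine ⟨A, hA1, (hA2 _).2 ⟨w 1, le_rfl, by rw [hy]⟩, ?_⟩
    intro i hi z hz hiz
    obtain ⟨i, rfl⟩ := mem_om.1 hi
    obtain ⟨z, rfl⟩ := mem_om.1 hz
    obtain ⟨i', hi', e⟩ := (hA2 _).1 hiz
    rw [ZFSet.pair_inj, nat_inj, nat_inj] at e
    obtain ⟨rfl, rfl⟩ := e
    cases i with
    | zero => exact Or.inl ⟨rfl, (e0 _).2 (h0 _)⟩
    | succ i =>
      refine Or.inr ⟨nat i, nat_mem_om i, rfl, nat (h w' i), nat_mem_om _, (hA2 _).2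
        ⟨i, by omega, rfl⟩, (eG _ _ _).2 (hs _ _)⟩

theorem add {f g : (ℕ → ℕ) → ℕ} (hf : NF.{u} f) (hg : NF.{u} g) :
    NF.{u} fun w => f w + g w := by
  have h1 : NF.{u} fun w => w 1 + w 0 :=
    NF.rec (F := fun w => w 0) (G := fun w => w 1 + 1) (NF.var 0) (NF.var 1).succ
      (fun w k => w 0 + k) (fun w => rfl) (fun w k => rfl)
  exact NF.comp2 (G := fun a b => b + a) h1 hg hf

theorem mul {f g : (ℕ → ℕ) → ℕ} (hf : NF.{u} f) (hg : NF.{u} g) :
    NF.{u} fun w => f w * g w := by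
  have h1 : NF.{u} fun w => w 1 * w 0 :=
    NF.rec (F := fun _ => 0) (G := fun w => w 1 + w 2) NF.zero (NF.add (NF.var 1) (NF.var 2))
      (fun w k => w 0 * k) (fun w => rfl) (fun w k => rfl)
  exact NF.comp2 (G := fun a b => b * a) h1 hg hf

theorem natPair {f g : (ℕ → ℕ) → ℕ} (hf : NF.{u} f) (hg : NF.{u} g) :
    NF.{u} fun w => Nat.pair (f w) (g w) := by
  have h1 : NF.{u} fun w => w 1 * w 1 + w 0 := NF.add (NF.mul (NF.var 1) (NF.var 1)) (NF.var 0)
  have h2 : NF.{u} fun w => w 0 * w 0 + w 0 + w 1 :=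
    NF.add (NF.add (NF.mul (NF.var 0) (NF.var 0)) (NF.var 0)) (NF.var 1)
  have h3 : NF.{u} fun w => Nat.pair (w 0) (w 1) := by
    refine (((NJ.lt 1 2).and h1).or ((NJ.lt 1 2).not.and h2)).congr fun w => ?_
    change (w 1 < w 2 ∧ w 0 = w 2 * w 2 + w 1) ∨ (¬ w 1 < w 2 ∧ w 0 = w 1 * w 1 + w 1 + w 2) ↔
      w 0 = Nat.pair (w 1) (w 2)
    unfold Nat.pair
    split_ifs with h
    · simp [h]
    · simp [h]
  exact NF.comp2 (G := Nat.pair) h3 hf hg

theorem of_primrec {f : ℕ → ℕ} (hf : Nat.Primrec f) : NF.{u} fun w => f (w 0) := by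
  induction hf with
  | zero => exact NF.zero
  | succ => exact (NF.var 0).succ
  | left =>
    have h1 : NJ.{u} fun w => ∃ n, Nat.pair (w 0) n = w 1 := by
      have h2 : NJ.{u} fun w => w 2 = Nat.pair (w 1) (w 0) :=
        NJ.comp2 (R := fun a b => a = b) (NJ.eq 0 1) (NF.var 2) (NF.natPair (NF.var 1) (NF.var 0))
      exact h2.ex.congr fun w => exists_congr fun n => eq_comm
    refine h1.congr fun w => ?_
    change (∃ n, Nat.pair (w 0) n = w 1) ↔ w 0 = (w 1).unpair.1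
    constructor
    · rintro ⟨n, h⟩
      rw [← h, Nat.unpair_pair]
    · intro h
      exact ⟨(w 1).unpair.2, by rw [h, Nat.pair_unpair]⟩
  | right =>
    have h1 : NJ.{u} fun w => ∃ n, Nat.pair n (w 0) = w 1 := by
      have h2 : NJ.{u} fun w => w 2 = Nat.pair (w 0) (w 1) :=
        NJ.comp2 (R := fun a b => a = b) (NJ.eq 0 1) (NF.var 2) (NF.natPair (NF.var 0) (NF.var 1))
      exact h2.ex.congr fun w => exists_congr fun n => eq_comm
    refine h1.congr fun w => ?_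
    change (∃ n, Nat.pair n (w 0) = w 1) ↔ w 0 = (w 1).unpair.2
    constructor
    · rintro ⟨n, h⟩
      rw [← h, Nat.unpair_pair]
    · intro h
      exact ⟨(w 1).unpair.1, by rw [h, Nat.pair_unpair]⟩
  | pair _ _ hf hg => exact NF.natPair hf hg
  | comp _ _ hf hg => exact NF.comp1 hf hg
  | @prec f g _ _ hf hg =>
    have h1 : NF.{u} fun w => Nat.rec (motive := fun _ => ℕ) (f (w 1))
        (fun y IH => g (Nat.pair (w 1) (Nat.pair y IH))) (w 0) :=
      NF.rec (F := fun w => f (w 0)) (G := fun w => g (Nat.pair (w 2) (Nat.pair (w 0) (w 1))))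
        hf (NF.comp1 hg (NF.natPair (NF.var 2) (NF.natPair (NF.var 0) (NF.var 1))))
        (fun w k => Nat.rec (motive := fun _ => ℕ) (f (w 0))
          (fun y IH => g (Nat.pair (w 0) (Nat.pair y IH))) k) (fun w => rfl) (fun w k => rfl)
    have hl : NF.{u} fun w => (w 0).unpair.1 := by
      have h1 : NJ.{u} fun w => ∃ n, Nat.pair (w 0) n = w 1 := by
        have h2 : NJ.{u} fun w => w 2 = Nat.pair (w 1) (w 0) :=
          NJ.comp2 (R := fun a b => a = b) (NJ.eq 0 1) (NF.var 2) (NF.natPair (NF.var 1) (NF.var 0))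
        exact h2.ex.congr fun w => exists_congr fun n => eq_comm
      refine h1.congr fun w => ?_
      change (∃ n, Nat.pair (w 0) n = w 1) ↔ w 0 = (w 1).unpair.1
      constructor
      · rintro ⟨n, h⟩
        rw [← h, Nat.unpair_pair]
      · intro h
        exact ⟨(w 1).unpair.2, by rw [h, Nat.pair_unpair]⟩
    have hr : NF.{u} fun w => (w 0).unpair.2 := by
      have h1 : NJ.{u} fun w => ∃ n, Nat.pair n (w 0) = w 1 := by
        have h2 : NJ.{u} fun w => w 2 = Nat.pair (w 0) (w 1) :=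
          NJ.comp2 (R := fun a b => a = b) (NJ.eq 0 1) (NF.var 2) (NF.natPair (NF.var 0) (NF.var 1))
        exact h2.ex.congr fun w => exists_congr fun n => eq_comm
      refine h1.congr fun w => ?_
      change (∃ n, Nat.pair n (w 0) = w 1) ↔ w 0 = (w 1).unpair.2
      constructor
      · rintro ⟨n, h⟩
        rw [← h, Nat.unpair_pair]
      · intro h
        exact ⟨(w 1).unpair.1, by rw [h, Nat.pair_unpair]⟩
    exact NF.comp2 (G := fun k z => Nat.rec (motive := fun _ => ℕ) (f z)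
        (fun y IH => g (Nat.pair z (Nat.pair y IH))) k) h1 hr hl

end NF

/-- The sets of natural numbers in `L`. -/
def JL : Set (Set ℕ) := {S | ∃ a ∈ (LL : Set ZFSet.{u}), ∀ n, n ∈ S ↔ nat n ∈ a}

theorem mem_JL_iff {S : Set ℕ} : S ∈ JL.{u} ↔ NJ.{u} fun w => w 0 ∈ S := by
  constructor
  · rintro ⟨a, ha, h⟩
    exact ⟨_, ctx_LL.mem (ctx_LL.var 0) (dfn_prm_LL ha), fun w => (h (w 0)).symm⟩
  · rintro ⟨Q, hQ, h⟩
    have h1 : Dfn (LL : Set ZFSet.{u}) LL fun v => v 0 ∈ om ∧ Q (cons (v 0) fun _ => nat 0) :=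
      (ctx_LL.mem (ctx_LL.var 0) ctx_LL.om).and (hQ.fix (fun _ => nat_mem_LL 0)
        fun _ => nat_mem_LL 0)
    obtain ⟨X, hX, hX'⟩ := exists_LL_set (P := fun z => z ∈ om ∧ Q (cons z fun _ => nat 0))
      (fun _ h => h.1) (fun _ h => LL_trans om_mem_LL h.1) h1
    refine ⟨X, hX, fun n => ?_⟩
    rw [hX']
    have h2 := h (cons n fun _ => 0)
    rw [nat_cons] at h2
    constructor
    · intro hn
      exact ⟨nat_mem_om n, h2.2 hn⟩
    · intro hn
      exact h2.1 hn.2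

theorem arithClosed_JL : ArithClosed JL.{u} where
  compl S hS := by
    rw [mem_JL_iff] at hS ⊢
    exact hS.not
  inter S hS T hT := by
    rw [mem_JL_iff] at hS hT ⊢
    exact hS.and hT
  preim S hS f hf := by
    rw [mem_JL_iff] at hS ⊢
    exact NJ.comp1 (R := fun n => n ∈ S) hS (NF.of_primrec hf)
  proj S hS := by
    rw [mem_JL_iff] at hS ⊢
    have h1 : NJ.{u} fun w => Nat.pair (w 1) (w 0) ∈ S :=
      NJ.comp1 (R := fun n => n ∈ S) hS (NF.natPair (NF.var 1) (NF.var 0))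
    exact h1.ex
  zero := by
    rw [mem_JL_iff]
    exact NJ.eqz 0

end Pool.Agent.Helper88.SetTh
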