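import Pool.Agent.Helper88.SetTh.Constr

/-!
# Definability calculus over transitive classes; closure properties of `L`
-/

set_option autoImplicit false

universe u

namespace Pool.Agent.Helper88.SetTh

open Ordinal

/-- Transitive classes closed under insertion of elements. -/
structure Good (N : Set ZFSet.{u}) : Prop where
  trans : ∀ {x y : ZFSet.{u}}, x ∈ N → y ∈ x → y ∈ N
  empty : ∅ ∈ N
  insert : ∀ {x y : ZFSet.{u}}, x ∈ N → y ∈ N → insert x y ∈ N

theorem Good.pair2 {N : Set ZFSet.{u}} (hN : Good N) {x y : ZFSet.{u}} (hx : x ∈ N) (hy : y ∈ N) :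
    ({x, y} : ZFSet.{u}) ∈ N := hN.insert hx (hN.insert hy hN.empty)

theorem Good.single {N : Set ZFSet.{u}} (hN : Good N) {x : ZFSet.{u}} (hx : x ∈ N) :
    ({x} : ZFSet.{u}) ∈ N := hN.insert hx hN.empty

theorem Good.pair {N : Set ZFSet.{u}} (hN : Good N) {x y : ZFSet.{u}} (hx : x ∈ N) (hy : y ∈ N) :
    ZFSet.pair x y ∈ N := hN.pair2 (hN.single hx) (hN.pair2 hx hy)

theorem Good.of_pair_mem {N : Set ZFSet.{u}} (hN : Good N) {x y z : ZFSet.{u}} (hz : z ∈ N)
    (h : ZFSet.pair x y ∈ z) : x ∈ N ∧ y ∈ N := by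
  have h1 := hN.trans hz h
  have h2 : ({x, y} : ZFSet.{u}) ∈ N := hN.trans h1 (by simp [ZFSet.pair])
  exact ⟨hN.trans h2 (by simp), hN.trans h2 (by simp)⟩

theorem Good.of_pair {N : Set ZFSet.{u}} (hN : Good N) {x y : ZFSet.{u}}
    (h : ZFSet.pair x y ∈ N) : x ∈ N ∧ y ∈ N := by
  have h2 : ({x, y} : ZFSet.{u}) ∈ N := hN.trans h (by simp [ZFSet.pair])
  exact ⟨hN.trans h2 (by simp), hN.trans h2 (by simp)⟩

namespace Dfn

variable {N Prm : Set ZFSet.{u}} {P Q : (ℕ → ZFSet.{u}) → Prop}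
  {f g h k : (ℕ → ZFSet.{u}) → ZFSet.{u}}

/-- Fixing all variables but the first. -/
theorem fix (hP : Dfn N Prm P) {v : ℕ → ZFSet.{u}} (hv : ∀ i, v i ∈ Prm) (hvN : ∀ i, v i ∈ N) :
    Dfn N Prm fun w => P (cons (w 0) v) := by
  obtain ⟨φ, p, hp, hφ⟩ := hP
  refine ⟨φ.rename (fun i => if i = 0 then 0 else if i % 2 = 0 then 2 * (i - 2) + 1
    else 2 * i + 1), mix v p, ?_, fun w hw => ?_⟩
  · intro i
    unfold mix
    split_ifs
    · exact hv _
    · exact hp _
  · rw [sat_rename]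
    refine (hφ _ (cons_mem (hw 0) hvN)).trans ?_
    have : (fun i => mix w (mix v p) (if i = 0 then 0 else if i % 2 = 0 then 2 * (i - 2) + 1
        else 2 * i + 1)) = mix (cons (w 0) v) p := by
      funext i
      by_cases h0 : i = 0
      · subst h0
        rfl
      · rw [if_neg h0]
        by_cases h1 : i % 2 = 0
        · obtain ⟨m, rfl⟩ : ∃ m, i = 2 * (m + 1) := ⟨i / 2 - 1, by omega⟩
          rw [if_pos h1, mix_even, show 2 * (2 * (m + 1) - 2) + 1 = 2 * (2 * m) + 1 by omega,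
            mix_odd, mix_even]
          rfl
        · obtain ⟨m, rfl⟩ : ∃ m, i = 2 * m + 1 := ⟨i / 2, by omega⟩
          rw [if_neg h1, mix_odd, mix_odd, mix_odd]
    rw [this]

theorem mem (hf : DF N Prm f) (hg : DF N Prm g) (hne : Prm.Nonempty) :
    Dfn N Prm fun v => f v ∈ g v := comp2 (R := fun a b => a ∈ b) (vmem hne 0 1) hf hg

theorem eq (hf : DF N Prm f) (hg : DF N Prm g) (hne : Prm.Nonempty) :
    Dfn N Prm fun v => f v = g v := comp2 (R := fun a b => a = b) (veq hne 0 1) hf hg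

/-- Bounded quantifiers. -/
theorem ball (hN : Good N) (hne : Prm.Nonempty) (hf : DF N Prm f) (hP : Dfn N Prm P) :
    Dfn N Prm fun v => ∀ x ∈ f v, P (cons x v) := by
  refine (((mem (DF.var hne 0) hf.shift hne).imp hP).all).congr fun v hv => ?_
  constructor
  · intro h x hx
    exact h x (hN.trans (hf.mem v hv) hx) hx
  · intro h x _ hx
    exact h x hx

theorem bex (hN : Good N) (hne : Prm.Nonempty) (hf : DF N Prm f) (hP : Dfn N Prm P) :
    Dfn N Prm fun v => ∃ x ∈ f v, P (cons x v) :=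
  (ball hN hne hf hP.not).not.congr fun v _ => by push Not; rfl

theorem subset (hN : Good N) (hne : Prm.Nonempty) (hf : DF N Prm f) (hg : DF N Prm g) :
    Dfn N Prm fun v => f v ⊆ g v :=
  ball hN hne hf (mem (DF.var hne 0) hg.shift hne)

end Dfn

namespace DF

variable {N Prm : Set ZFSet.{u}} {P Q : (ℕ → ZFSet.{u}) → Prop}
  {f g h k : (ℕ → ZFSet.{u}) → ZFSet.{u}}

theorem of_mem (hN : Good N) (hne : Prm.Nonempty) (hmem : ∀ v : ℕ → ZFSet.{u}, (∀ i, v i ∈ N) → f v ∈ N)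
    (h : Dfn N Prm fun v => v 0 ∈ f fun i => v (i + 1)) : DF N Prm f := by
  refine ⟨hmem, ?_⟩
  have h1 : Dfn N Prm fun v => ∀ w ∈ N, (w ∈ v 0 ↔ w ∈ f fun i => v (i + 1)) :=
    (Dfn.iff (Dfn.vmem hne 0 1) (h.rename fun i => if i = 0 then 0 else i + 1)).all
  refine h1.congr fun v hv => ?_
  have hfv := hmem (fun i => v (i + 1)) fun i => hv _
  constructor
  · intro h
    apply ZFSet.ext
    intro w
    constructor
    · intro hw
      exact (h w (hN.trans (hv 0) hw)).1 hw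
    · intro hw
      exact (h w (hN.trans hfv hw)).2 hw
  · intro h w _
    rw [h]

theorem empty (hN : Good N) (hne : Prm.Nonempty) : DF N Prm fun _ => ∅ :=
  of_mem hN hne (fun _ _ => hN.empty) ((Dfn.const hne False).congr fun v _ => by simp)

theorem insert (hN : Good N) (hne : Prm.Nonempty) (hf : DF N Prm f) (hg : DF N Prm g) :
    DF N Prm fun v => insert (f v) (g v) := by
  refine of_mem hN hne (fun v hv => hN.insert (hf.mem v hv) (hg.mem v hv)) ?_
  refine ((Dfn.eq (var hne 0) hf.shift hne).or (Dfn.mem (var hne 0) hg.shift hne)).congr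
    fun v _ => ?_
  simp

theorem single (hN : Good N) (hne : Prm.Nonempty) (hf : DF N Prm f) :
    DF N Prm fun v => {f v} := insert hN hne hf (empty hN hne)

theorem pair2 (hN : Good N) (hne : Prm.Nonempty) (hf : DF N Prm f) (hg : DF N Prm g) :
    DF N Prm fun v => {f v, g v} := insert hN hne hf (single hN hne hg)

theorem pair (hN : Good N) (hne : Prm.Nonempty) (hf : DF N Prm f) (hg : DF N Prm g) :
    DF N Prm fun v => ZFSet.pair (f v) (g v) :=
  pair2 hN hne (single hN hne hf) (pair2 hN hne hf hg)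

end DF

/-! ### The class `L` -/

theorem LL_ne : (LL : Set ZFSet.{u}).Nonempty := ⟨_, empty_mem_LL⟩

theorem prmDF {a : ZFSet.{u}} (ha : a ∈ LL) : DF LL LL fun _ => a := DF.prm ha ha

theorem good_LL : Good (LL : Set ZFSet.{u}) where
  trans := LL_trans
  empty := empty_mem_LL
  insert := by
    intro x y hx hy
    apply mem_LL_of_dfn
    · intro z hz
      rcases ZFSet.mem_insert_iff.1 hz with rfl | hz
      · exact hx
      · exact LL_trans hy hz
    · refine ((Dfn.eq (DF.var LL_ne 0) (prmDF hx) LL_ne).or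
        (Dfn.mem (DF.var LL_ne 0) (prmDF hy) LL_ne)).congr fun v _ => ?_
      simp

/-- A function on `L` whose membership relation is definable over `L` and whose values are sets of
constructible sets is definable, with values in `L`. -/
theorem DF_LL {f : (ℕ → ZFSet.{u}) → ZFSet.{u}}
    (hsub : ∀ v : ℕ → ZFSet.{u}, (∀ i, v i ∈ LL) → ∀ y ∈ f v, y ∈ LL)
    (h : Dfn LL LL fun v => v 0 ∈ f fun i => v (i + 1)) : DF LL LL f := by
  refine DF.of_mem good_LL LL_ne (fun v hv => ?_) h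
  exact mem_LL_of_dfn (hsub v hv) (h.fix hv hv)

theorem sUnion_mem_LL {x : ZFSet.{u}} (hx : x ∈ LL) : ZFSet.sUnion x ∈ LL := by
  apply mem_LL_of_dfn
  · intro z hz
    obtain ⟨w, hw, hz⟩ := ZFSet.mem_sUnion.1 hz
    exact LL_trans (LL_trans hx hw) hz
  · refine (Dfn.bex good_LL LL_ne (prmDF hx)
      (Dfn.mem (DF.var LL_ne 1) (DF.var LL_ne 0) LL_ne)).congr fun v _ => ?_
    rw [ZFSet.mem_sUnion]
    rfl

theorem union_mem_LL {x y : ZFSet.{u}} (hx : x ∈ LL) (hy : y ∈ LL) : x ∪ y ∈ LL := by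
  rw [← ZFSet.sUnion_pair]
  exact sUnion_mem_LL (good_LL.pair2 hx hy)

/-- Relations between `L`-sets. -/
theorem isTransitive_dfn {N Prm : Set ZFSet.{u}} (hN : Good N) (hne : Prm.Nonempty)
    {f : (ℕ → ZFSet.{u}) → ZFSet.{u}} (hf : DF N Prm f) :
    Dfn N Prm fun v => (f v).IsTransitive :=
  Dfn.ball hN hne hf (Dfn.subset hN hne (DF.var hne 0) hf.shift)

theorem isOrdinal_dfn {N Prm : Set ZFSet.{u}} (hN : Good N) (hne : Prm.Nonempty)
    {f : (ℕ → ZFSet.{u}) → ZFSet.{u}} (hf : DF N Prm f) :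
    Dfn N Prm fun v => (f v).IsOrdinal := by
  refine ((isTransitive_dfn hN hne hf).and
    (Dfn.ball hN hne hf (isTransitive_dfn hN hne (DF.var hne 0)))).congr fun v _ => ?_
  rw [ZFSet.isOrdinal_iff_forall_mem_isTransitive]
  rfl

theorem toZFSet_mem_LL (o : Ordinal.{u}) : o.toZFSet ∈ LL := by
  by_contra hc
  -- the least ordinal not in `L`
  obtain ⟨a, ha, hmin⟩ : ∃ a : Ordinal.{u}, a.toZFSet ∉ LL ∧ ∀ b < a, b.toZFSet ∈ LL := by
    induction o using WellFoundedLT.induction with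
    | ind o ih =>
      by_cases h : ∀ b < o, b.toZFSet ∈ LL
      · exact ⟨o, hc, h⟩
      · push Not at h
        obtain ⟨b, hb, hb'⟩ := h
        exact ih b hb hb'
  apply ha
  apply mem_LL_of_dfn
  · intro y hy
    obtain ⟨b, hb, rfl⟩ := Ordinal.mem_toZFSet_iff.1 hy
    exact hmin b hb
  · refine (isOrdinal_dfn good_LL LL_ne (DF.var LL_ne 0)).congr fun v hv => ?_
    constructor
    · intro h
      obtain ⟨b, hb⟩ := ZFSet.isOrdinal_iff_mem_range_toZFSet.1 h
      rw [← hb, Ordinal.toZFSet_mem_toZFSet_iff]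
      by_contra hlt
      push Not at hlt
      have hbL : b.toZFSet ∈ LL := hb ▸ hv 0
      rcases hlt.eq_or_lt with h1 | h1
      · rw [← h1] at hbL
        exact ha hbL
      · exact ha (LL_trans hbL (Ordinal.toZFSet_mem_toZFSet_iff.2 h1))
    · intro h
      exact (ZFSet.isOrdinal_toZFSet a).mem h

theorem ordinal_mem_LL {x : ZFSet.{u}} (hx : x.IsOrdinal) : x ∈ LL := by
  obtain ⟨b, rfl⟩ := ZFSet.isOrdinal_iff_mem_range_toZFSet.1 hx
  exact toZFSet_mem_LL b

/-! ### Natural numbers -/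

theorem mem_nat {n : ℕ} {x : ZFSet.{u}} : x ∈ nat n ↔ ∃ m < n, x = nat m := by
  induction n with
  | zero => simp [nat]
  | succ n ih =>
    rw [nat, ZFSet.mem_insert_iff, ih]
    constructor
    · rintro (rfl | ⟨m, hm, rfl⟩)
      · exact ⟨n, Nat.lt_succ_self n, rfl⟩
      · exact ⟨m, Nat.lt_succ_of_lt hm, rfl⟩
    · rintro ⟨m, hm, rfl⟩
      rcases Nat.lt_succ_iff_lt_or_eq.1 hm with h | rfl
      · exact Or.inr ⟨m, h, rfl⟩
      · exact Or.inl rfl

theorem nat_eq_toZFSet (n : ℕ) : nat.{u} n = (n : Ordinal.{u}).toZFSet := by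
  induction n with
  | zero => simp [nat]
  | succ n ih => rw [nat, ih, Nat.cast_succ, Ordinal.toZFSet_add_one]

theorem nat_injective : Function.Injective nat.{u} := by
  intro m n h
  rw [nat_eq_toZFSet, nat_eq_toZFSet] at h
  have := Ordinal.toZFSet_injective h
  exact_mod_cast this

@[simp] theorem nat_inj {m n : ℕ} : nat.{u} m = nat n ↔ m = n := nat_injective.eq_iff

@[simp] theorem nat_mem_nat {m n : ℕ} : nat.{u} m ∈ nat n ↔ m < n := by
  rw [mem_nat]
  constructor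
  · rintro ⟨k, hk, h⟩
    rw [nat_inj] at h
    omega
  · intro h
    exact ⟨m, h, rfl⟩

theorem nat_isOrdinal (n : ℕ) : (nat.{u} n).IsOrdinal := by
  rw [nat_eq_toZFSet]
  exact ZFSet.isOrdinal_toZFSet _

theorem nat_mem_LL (n : ℕ) : nat.{u} n ∈ LL := ordinal_mem_LL (nat_isOrdinal n)

/-- The set of natural numbers. -/
noncomputable def om : ZFSet.{u} := Ordinal.omega0.toZFSet

theorem mem_om {x : ZFSet.{u}} : x ∈ om ↔ ∃ n, x = nat n := by
  unfold om
  rw [Ordinal.mem_toZFSet_iff]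
  constructor
  · rintro ⟨a, ha, rfl⟩
    obtain ⟨n, rfl⟩ := Ordinal.lt_omega0.1 ha
    exact ⟨n, (nat_eq_toZFSet n).symm⟩
  · rintro ⟨n, rfl⟩
    exact ⟨n, Ordinal.natCast_lt_omega0 n, (nat_eq_toZFSet n).symm⟩

@[simp] theorem nat_mem_om (n : ℕ) : nat.{u} n ∈ om := mem_om.2 ⟨n, rfl⟩

theorem om_isOrdinal : (om.{u}).IsOrdinal := ZFSet.isOrdinal_toZFSet _

theorem om_mem_LL : om.{u} ∈ LL := toZFSet_mem_LL _

end Pool.Agent.Helper88.SetTh
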