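import Pool.Agent.Helper88.SetTh.Core

/-!
# No name of a perfect tree of reals equivalent to the generic
-/

set_option autoImplicit false

namespace Pool.Agent.Helper88.SetTh

open Encodable

section

variable {J : Set (Set ℕ)} (hJ : ArithClosed J)

include hJ

/-- Predicates of the values of a sequence in `J`. -/
theorem jp_seq {α : Type} [Primcodable α] {s : ℕ → Lab} (hs : JP J fun x : ℕ × Lab => s x.1 = x.2)
    {P : α → Lab → Prop} (hP : JP J fun x : α × Lab => P x.1 x.2) {f : α → ℕ} (hf : Primrec f) :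
    JP J fun a => P a (s (f a)) := by
  have h1 : JP J fun a : α => ∃ τ : Lab, s (f a) = τ ∧ P a τ := by
    refine JP.ex hJ (P := fun (a : α) (τ : Lab) => s (f a) = τ ∧ P a τ) ?_
    exact JP.and hJ (hs.comp hJ (f := fun x : α × Lab => (f x.1, x.2))
      (Primrec.pair (hf.comp (pF pI)) (pS pI))) hP
  exact h1.congr fun a => ⟨fun ⟨τ, h1, h2⟩ => h1 ▸ h2, fun h => ⟨_, rfl, h⟩⟩

/-- The values of a sequence of labels. -/
theorem jp_phi {s : ℕ → Lab} (hs : JP J fun x : ℕ × Lab => s x.1 = x.2) :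
    JP J fun y : Str × Str => ∃ k, y.2 <+: value (s k) y.1 := by
  refine JP.ex hJ (P := fun (y : Str × Str) (k : ℕ) => y.2 <+: value (s k) y.1) ?_
  refine jp_seq hJ hs (P := fun (x : (Str × Str) × ℕ) (τ : Lab) => x.1.2 <+: value τ x.1.1) ?_
    (pS pI)
  exact JP.prim hJ (prim_pre (pS (pF (pF pI))) (prim_value (pS pI) (pF (pF (pF pI)))))

end

theorem seq_mono {s : ℕ → Lab} (h : ∀ k, s k <:+ s (k + 1)) {m n : ℕ} (hmn : m ≤ n) :
    s m <:+ s n := by
  induction n, hmn using Nat.le_induction with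
  | base => exact List.suffix_rfl
  | succ n _ ih => exact ih.trans (h n)

section

variable {J : Set (Set ℕ)} (hJ : ArithClosed J) {c : ℕ → Bool} (hc : Gen J c) {n0 : ℕ}
  {Y : Str → Str → Prop} (T : TreeName (ini c n0) Y) {s : ℕ → Lab}
  (hs1 : ∀ k, s k <:+ s (k + 1)) (hs2 : ∀ k, Valid (ini c n0) Y (s k))

include T hs1 hs2

theorem value_le {k k' : ℕ} (hk : k ≤ k') {q q' : Str} (hq : q <+: q') :
    value (s k) q <+: value (s k') q' :=
  (value_mono (hs2 k) hq).trans (value_mono_lab (hs2 k') (seq_mono hs1 hk) q')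

include hJ hc

/-- The branch named by a sequence of labels. -/
theorem branch (hs3 : JP J fun x : ℕ × Lab => s x.1 = x.2)
    (htot : ∀ q, ini c n0 <+: q → ∀ n, ∃ k q', q <+: q' ∧ n ≤ (value (s k) q').length) :
    ∃ x : ℕ → Bool, (∀ v, (∃ n k, v <+: value (s k) (ini c n)) ↔ ∃ m, v = ini x m) ∧
      (∀ n, ∃ m, Y (ini c m) (ini x n)) := by
  have hlen : ∀ n, ∃ m k, n ≤ (value (s k) (ini c m)).length := by
    intro n
    refine Gen.dense hc (B := fun q => ∃ k, n ≤ (value (s k) q).length) ?_ (m := n0) ?_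
    · refine JP.ex hJ (P := fun (q : Str) (k : ℕ) => n ≤ (value (s k) q).length) ?_
      refine jp_seq hJ hs3 (P := fun (x : Str × ℕ) (τ : Lab) => n ≤ (value τ x.1).length) ?_ (pS pI)
      exact JP.prim hJ (Primrec.nat_le.comp (Primrec.const _) (Primrec.list_length.comp
        (prim_value (pS pI) (pF (pF pI)))))
    · intro q hq
      obtain ⟨k, q', h1, h2⟩ := htot q hq n
      exact ⟨q', h1, k, h2⟩
  choose mm kk hmk using hlen
  let x : ℕ → Bool := fun n => ((value (s (kk (n + 1))) (ini c (mm (n + 1))))[n]?).getD false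
  have hval : ∀ k m, value (s k) (ini c m) = ini x (value (s k) (ini c m)).length := by
    intro k m
    apply List.ext_getElem?
    intro i
    rw [ini_getElem?]
    by_cases hi : i < (value (s k) (ini c m)).length
    · rw [if_pos hi]
      have h1 := hmk (i + 1)
      have h2 : value (s k) (ini c m) <+:
          value (s (max k (kk (i + 1)))) (ini c (max m (mm (i + 1)))) :=
        value_le T hs1 hs2 (le_max_left _ _) (ini_pre c (le_max_left _ _))
      have h3 : value (s (kk (i + 1))) (ini c (mm (i + 1))) <+: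
          value (s (max k (kk (i + 1)))) (ini c (max m (mm (i + 1)))) :=
        value_le T hs1 hs2 (le_max_right _ _) (ini_pre c (le_max_right _ _))
      have h4 := List.prefix_iff_getElem?.1 h2 i hi
      have h5 := List.prefix_iff_getElem?.1 h3 i (by omega)
      rw [List.getElem?_eq_getElem hi, ← h4, h5]
      change some _ = some (((value (s (kk (i + 1))) (ini c (mm (i + 1))))[i]?).getD false)
      rw [List.getElem?_eq_getElem (show i < (value (s (kk (i + 1))) (ini c (mm (i + 1)))).length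
        by omega), Option.getD_some]
    · rw [if_neg hi, List.getElem?_eq_none (by omega)]
  have hreach : ∀ n, ini x n <+: value (s (kk n)) (ini c (mm n)) := by
    intro n
    rw [hval (kk n) (mm n)]
    exact ini_pre x (hmk n)
  refine ⟨x, fun v => ⟨?_, ?_⟩, ?_⟩
  · rintro ⟨n, k, h⟩
    rw [hval k n] at h
    exact ⟨_, eq_ini h⟩
  · rintro ⟨m, rfl⟩
    exact ⟨mm m, kk m, hreach m⟩
  · intro n
    refine ⟨max (mm n) n0, T.mono (Y_value T (hs2 (kk n)) (ini_pre c (le_max_right _ _)))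
      List.prefix_rfl ?_⟩
    exact (hreach n).trans (value_mono (hs2 _) (ini_pre c (le_max_left _ _)))

end

section

variable {J : Set (Set ℕ)} (hJ : ArithClosed J) {c : ℕ → Bool} (hc : Gen J c) {n0 : ℕ}
  {Y : Str → Str → Prop} (hY : JP J fun x : Str × Str => Y x.1 x.2)
  (T : TreeName (ini c n0) Y)
  (hbr : ∀ (x : ℕ → Bool) (Φ : Str → Str → Prop), JP J (fun y : Str × Str => Φ y.1 y.2) →
    (∀ n, ∃ m, Y (ini c m) (ini x n)) → (∀ v, (∃ n, Φ (ini c n) v) ↔ ∃ m, v = ini x m) →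
    Gen J x ∧ ∃ Ψ : Str → Str → Prop, JP J (fun y : Str × Str => Ψ y.1 y.2) ∧
      ∀ v, (∃ n, Ψ (ini x n) v) ↔ ∃ m, v = ini c m)

include hJ hc hY T hbr

theorem no_bad {n : ℕ} (hn : n0 ≤ n) : ¬ Bad (ini c n0) Y (ini c n) := by
  rintro ⟨σ0, hσ0, hbad⟩
  obtain ⟨s, -, hs1, hs2, hsD, hs3⟩ := gen_seq hJ hY (ι := Str × Str × ℕ)
    (D := fun i σ => (ini c n0 <+: i.1 → ∃ q', i.1 <+: q' ∧ i.2.2 ≤ (value σ q').length) ∧
      (∃ w', i.2.1 <+: w' ∧ ¬ Pot Y σ (ini c n) w'))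
    (by
      refine JP.and hJ (JP.imp hJ (JP.prim hJ (prim_pre (Primrec.const _) (pF (pF pI)))) ?_) ?_
      · refine JP.ex hJ (P := fun (x : (Str × Str × ℕ) × Lab) (q' : Str) => x.1.1 <+: q' ∧
          x.1.2.2 ≤ (value x.2 q').length) ?_
        exact JP.prim hJ (PrimrecPred.and (prim_pre (pF (pF (pF pI))) (pS pI))
          (Primrec.nat_le.comp (pS (pS (pF (pF pI)))) (Primrec.list_length.comp
            (prim_value (pS (pF pI)) (pS pI)))))
      · refine JP.ex hJ (P := fun (x : (Str × Str × ℕ) × Lab) (w' : Str) => x.1.2.1 <+: w' ∧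
          ¬ Pot Y x.2 (ini c n) w') ?_
        exact JP.and hJ (JP.prim hJ (prim_pre (pF (pS (pF (pF pI)))) (pS pI)))
          (JP.not hJ (jp_pot hJ hY (pS (pF pI)) (Primrec.const _) (pS pI))))
    hσ0
    (by
      rintro ⟨p, w, l⟩ σ h1 h2
      have hfirst : ∃ τ, σ <:+ τ ∧ Valid (ini c n0) Y τ ∧
          (ini c n0 <+: p → ∃ q', p <+: q' ∧ l ≤ (value τ q').length) := by
        by_cases hp : ini c n0 <+: p
        · obtain ⟨τ, h3, h4, h5⟩ := total_dense T h2 hp l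
          exact ⟨τ, h3, h4, fun _ => h5⟩
        · exact ⟨σ, List.suffix_rfl, h2, fun h => absurd h hp⟩
      obtain ⟨τ, h3, h4, h5⟩ := hfirst
      have h6 := hbad τ (h1.trans h3) h4 w
      unfold Pers at h6
      push Not at h6
      obtain ⟨ρ, g1, g2, w', g3, g4⟩ := h6
      refine ⟨ρ, h3.trans g1, g2, fun hp => ?_, w', g3, g4⟩
      obtain ⟨q', g5, g6⟩ := h5 hp
      exact ⟨q', g5, g6.trans (value_mono_lab g2 g1 q').length_le⟩)
  obtain ⟨x, hx1, hx2⟩ := branch hJ hc T hs1 hs2 hs3 (fun q hq l => by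
    obtain ⟨k, h1, _⟩ := hsD (q, [], l)
    obtain ⟨q', h2, h3⟩ := h1 hq
    exact ⟨k, q', h2, h3⟩)
  obtain ⟨hgx, -⟩ := hbr x (fun q v => ∃ k, v <+: value (s k) q) (jp_phi hJ hs3) hx2 hx1
  obtain ⟨m, k, hm⟩ := Gen.dense hgx (B := fun w => ∃ k, ¬ Pot Y (s k) (ini c n) w)
    (by
      refine JP.ex hJ (P := fun (w : Str) (k : ℕ) => ¬ Pot Y (s k) (ini c n) w) ?_
      refine jp_seq hJ hs3 (P := fun (x : Str × ℕ) (τ : Lab) => ¬ Pot Y τ (ini c n) x.1) ?_ (pS pI)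
      exact JP.not hJ (jp_pot hJ hY (pS pI) (Primrec.const _) (pF (pF pI))))
    (m := 0)
    (by
      intro w _
      obtain ⟨k, _, w', h2, h3⟩ := hsD ([], w, 0)
      exact ⟨w', h2, k, h3⟩)
  obtain ⟨m1, k1, h1⟩ := (hx1 (ini x m)).2 ⟨m, rfl⟩
  apply hm
  refine ⟨ini c (max (max m1 n) (len (s k) + 1)), value (s (max k k1)) (ini c (max (max m1 n)
    (len (s k) + 1))), ini_pre c ((le_max_right _ _).trans (le_max_left _ _)), ?_, ?_, ?_, ?_⟩
  · rw [ini_length]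
    exact lt_of_lt_of_le (Nat.lt_succ_self _) (le_max_right _ _)
  · exact h1.trans (value_le T hs1 hs2 (le_max_right _ _)
      (ini_pre c ((le_max_left _ _).trans (le_max_left _ _))))
  · exact value_le T hs1 hs2 (le_max_left _ _) List.prefix_rfl
  · exact Y_value T (hs2 _) (ini_pre c (hn.trans ((le_max_right _ _).trans (le_max_left _ _))))

/-- **The core contradiction.** -/
theorem core_aux : False := by
  -- a condition in the generic above which nothing is bad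
  obtain ⟨ρ, hρ0, hρ⟩ : ∃ ρ, n0 ≤ ρ ∧ ∀ q, ini c ρ <+: q → ¬ Bad (ini c n0) Y q := by
    rcases hc (fun q => ini c n0 <+: q ∧ Bad (ini c n0) Y q) (JP.and hJ
      (JP.prim hJ (prim_pre (Primrec.const _) pI)) (jp_bad hJ hY)) with ⟨n, h1, h2⟩ | ⟨n, h1⟩
    · have h3 : n0 ≤ n := by simpa using h1.length_le
      exact absurd h2 (no_bad hJ hc hY T hbr h3)
    · refine ⟨max n n0, le_max_right _ _, fun q hq hb => ?_⟩
      exact h1 q ((ini_pre c (le_max_left _ _)).trans hq) ⟨(ini_pre c (le_max_right _ _)).trans hq,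
        hb⟩
  have hbr' : ini c n0 <+: ini c ρ := ini_pre c hρ0
  obtain ⟨s, -, hs1, hs2, hsD, hs3⟩ := gen_seq hJ hY (ι := Str × Str × ℕ)
    (D := fun i σ => (ini c n0 <+: i.1 → ∃ q', i.1 <+: q' ∧ i.2.2 ≤ (value σ q').length) ∧
      (ini c n0 <+: i.1 → (∃ q', i.1 <+: q' ∧ i.2.1 <+: value σ q') ∨ ¬ Pot Y σ i.1 i.2.1) ∧
      (ini c ρ <+: i.1 → ∃ q0 q1 w, ((i.1 <+: q0 ∧ i.1 <+: q1 ∧ ¬ q0 <+: q1 ∧ ¬ q1 <+: q0)) ∧
        Pers (ini c n0) Y σ q0 w ∧ Pers (ini c n0) Y σ q1 w))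
    (by
      refine JP.and hJ (JP.imp hJ (JP.prim hJ (prim_pre (Primrec.const _) (pF (pF pI)))) ?_)
        (JP.and hJ (JP.imp hJ (JP.prim hJ (prim_pre (Primrec.const _) (pF (pF pI)))) ?_)
          (JP.imp hJ (JP.prim hJ (prim_pre (Primrec.const _) (pF (pF pI)))) ?_))
      · refine JP.ex hJ (P := fun (x : (Str × Str × ℕ) × Lab) (q' : Str) => x.1.1 <+: q' ∧
          x.1.2.2 ≤ (value x.2 q').length) ?_
        exact JP.prim hJ (PrimrecPred.and (prim_pre (pF (pF (pF pI))) (pS pI))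
          (Primrec.nat_le.comp (pS (pS (pF (pF pI)))) (Primrec.list_length.comp
            (prim_value (pS (pF pI)) (pS pI)))))
      · refine JP.or hJ ?_ (JP.not hJ (jp_pot hJ hY (pS pI) (pF (pF pI)) (pF (pS (pF pI)))))
        refine JP.ex hJ (P := fun (x : (Str × Str × ℕ) × Lab) (q' : Str) => x.1.1 <+: q' ∧
          x.1.2.1 <+: value x.2 q') ?_
        exact JP.prim hJ (PrimrecPred.and (prim_pre (pF (pF (pF pI))) (pS pI))
          (prim_pre (pF (pS (pF (pF pI)))) (prim_value (pS (pF pI)) (pS pI))))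
      · refine JP.ex hJ (P := fun (x : (Str × Str × ℕ) × Lab) (q0 : Str) => ∃ q1 w,
          ((x.1.1 <+: q0 ∧ x.1.1 <+: q1 ∧ ¬ q0 <+: q1 ∧ ¬ q1 <+: q0)) ∧
          Pers (ini c n0) Y x.2 q0 w ∧ Pers (ini c n0) Y x.2 q1 w) ?_
        refine JP.ex hJ (P := fun (x : ((Str × Str × ℕ) × Lab) × Str) (q1 : Str) => ∃ w,
          ((x.1.1.1 <+: x.2 ∧ x.1.1.1 <+: q1 ∧ ¬ x.2 <+: q1 ∧ ¬ q1 <+: x.2)) ∧
          Pers (ini c n0) Y x.1.2 x.2 w ∧ Pers (ini c n0) Y x.1.2 q1 w) ?_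
        refine JP.ex hJ (P := fun (x : (((Str × Str × ℕ) × Lab) × Str) × Str) (w : Str) =>
          ((x.1.1.1.1 <+: x.1.2 ∧ x.1.1.1.1 <+: x.2 ∧ ¬ x.1.2 <+: x.2 ∧ ¬ x.2 <+: x.1.2)) ∧
          Pers (ini c n0) Y x.1.1.2 x.1.2 w ∧ Pers (ini c n0) Y x.1.1.2 x.2 w) ?_
        have hp : Primrec fun y : ((((Str × Str × ℕ) × Lab) × Str) × Str) × Str => y.1.1.1.1.1 :=
          pF (pF (pF (pF (pF pI))))
        have hq0 : Primrec fun y : ((((Str × Str × ℕ) × Lab) × Str) × Str) × Str => y.1.1.2 :=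
          pS (pF (pF pI))
        have hq1 : Primrec fun y : ((((Str × Str × ℕ) × Lab) × Str) × Str) × Str => y.1.2 :=
          pS (pF pI)
        have hσ : Primrec fun y : ((((Str × Str × ℕ) × Lab) × Str) × Str) × Str => y.1.1.1.2 :=
          pS (pF (pF (pF pI)))
        exact JP.and hJ (JP.prim hJ (PrimrecPred.and (prim_pre hp hq0) (PrimrecPred.and
          (prim_pre hp hq1) (PrimrecPred.and (prim_pre hq0 hq1).not (prim_pre hq1 hq0).not))))
          (JP.and hJ (jp_pers hJ hY hσ hq0 (pS pI)) (jp_pers hJ hY hσ hq1 (pS pI))))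
    (σ0 := []) trivial
    (by
      rintro ⟨p, w, l⟩ σ h1 h2
      have hfirst : ∃ τ, σ <:+ τ ∧ Valid (ini c n0) Y τ ∧
          (ini c n0 <+: p → ∃ q', p <+: q' ∧ l ≤ (value τ q').length) := by
        by_cases hp : ini c n0 <+: p
        · obtain ⟨τ, h3, h4, h5⟩ := total_dense T h2 hp l
          exact ⟨τ, h3, h4, fun _ => h5⟩
        · exact ⟨σ, List.suffix_rfl, h2, fun h => absurd h hp⟩
      obtain ⟨τ, h3, h4, h5⟩ := hfirst
      have hsecond : ∃ τ', τ <:+ τ' ∧ Valid (ini c n0) Y τ' ∧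
          (ini c n0 <+: p → (∃ q', p <+: q' ∧ w <+: value τ' q') ∨ ¬ Pot Y τ' p w) := by
        by_cases hp : ini c n0 <+: p
        · by_cases hP : Pot Y τ p w
          · obtain ⟨τ', g1, g2, g3⟩ := hP.realize h4 hp
            exact ⟨τ', g1, g2, fun _ => Or.inl g3⟩
          · exact ⟨τ, List.suffix_rfl, h4, fun _ => Or.inr hP⟩
        · exact ⟨τ, List.suffix_rfl, h4, fun h => absurd h hp⟩
      obtain ⟨τ', g3, g4, g5⟩ := hsecond
      have hthird : ∃ τ'', τ' <:+ τ'' ∧ Valid (ini c n0) Y τ'' ∧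
          (ini c ρ <+: p → ∃ q0 q1 w, ((p <+: q0 ∧ p <+: q1 ∧ ¬ q0 <+: q1 ∧ ¬ q1 <+: q0)) ∧
            Pers (ini c n0) Y τ'' q0 w ∧ Pers (ini c n0) Y τ'' q1 w) := by
        by_cases hp : ini c ρ <+: p
        · obtain ⟨τ'', e1, e2, q0, q1, w', e3, e4, e5, e6, e7, e8⟩ :=
            amalg T hbr' hρ g4 hp
          exact ⟨τ'', e1, e2, fun _ => ⟨q0, q1, w', ⟨e3, e4, e5, e6⟩, e7, e8⟩⟩
        · exact ⟨τ', List.suffix_rfl, g4, fun h => absurd h hp⟩
      obtain ⟨τ'', e3, e4, e5⟩ := hthird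
      refine ⟨τ'', (h3.trans g3).trans e3, e4, fun hp => ?_, fun hp => ?_, e5⟩
      · obtain ⟨q', k1, k2⟩ := h5 hp
        exact ⟨q', k1, k2.trans (value_mono_lab e4 (g3.trans e3) q').length_le⟩
      · rcases g5 hp with ⟨q', k1, k2⟩ | k1
        · exact Or.inl ⟨q', k1, k2.trans (value_mono_lab e4 e3 q')⟩
        · exact Or.inr fun hP => k1 (hP.anti e4 e3))
  obtain ⟨x, hx1, hx2⟩ := branch hJ hc T hs1 hs2 hs3 (fun q hq l => by
    obtain ⟨k, h1, _⟩ := hsD (q, [], l)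
    obtain ⟨q', h2, h3⟩ := h1 hq
    exact ⟨k, q', h2, h3⟩)
  obtain ⟨-, Ψ, hΨ, hdec⟩ := hbr x (fun q v => ∃ k, v <+: value (s k) q) (jp_phi hJ hs3) hx2 hx1
  -- first genericity argument
  obtain ⟨n1, hn1⟩ : ∃ n, ∀ q, ini c n <+: q → ¬ ∃ w v, (∃ k, w <+: value (s k) q) ∧
      Ψ w v ∧ ¬ v <+: q ∧ ¬ q <+: v := by
    rcases hc (fun q => ∃ w v, (∃ k, w <+: value (s k) q) ∧ Ψ w v ∧ ¬ v <+: q ∧ ¬ q <+: v)
      (by
        refine JP.ex hJ (P := fun (q : Str) (w : Str) => ∃ v, (∃ k, w <+: value (s k) q) ∧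
          Ψ w v ∧ ¬ v <+: q ∧ ¬ q <+: v) ?_
        refine JP.ex hJ (P := fun (x : Str × Str) (v : Str) => (∃ k, x.2 <+: value (s k) x.1) ∧
          Ψ x.2 v ∧ ¬ v <+: x.1 ∧ ¬ x.1 <+: v) ?_
        refine JP.and hJ ((jp_phi hJ hs3).comp hJ (f := fun y : (Str × Str) × Str => y.1) (pF pI))
          (JP.and hJ (hΨ.comp hJ (f := fun y : (Str × Str) × Str => (y.1.2, y.2))
            (Primrec.pair (pS (pF pI)) (pS pI))) (JP.prim hJ (PrimrecPred.and
              (prim_pre (pS pI) (pF (pF pI))).not (prim_pre (pF (pF pI)) (pS pI)).not))))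
      with ⟨n, w, v, ⟨k, h1⟩, h2, h3, h4⟩ | h1
    · exfalso
      obtain ⟨m, rfl⟩ := (hx1 w).1 ⟨n, k, h1⟩
      obtain ⟨m', rfl⟩ := (hdec v).1 ⟨m, h2⟩
      rcases le_total m' n with h5 | h5
      · exact h3 (ini_pre c h5)
      · exact h4 (ini_pre c h5)
    · exact h1
  -- second genericity argument
  obtain ⟨n2, hn2⟩ : ∃ n, ∀ q, ini c n <+: q → ¬ ∃ l, ∀ q' w v, q <+: q' →
      (∃ k, w <+: value (s k) q') → Ψ w v → v.length < l := by
    rcases hc (fun q => ∃ l : ℕ, ∀ q' w v : Str, q <+: q' → (∃ k, w <+: value (s k) q') →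
        Ψ w v → v.length < l)
      (by
        refine JP.ex hJ (P := fun (q : Str) (l : ℕ) => ∀ q' w v : Str, q <+: q' →
          (∃ k, w <+: value (s k) q') → Ψ w v → v.length < l) ?_
        refine JP.all hJ (P := fun (x : Str × ℕ) (q' : Str) => ∀ w v : Str, x.1 <+: q' →
          (∃ k, w <+: value (s k) q') → Ψ w v → v.length < x.2) ?_
        refine JP.all hJ (P := fun (x : (Str × ℕ) × Str) (w : Str) => ∀ v : Str, x.1.1 <+: x.2 →
          (∃ k, w <+: value (s k) x.2) → Ψ w v → v.length < x.1.2) ?_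
        refine JP.all hJ (P := fun (x : ((Str × ℕ) × Str) × Str) (v : Str) => x.1.1.1 <+: x.1.2 →
          (∃ k, x.2 <+: value (s k) x.1.2) → Ψ x.2 v → v.length < x.1.1.2) ?_
        refine JP.imp hJ (JP.prim hJ (prim_pre (pF (pF (pF (pF pI)))) (pS (pF (pF pI)))))
          (JP.imp hJ ((jp_phi hJ hs3).comp hJ (f := fun y : (((Str × ℕ) × Str) × Str) × Str =>
            (y.1.1.2, y.1.2)) (Primrec.pair (pS (pF (pF pI))) (pS (pF pI)))) (JP.imp hJ
          (hΨ.comp hJ (f := fun y : (((Str × ℕ) × Str) × Str) × Str => (y.1.2, y.2))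
            (Primrec.pair (pS (pF pI)) (pS pI))) (JP.prim hJ (Primrec.nat_lt.comp
              (Primrec.list_length.comp (pS pI)) (pS (pF (pF (pF pI)))))))))
      with ⟨n, l, h1⟩ | h1
    · exfalso
      obtain ⟨m, h2⟩ := (hdec (ini c l)).2 ⟨l, rfl⟩
      obtain ⟨m1, k1, h3⟩ := (hx1 (ini x m)).2 ⟨m, rfl⟩
      have h4 := h1 (ini c (max n m1)) (ini x m) (ini c l) (ini_pre c (le_max_left _ _))
        ⟨k1, h3.trans (value_mono (hs2 _) (ini_pre c (le_max_right _ _)))⟩ h2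
      rw [ini_length] at h4
      exact lt_irrefl _ h4
    · exact h1
  -- the amalgamated conditions
  set N := max ρ (max n1 n2) with hN
  obtain ⟨k, -, -, hk⟩ := hsD (ini c N, [], 0)
  obtain ⟨q0, q1, w, ⟨g1, g2, g3, g4⟩, g5, g6⟩ := hk (ini_pre c (le_max_left _ _))
  have hnN : n0 ≤ N := hρ0.trans (le_max_left _ _)
  have hreal : ∀ q u, ini c N <+: q → Pers (ini c n0) Y (s k) q w → w <+: u →
      ∃ k' q', q <+: q' ∧ u <+: value (s k') q' := by
    intro q u hq hP hu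
    obtain ⟨k', -, h1, -⟩ := hsD (q, u, 0)
    rcases h1 ((ini_pre c hnN).trans hq) with ⟨q', h2, h3⟩ | h2
    · exact ⟨k', q', h2, h3⟩
    · exfalso
      apply h2
      have h3 := hP (s (max k k')) (seq_mono hs1 (le_max_left _ _)) (hs2 _) u hu
      exact h3.anti (hs2 _) (seq_mono hs1 (le_max_right _ _))
  obtain ⟨k', q', e1, e2⟩ := hreal q0 w g1 g5 List.prefix_rfl
  have hNn1 : ini c n1 <+: ini c N := ini_pre c ((le_max_left _ _).trans (le_max_right _ _))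
  have hNn2 : ini c n2 <+: ini c N := ini_pre c ((le_max_right _ _).trans (le_max_right _ _))
  have hB2 := hn2 q' ((hNn2.trans g1).trans e1)
  push Not at hB2
  obtain ⟨q'', w', v, f1, ⟨k'', f2⟩, f3, f4⟩ := hB2 (max q0.length q1.length)
  have hw1 : w <+: value (s (max k' k'')) q'' :=
    e2.trans (value_le T hs1 hs2 (le_max_left _ _) f1)
  have hw2 : w' <+: value (s (max k' k'')) q'' :=
    f2.trans (value_le T hs1 hs2 (le_max_right _ _) List.prefix_rfl)
  obtain ⟨k3, q3, d1, d2⟩ := hreal q1 _ g2 g6 hw1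
  have hv0 : q0 <+: v := by
    have h1 := hn1 q'' (((hNn1.trans g1).trans e1).trans f1)
    push Not at h1
    have h2 := h1 w' v ⟨k'', f2⟩ f3
    by_cases h3 : v <+: q''
    · exact List.prefix_of_prefix_length_le (e1.trans f1) h3 ((le_max_left _ _).trans f4)
    · exact (e1.trans f1).trans (h2 h3)
  have hv1 : q1 <+: v := by
    have h1 := hn1 q3 ((hNn1.trans g2).trans d1)
    push Not at h1
    have h2 := h1 w' v ⟨k3, hw2.trans d2⟩ f3
    by_cases h3 : v <+: q3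
    · exact List.prefix_of_prefix_length_le d1 h3 ((le_max_right _ _).trans f4)
    · exact d1.trans (h2 h3)
  rcases pre_total hv0 hv1 with h | h
  · exact g3 h
  · exact g4 h

end

/-- **The combinatorial core.** There is no name, in an arithmetically closed family `J`, of a
perfect tree all of whose branches (with a name in `J`) are generic over `J` and decode the
generic `c`. -/
theorem core {J : Set (Set ℕ)} (hJ : ArithClosed J) {c : ℕ → Bool} (hc : Gen J c)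
    {Y : Str → Str → Prop} (hY : JP J fun x : Str × Str => Y x.1 x.2)
    (hmono : ∀ {q v q' v' : Str}, Y q v → q <+: q' → v' <+: v → Y q' v')
    (hne : ∃ n, Y (ini c n) [])
    (hsplit : ∀ n v, Y (ini c n) v → ∃ m v0 v1, v <+: v0 ∧ v <+: v1 ∧ ¬ v0 <+: v1 ∧ ¬ v1 <+: v0 ∧
      Y (ini c m) v0 ∧ Y (ini c m) v1)
    (hbr : ∀ (x : ℕ → Bool) (Φ : Str → Str → Prop), JP J (fun y : Str × Str => Φ y.1 y.2) →
      (∀ n, ∃ m, Y (ini c m) (ini x n)) → (∀ v, (∃ n, Φ (ini c n) v) ↔ ∃ m, v = ini x m) →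
      Gen J x ∧ ∃ Ψ : Str → Str → Prop, JP J (fun y : Str × Str => Ψ y.1 y.2) ∧
        ∀ v, (∃ n, Ψ (ini x n) v) ↔ ∃ m, v = ini c m) : False := by
  obtain ⟨n1, hn1⟩ := hne
  obtain ⟨n2, hn2⟩ : ∃ n, ∀ q, ini c n <+: q → ¬ ∃ v, Y q v ∧ ∀ q' v0 v1,
      ((q <+: q' ∧ v <+: v0 ∧ v <+: v1 ∧ ¬ v0 <+: v1 ∧ ¬ v1 <+: v0) → ¬ (Y q' v0 ∧ Y q' v1)) := by
    rcases hc (fun q => ∃ v, Y q v ∧ ∀ q' v0 v1,
        ((q <+: q' ∧ v <+: v0 ∧ v <+: v1 ∧ ¬ v0 <+: v1 ∧ ¬ v1 <+: v0) → ¬ (Y q' v0 ∧ Y q' v1)))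
      (by
        refine JP.ex hJ (P := fun (q : Str) (v : Str) => Y q v ∧ ∀ q' v0 v1,
          ((q <+: q' ∧ v <+: v0 ∧ v <+: v1 ∧ ¬ v0 <+: v1 ∧ ¬ v1 <+: v0) →
            ¬ (Y q' v0 ∧ Y q' v1))) ?_
        refine JP.and hJ hY ?_
        refine JP.all hJ (P := fun (x : Str × Str) (q' : Str) => ∀ v0 v1,
          ((x.1 <+: q' ∧ x.2 <+: v0 ∧ x.2 <+: v1 ∧ ¬ v0 <+: v1 ∧ ¬ v1 <+: v0) →
            ¬ (Y q' v0 ∧ Y q' v1))) ?_
        refine JP.all hJ (P := fun (x : (Str × Str) × Str) (v0 : Str) => ∀ v1,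
          ((x.1.1 <+: x.2 ∧ x.1.2 <+: v0 ∧ x.1.2 <+: v1 ∧ ¬ v0 <+: v1 ∧ ¬ v1 <+: v0) →
            ¬ (Y x.2 v0 ∧ Y x.2 v1))) ?_
        refine JP.all hJ (P := fun (x : ((Str × Str) × Str) × Str) (v1 : Str) =>
          ((x.1.1.1 <+: x.1.2 ∧ x.1.1.2 <+: x.2 ∧ x.1.1.2 <+: v1 ∧ ¬ x.2 <+: v1 ∧
            ¬ v1 <+: x.2) → ¬ (Y x.1.2 x.2 ∧ Y x.1.2 v1))) ?_
        have hq' : Primrec fun y : (((Str × Str) × Str) × Str) × Str => y.1.1.2 := pS (pF (pF pI))
        have hv : Primrec fun y : (((Str × Str) × Str) × Str) × Str => y.1.1.1.2 :=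
          pS (pF (pF (pF pI)))
        refine JP.imp hJ (JP.prim hJ (PrimrecPred.and (prim_pre (pF (pF (pF (pF pI)))) hq')
          (PrimrecPred.and (prim_pre hv (pS (pF pI))) (PrimrecPred.and (prim_pre hv (pS pI))
          (PrimrecPred.and (prim_pre (pS (pF pI)) (pS pI)).not
            (prim_pre (pS pI) (pS (pF pI))).not))))) (JP.not hJ (JP.and hJ
            (jp_Y hJ hY hq' (pS (pF pI))) (jp_Y hJ hY hq' (pS pI)))))
      with ⟨n, v, h1, h2⟩ | h1
    · exfalso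
      obtain ⟨m, v0, v1, h3, h4, h5, h6, h7, h8⟩ := hsplit n v h1
      have hm : ini c m <+: ini c (max n m) := ini_pre c (le_max_right _ _)
      exact h2 (ini c (max n m)) v0 v1 ⟨ini_pre c (le_max_left _ _), h3, h4, h5, h6⟩
        ⟨hmono h7 hm List.prefix_rfl, hmono h8 hm List.prefix_rfl⟩
    · exact h1
  have T : TreeName (ini c (max n1 n2)) Y :=
    { mono := hmono
      nil := hmono hn1 (ini_pre c (le_max_left _ _)) List.prefix_rfl
      split := by
        intro q v hq hYq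
        have h1 := hn2 q ((ini_pre c (le_max_right _ _)).trans hq)
        push Not at h1
        obtain ⟨q', v0, v1, ⟨h2, h3, h4, h5, h6⟩, h7, h8⟩ := h1 v hYq
        exact ⟨q', v0, v1, h2, h3, h4, h5, h6, h7, h8⟩ }
  exact core_aux hJ hc hY T hbr

end Pool.Agent.Helper88.SetTh
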