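import Pool.Agent.Helper88.SetTh.Arith
import Pool.Agent.Helper88.SetTh.Core2

/-!
# Strings as conditions; transfer between arithmetic and `L`
-/

set_option autoImplicit false

universe u

namespace Pool.Agent.Helper88.SetTh

open Encodable

/-- The condition given by a string. -/
noncomputable def cset (s : Str) : ZFSet.{u} :=
  ZFSet.range fun i : Fin s.length => ZFSet.pair (nat i.1) (nat (s[i.1]).toNat)

theorem mem_cset {s : Str} {z : ZFSet.{u}} :
    z ∈ cset s ↔ ∃ i b, s[i]? = some b ∧ z = ZFSet.pair (nat i) (nat b.toNat) := by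
  unfold cset
  rw [ZFSet.mem_range]
  constructor
  · rintro ⟨i, rfl⟩
    exact ⟨i.1, s[i.1], List.getElem?_eq_getElem i.2, rfl⟩
  · rintro ⟨i, b, h, rfl⟩
    obtain ⟨hi, rfl⟩ := List.getElem?_eq_some_iff.1 h
    exact ⟨⟨i, hi⟩, rfl⟩

theorem pair_mem_cset {s : Str} {i m : ℕ} :
    ZFSet.pair (nat.{u} i) (nat m) ∈ cset s ↔ ∃ b : Bool, s[i]? = some b ∧ m = b.toNat := by
  rw [mem_cset]
  constructor
  · rintro ⟨j, b, h, e⟩
    rw [ZFSet.pair_inj, nat_inj, nat_inj] at e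
    obtain ⟨rfl, rfl⟩ := e
    exact ⟨b, h, rfl⟩
  · rintro ⟨b, h, rfl⟩
    exact ⟨i, b, h, rfl⟩

theorem cset_isCond (s : Str) : IsCond (cset.{u} s) := by
  classical
  refine ⟨(Finset.univ : Finset (Fin s.length)).image fun i => (i.1, (s[i.1]).toNat), ?_, ?_, ?_⟩
  · intro a ha
    obtain ⟨i, _, rfl⟩ := Finset.mem_image.1 ha
    exact Bool.toNat_lt _
  · intro a ha b hb hab
    obtain ⟨i, _, rfl⟩ := Finset.mem_image.1 ha
    obtain ⟨j, _, rfl⟩ := Finset.mem_image.1 hb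
    have h : i = j := Fin.ext hab
    subst h
    rfl
  · intro z
    rw [mem_cset]
    constructor
    · rintro ⟨i, b, h, rfl⟩
      obtain ⟨hi, rfl⟩ := List.getElem?_eq_some_iff.1 h
      exact ⟨(i, (s[i]).toNat), Finset.mem_image.2 ⟨⟨i, hi⟩, Finset.mem_univ _, rfl⟩, rfl⟩
    · rintro ⟨a, ha, rfl⟩
      obtain ⟨i, _, rfl⟩ := Finset.mem_image.1 ha
      exact ⟨i.1, s[i.1], List.getElem?_eq_getElem i.2, rfl⟩

theorem cset_mono {s t : Str} (h : s <+: t) : cset.{u} s ⊆ cset t := by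
  intro z hz
  obtain ⟨i, b, h1, rfl⟩ := mem_cset.1 hz
  obtain ⟨hi, rfl⟩ := List.getElem?_eq_some_iff.1 h1
  exact mem_cset.2 ⟨i, s[i], List.prefix_iff_getElem?.1 h i hi, rfl⟩

theorem cset_mem_LL (s : Str) : cset.{u} s ∈ LL := (cset_isCond s).mem_LL

/-- The string coded by a natural number, as a condition. -/
noncomputable def csetN (n : ℕ) : ZFSet.{u} := cset ((decode n : Option Str).getD [])

open Classical in
noncomputable def csetOf (z : ZFSet.{u}) : ZFSet.{u} :=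
  if h : ∃ n, z = nat n then csetN h.choose else ∅

theorem csetOf_nat (n : ℕ) : csetOf (nat.{u} n) = csetN n := by
  unfold csetOf
  have h : ∃ m, nat.{u} n = nat m := ⟨n, rfl⟩
  rw [dif_pos h]
  have h1 := h.choose_spec
  rw [nat_inj] at h1
  rw [← h1]

theorem nj_of_jp3 {P : ℕ → ℕ → ℕ → Prop} (hP : JP JL.{u} fun x : ℕ × ℕ × ℕ => P x.1 x.2.1 x.2.2) :
    NJ.{u} fun w => P (w 0) (w 1) (w 2) := by
  have h1 := mem_JL_iff.1 hP
  have h2 := NJ.comp1 (R := fun n => n ∈ {n | ∃ a : ℕ × ℕ × ℕ, decode n = some a ∧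
    P a.1 a.2.1 a.2.2}) h1 (NF.natPair (NF.var 0) (NF.natPair (NF.var 1) (NF.var 2)))
  refine h2.congr fun w => ?_
  constructor
  · rintro ⟨a, ha, h⟩
    have h3 : (decode (Nat.pair (w 0) (Nat.pair (w 1) (w 2))) : Option (ℕ × ℕ × ℕ)) =
        some (w 0, w 1, w 2) := by
      have := encodek (α := ℕ × ℕ × ℕ) (w 0, w 1, w 2)
      exact this
    rw [h3] at ha
    cases ha
    exact h
  · intro h
    exact ⟨(w 0, w 1, w 2), encodek (α := ℕ × ℕ × ℕ) (w 0, w 1, w 2), h⟩

theorem csetOf_DF : DF (LL : Set ZFSet.{u}) LL fun v => csetOf (v 0) := by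
  have C : Ctx (LL : Set ZFSet.{u}) LL := ctx_LL
  apply DF_LL
  · intro v hv y hy
    unfold csetOf at hy
    split_ifs at hy with h
    · exact LL_trans (cset_mem_LL _) hy
    · exact absurd hy (ZFSet.notMem_empty _)
  · have h1 : NJ.{u} fun w => ((((decode (w 0) : Option Str).getD [])[w 1]?).map Bool.toNat) =
        some (w 2) := by
      refine nj_of_jp3 (P := fun a b c => ((((decode a : Option Str).getD [])[b]?).map
        Bool.toNat) = some c) (JP.prim arithClosed_JL ?_)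
      refine Primrec.eq.comp (Primrec.option_map (Primrec.list_getElem?.comp
        (Primrec.option_getD.comp (Primrec.decode.comp (pF pI)) (Primrec.const []))
        (pF (pS pI))) ((Primrec.dom_bool _).comp Primrec.snd).to₂)
        (Primrec.option_some.comp (pS (pS pI)))
    obtain ⟨Q, hQ, hQ'⟩ := h1
    have h2 : Dfn (LL : Set ZFSet.{u}) LL fun v => Q (cons (v 3) (cons (v 1) (cons (v 0)
        fun _ => ∅))) := by
      have h3 : Dfn (LL : Set ZFSet.{u}) LL fun v => Q (cons (v 0) (cons (v 1) (cons (v 2)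
          fun _ => ∅))) := by
        have g1 := ((hQ.rename fun i => if i = 0 then 1 else if i = 1 then 2 else if i = 2 then 3
          else 0).prm empty_mem_LL empty_mem_LL)
        refine g1.congr fun v _ => ?_
        apply iff_of_eq
        congr 1
        funext n
        rcases n with _ | _ | _ | n <;> rfl
      exact h3.rename fun i => if i = 0 then 3 else if i = 1 then 1 else 0
    have h4 : Dfn (LL : Set ZFSet.{u}) LL fun v => v 1 ∈ om ∧ ∃ i ∈ om, ∃ b ∈ om,
        v 0 = ZFSet.pair i b ∧ Q (cons (v 1) (cons i (cons b fun _ => ∅))) :=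
      (C.mem (C.var 1) C.om).and (C.bex C.om (C.bex C.om
        ((C.eq (C.var 2) (C.pair (C.var 1) (C.var 0))).and h2)))
    refine h4.congr fun v _ => ?_
    have hQ'' : ∀ n i b : ℕ, Q (cons (nat n) (cons (nat i) (cons (nat b) fun _ => ∅))) ↔
        (((decode n : Option Str).getD [])[i]?).map Bool.toNat = some b := by
      intro n i b
      have := hQ' (cons n (cons i (cons b fun _ => 0)))
      rw [nat_cons, nat_cons, nat_cons] at this
      exact this
    change _ ↔ v 0 ∈ csetOf (v 1)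
    constructor
    · rintro ⟨hv1, i, hi, b, hb, h5, h6⟩
      obtain ⟨n, hn⟩ := mem_om.1 hv1
      obtain ⟨i, rfl⟩ := mem_om.1 hi
      obtain ⟨b, rfl⟩ := mem_om.1 hb
      rw [hn] at h6 ⊢
      rw [hQ''] at h6
      rw [h5, csetOf_nat]
      unfold csetN
      rw [Option.map_eq_some_iff] at h6
      obtain ⟨β, h7, rfl⟩ := h6
      exact pair_mem_cset.2 ⟨β, h7, rfl⟩
    · intro h5
      by_cases h : ∃ n, v 1 = nat n
      · obtain ⟨n, hn⟩ := h
        rw [hn, csetOf_nat] at h5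
        obtain ⟨i, b, h6, h7⟩ := mem_cset.1 h5
        refine ⟨hn ▸ nat_mem_om n, nat i, nat_mem_om i, nat b.toNat, nat_mem_om _, h7, ?_⟩
        rw [hn, hQ'', h6]
        rfl
      · unfold csetOf at h5
        rw [dif_neg h] at h5
        exact absurd h5 (ZFSet.notMem_empty _)

/-- From definability over `L` to arithmetic. -/
theorem jp_of_dfn2 {R : ZFSet.{u} → ZFSet.{u} → Prop}
    (hR : Dfn (LL : Set ZFSet.{u}) LL fun v => R (v 0) (v 1)) :
    JP JL.{u} fun x : Str × Str => R (cset x.1) (cset x.2) := by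
  have h1 : NJ.{u} fun w => R (csetN (w 0)) (csetN (w 1)) := by
    refine ⟨_, Dfn.comp2 hR csetOf_DF (csetOf_DF.rename fun _ => 1), fun w => ?_⟩
    rw [csetOf_nat, csetOf_nat]
  have h2 : NJ.{u} fun w => R (csetN (w 0).unpair.1) (csetN (w 0).unpair.2) :=
    NJ.comp2 (R := fun a b => R (csetN a) (csetN b)) h1 (NF.of_primrec Nat.Primrec.left)
      (NF.of_primrec Nat.Primrec.right)
  have h3 : NJ.{u} fun w => w 0 ∈ {n | ∃ a : Str × Str, decode n = some a} :=
    mem_JL_iff.1 (JP.dom arithClosed_JL)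
  unfold JP
  rw [mem_JL_iff]
  refine (h3.and h2).congr fun w => ?_
  have key : ∀ a : Str × Str, (decode (w 0) : Option (Str × Str)) = some a →
      (csetN.{u} (w 0).unpair.1 = cset a.1 ∧ csetN.{u} (w 0).unpair.2 = cset a.2) := by
    rintro ⟨a1, a2⟩ ha
    rw [decode_prod_val] at ha
    cases e1 : (decode (w 0).unpair.1 : Option Str) with
    | none => simp [e1] at ha
    | some b1 =>
      cases e2 : (decode (w 0).unpair.2 : Option Str) with
      | none => simp [e1, e2] at ha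
      | some b2 =>
        simp [e1, e2] at ha
        obtain ⟨rfl, rfl⟩ := ha
        exact ⟨by unfold csetN; rw [e1]; rfl, by unfold csetN; rw [e2]; rfl⟩
  constructor
  · rintro ⟨⟨a, ha⟩, h⟩
    refine ⟨a, ha, ?_⟩
    rw [(key a ha).1, (key a ha).2] at h
    exact h
  · rintro ⟨a, ha, h⟩
    refine ⟨⟨a, ha⟩, ?_⟩
    rw [(key a ha).1, (key a ha).2]
    exact h

theorem jp_of_dfn1 {R : ZFSet.{u} → Prop}
    (hR : Dfn (LL : Set ZFSet.{u}) LL fun v => R (v 0)) :
    JP JL.{u} fun s : Str => R (cset s) :=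
  (jp_of_dfn2 (R := fun a _ => R a) hR).comp arithClosed_JL (f := fun s : Str => (s, s))
    (Primrec.pair pI pI)

/-- From arithmetic to definability over `L`. -/
theorem dfn_of_jp2 {Φ : Str → Str → Prop} (hΦ : JP JL.{u} fun x : Str × Str => Φ x.1 x.2) :
    Dfn (LL : Set ZFSet.{u}) LL fun v => ∃ s t, Φ s t ∧ v 0 = cset s ∧ v 1 = cset t := by
  have C : Ctx (LL : Set ZFSet.{u}) LL := ctx_LL
  have h1 := mem_JL_iff.1 hΦ
  have h2 := NJ.comp1 (R := fun n => n ∈ {n | ∃ a : Str × Str, decode n = some a ∧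
    Φ a.1 a.2}) h1 (NF.natPair (NF.var 0) (NF.var 1))
  obtain ⟨Q, hQ, hQ'⟩ := h2
  have h3 : Dfn (LL : Set ZFSet.{u}) LL fun v => Q (cons (v 0) (cons (v 1) fun _ => ∅)) := by
    have g1 := ((hQ.rename fun i => if i = 0 then 1 else if i = 1 then 2
      else 0).prm empty_mem_LL empty_mem_LL)
    refine g1.congr fun v _ => ?_
    apply iff_of_eq
    congr 1
    funext n
    rcases n with _ | _ | n <;> rfl
  have h4 : Dfn (LL : Set ZFSet.{u}) LL fun v => ∃ n ∈ om, ∃ m ∈ om,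
      (Q (cons n (cons m fun _ => ∅)) ∧ v 0 = csetOf n ∧ v 1 = csetOf m) :=
    C.bex C.om (C.bex C.om ((h3.rename fun i => if i = 0 then 1 else 0).and
      ((C.eq (C.var 2) (csetOf_DF.rename fun _ => 1)).and (C.eq (C.var 3) csetOf_DF))))
  refine h4.congr fun v _ => ?_
  have hQ'' : ∀ n m : ℕ, Q (cons (nat n) (cons (nat m) fun _ => ∅)) ↔
      ∃ a : Str × Str, decode (Nat.pair n m) = some a ∧ Φ a.1 a.2 := by
    intro n m
    have := hQ' (cons n (cons m fun _ => 0))
    rw [nat_cons, nat_cons] at this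
    exact this
  constructor
  · rintro ⟨n, hn, m, hm, h5, h6, h7⟩
    obtain ⟨n, rfl⟩ := mem_om.1 hn
    obtain ⟨m, rfl⟩ := mem_om.1 hm
    rw [hQ''] at h5
    obtain ⟨⟨s, t⟩, h8, h9⟩ := h5
    rw [decode_prod_val, Nat.unpair_pair] at h8
    cases e1 : (decode n : Option Str) with
    | none => simp [e1] at h8
    | some b1 =>
      cases e2 : (decode m : Option Str) with
      | none => simp [e1, e2] at h8
      | some b2 =>
        simp [e1, e2] at h8
        obtain ⟨rfl, rfl⟩ := h8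
        refine ⟨b1, b2, h9, ?_, ?_⟩
        · rw [h6, csetOf_nat]; unfold csetN; rw [e1]; rfl
        · rw [h7, csetOf_nat]; unfold csetN; rw [e2]; rfl
  · rintro ⟨s, t, h5, h6, h7⟩
    refine ⟨nat (encode s), nat_mem_om _, nat (encode t), nat_mem_om _, ?_, ?_, ?_⟩
    · rw [hQ'']
      exact ⟨(s, t), encodek (s, t), h5⟩
    · rw [h6, csetOf_nat]; unfold csetN; rw [encodek]; rfl
    · rw [h7, csetOf_nat]; unfold csetN; rw [encodek]; rfl

theorem dfn_of_jp1 {B : Str → Prop} (hB : JP JL.{u} B) :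
    Dfn (LL : Set ZFSet.{u}) LL fun v => ∃ s, B s ∧ v 0 = cset s := by
  have h1 := dfn_of_jp2 (Φ := fun s _ => B s) (hB.comp arithClosed_JL
    (f := fun x : Str × Str => x.1) (pF pI))
  refine (h1.rename fun _ => 0).congr fun v _ => ?_
  constructor
  · rintro ⟨s, _, h1, h2, _⟩
    exact ⟨s, h1, h2⟩
  · rintro ⟨s, h1, h2⟩
    exact ⟨s, s, h1, h2, h2⟩

/-! ### Genericity -/

/-- Members of the pairs coding a real. -/
theorem code_sub {x : ℕ → ℕ} {z : ZFSet.{u}} (h : z ∈ code x) :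
    ∃ n, z = ZFSet.pair (nat n) (nat (x n)) := mem_code.1 h

theorem cohen_lt {x : ℕ → ℕ} (hx : IsCohen.{u} x) (n : ℕ) : x n < 2 := by
  have C : Ctx (LL : Set ZFSet.{u}) LL := ctx_LL
  obtain ⟨q, hq, hqx, m, hm⟩ := generic_mem hx (P := fun q => ∃ m ∈ om, ZFSet.pair (nat n) m ∈ q)
    (C.bex C.om (C.mem (C.pair (C.nat n) (C.var 0)) (C.var 1)))
    (by
      classical
      rintro p ⟨s, h1, h2, h3⟩
      by_cases hn : ∃ a ∈ s, a.1 = n
      · obtain ⟨a, ha, rfl⟩ := hn
        exact ⟨p, ⟨s, h1, h2, h3⟩, fun _ hz => hz, nat a.2, nat_mem_om _, (h3 _).2 ⟨a, ha, rfl⟩⟩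
      · push Not at hn
        refine ⟨insert (ZFSet.pair (nat n) (nat 0)) p, ⟨insert (n, 0) s, ?_, ?_, ?_⟩,
          fun z hz => ZFSet.mem_insert_of_mem _ hz, nat 0, nat_mem_om _, ZFSet.mem_insert _ _⟩
        · intro a ha
          rcases Finset.mem_insert.1 ha with rfl | ha
          · exact Nat.zero_lt_two
          · exact h1 a ha
        · intro a ha b hb hab
          rcases Finset.mem_insert.1 ha with rfl | ha
          · rcases Finset.mem_insert.1 hb with rfl | hb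
            · rfl
            · exact absurd hab.symm (hn b hb)
          · rcases Finset.mem_insert.1 hb with rfl | hb
            · exact absurd hab (hn a ha)
            · exact h2 a ha b hb hab
        · intro z
          rw [ZFSet.mem_insert_iff, h3]
          constructor
          · rintro (rfl | ⟨a, ha, rfl⟩)
            · exact ⟨(n, 0), Finset.mem_insert_self _ _, rfl⟩
            · exact ⟨a, Finset.mem_insert_of_mem ha, rfl⟩
          · rintro ⟨a, ha, rfl⟩
            rcases Finset.mem_insert.1 ha with rfl | ha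
            · exact Or.inl rfl
            · exact Or.inr ⟨a, ha, rfl⟩)
  obtain ⟨hm, h⟩ := hm
  obtain ⟨m, rfl⟩ := mem_om.1 hm
  have h1 := hqx h
  rw [pair_mem_code] at h1
  obtain ⟨s, g1, _, g3⟩ := hq
  obtain ⟨a, ha, e⟩ := (g3 _).1 h
  rw [ZFSet.pair_inj, nat_inj, nat_inj] at e
  rw [h1, e.2]
  exact g1 a ha

/-- The binary version of a real. -/
def bin (x : ℕ → ℕ) : ℕ → Bool := fun n => decide (x n = 1)

theorem bin_toNat {x : ℕ → ℕ} (hx : ∀ n, x n < 2) (n : ℕ) : (bin x n).toNat = x n := by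
  unfold bin
  have := hx n
  by_cases h : x n = 1
  · simp [h]
  · have h0 : x n = 0 := by omega
    simp [h0]

theorem cset_sub_code {x : ℕ → ℕ} (hx : ∀ n, x n < 2) (s : Str) :
    cset.{u} s ⊆ code x ↔ s = ini (bin x) s.length := by
  constructor
  · intro h
    apply List.ext_getElem?
    intro i
    rw [ini_getElem?]
    by_cases hi : i < s.length
    · rw [if_pos hi, List.getElem?_eq_getElem hi]
      have h1 : ZFSet.pair (nat.{u} i) (nat (s[i]).toNat) ∈ cset s :=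
        pair_mem_cset.2 ⟨s[i], List.getElem?_eq_getElem hi, rfl⟩
      have h2 := pair_mem_code.1 (h h1)
      rw [← bin_toNat hx] at h2
      congr 1
      revert h2
      cases s[i] <;> cases bin x i <;> simp
    · rw [if_neg hi, List.getElem?_eq_none (by omega)]
  · intro h z hz
    obtain ⟨i, b, h1, rfl⟩ := mem_cset.1 hz
    rw [h, ini_getElem?] at h1
    split_ifs at h1 with h2
    have h3 : bin x i = b := Option.some.inj h1
    rw [← h3, bin_toNat hx]
    exact pair_mem_code.2 rfl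

theorem ini_sub_code {x : ℕ → ℕ} (hx : ∀ n, x n < 2) (n : ℕ) :
    cset.{u} (ini (bin x) n) ⊆ code x := by
  rw [cset_sub_code hx, ini_length]

theorem mem_cset_ini {x : ℕ → ℕ} (hx : ∀ n, x n < 2) {n i : ℕ} (h : i < n) :
    ZFSet.pair (nat.{u} i) (nat (x i)) ∈ cset (ini (bin x) n) := by
  refine pair_mem_cset.2 ⟨bin x i, ?_, (bin_toNat hx i).symm⟩
  rw [ini_getElem?, if_pos h]

theorem cond_sub_ini {x : ℕ → ℕ} (hx : ∀ n, x n < 2) {p : ZFSet.{u}} (hp : IsCond p)
    (hpx : p ⊆ code x) : ∃ n, p ⊆ cset (ini (bin x) n) := by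
  obtain ⟨s, h1, h2, h3⟩ := hp
  refine ⟨s.sup (fun a => a.1) + 1, fun z hz => ?_⟩
  obtain ⟨a, ha, rfl⟩ := (h3 z).1 hz
  have h4 := pair_mem_code.1 (hpx hz)
  rw [← h4]
  exact mem_cset_ini hx (Nat.lt_succ_of_le (Finset.le_sup (f := fun a : ℕ × ℕ => a.1) ha))

theorem gen_of_cohen {x : ℕ → ℕ} (hx : IsCohen.{u} x) : Gen JL.{u} (bin x) := by
  intro B hB
  have C : Ctx (LL : Set ZFSet.{u}) LL := ctx_LL
  have hlt := cohen_lt hx
  have hBd := dfn_of_jp1 hB
  have hC := dfn_prm_LL Cd_mem_LL.{u}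
  have h1 : Dfn (LL : Set ZFSet.{u}) LL fun v => (∃ z ∈ LL, (∃ s, B s ∧ z = cset s) ∧ z ⊆ v 0) :=
    Dfn.ex (hBd.and (C.subset (C.var 0) (C.var 1)))
  have h2 : Dfn (LL : Set ZFSet.{u}) LL fun v => ∀ z ∈ LL, (∃ s, B s ∧ z = cset s) →
      ¬ ∃ r ∈ Cd, z ⊆ r ∧ v 0 ⊆ r :=
    Dfn.all (hBd.imp (Dfn.not (C.bex hC ((C.subset (C.var 1) (C.var 0)).and
      (C.subset (C.var 2) (C.var 0))))))
  obtain ⟨q, hq, hqx, hP⟩ := generic_mem hx (P := fun p => (∃ z ∈ LL, (∃ s, B s ∧ z = cset s) ∧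
    z ⊆ p) ∨ ∀ z ∈ LL, (∃ s, B s ∧ z = cset s) → ¬ ∃ r ∈ Cd, z ⊆ r ∧ p ⊆ r) (h1.or h2)
    (by
      intro p hp
      by_cases h : ∃ s r, B s ∧ IsCond r ∧ cset s ⊆ r ∧ p ⊆ r
      · obtain ⟨s, r, g1, g2, g3, g4⟩ := h
        exact ⟨r, g2, g4, Or.inl ⟨cset s, cset_mem_LL s, ⟨s, g1, rfl⟩, g3⟩⟩
      · refine ⟨p, hp, fun _ hz => hz, Or.inr ?_⟩
        rintro z _ ⟨s, g1, rfl⟩ ⟨r, g2, g3, g4⟩
        exact h ⟨s, r, g1, mem_Cd.1 g2, g3, g4⟩)
  rcases hP with ⟨z, _, ⟨s, g1, rfl⟩, g2⟩ | hP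
  · left
    have h3 : cset s ⊆ code x := fun z hz => hqx (g2 hz)
    rw [cset_sub_code hlt] at h3
    exact ⟨s.length, h3 ▸ g1⟩
  · right
    obtain ⟨n, hn⟩ := cond_sub_ini hlt hq hqx
    refine ⟨n, fun s hs hBs => ?_⟩
    exact hP (cset s) (cset_mem_LL s) ⟨s, hBs, rfl⟩ ⟨cset s, mem_Cd.2 (cset_isCond s),
      fun _ hz => hz, fun z hz => cset_mono hs (hn hz)⟩

end Pool.Agent.Helper88.SetTh
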