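import Pool.Agent.Helper88.SetTh.Fml

/-!
# The constructible hierarchy, reflection and separation
-/

set_option autoImplicit false

universe u

namespace Pool.Agent.Helper88.SetTh

open Ordinal

theorem mem_DefPow {U x : ZFSet.{u}} : x ∈ DefPow U ↔ x ⊆ U ∧ ∃ (φ : Fml) (v : ℕ → ZFSet.{u}),
    (∀ i, v i ∈ U ∨ v i = ∅) ∧ ∀ y ∈ U, (y ∈ x ↔ Sat (U : Set ZFSet.{u}) φ (cons y v)) := by
  unfold DefPow
  rw [ZFSet.mem_sep, ZFSet.mem_powerset]

theorem mem_Lev {o : Ordinal.{u}} {x : ZFSet.{u}} : x ∈ Lev o ↔ ∃ a < o, x ∈ DefPow (Lev a) := by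
  rw [Lev]
  simp

theorem self_mem_DefPow (U : ZFSet.{u}) : U ∈ DefPow U := by
  rw [mem_DefPow]
  refine ⟨fun _ h => h, .eq 0 0, fun _ => ∅, fun _ => Or.inr rfl, fun y hy => ?_⟩
  simp [Sat, hy]

theorem empty_mem_DefPow (U : ZFSet.{u}) : ∅ ∈ DefPow U := by
  rw [mem_DefPow]
  refine ⟨ZFSet.empty_subset _, .neg (.eq 0 0), fun _ => ∅, fun _ => Or.inr rfl, fun y hy => ?_⟩
  simp [Sat]

theorem subset_DefPow {U : ZFSet.{u}} (hU : U.IsTransitive) : U ⊆ DefPow U := by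
  intro x hx
  rw [mem_DefPow]
  refine ⟨hU x hx, .mem 0 1, fun _ => x, fun _ => Or.inl hx, fun y _ => ?_⟩
  simp [Sat]

theorem isTransitive_Lev (o : Ordinal.{u}) : (Lev o).IsTransitive := by
  induction o using WellFoundedLT.induction with
  | ind o ih =>
    intro x hx y hy
    rw [mem_Lev] at hx ⊢
    obtain ⟨a, ha, hx⟩ := hx
    exact ⟨a, ha, subset_DefPow (ih a ha) ((mem_DefPow.1 hx).1 hy)⟩

theorem Lev_mono {a b : Ordinal.{u}} (h : a ≤ b) : Lev a ⊆ Lev b := by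
  intro x hx
  rw [mem_Lev] at hx ⊢
  obtain ⟨c, hc, hx⟩ := hx
  exact ⟨c, lt_of_lt_of_le hc h, hx⟩

theorem DefPow_subset_Lev {a b : Ordinal.{u}} (h : a < b) : DefPow (Lev a) ⊆ Lev b :=
  fun _ hx => mem_Lev.2 ⟨a, h, hx⟩

theorem Lev_mem_Lev {a b : Ordinal.{u}} (h : a < b) : Lev a ∈ Lev b :=
  DefPow_subset_Lev h (self_mem_DefPow _)

theorem empty_mem_Lev {a : Ordinal.{u}} (h : 0 < a) : ∅ ∈ Lev a :=
  DefPow_subset_Lev h (empty_mem_DefPow _)

theorem Lev_mem_LL (a : Ordinal.{u}) : Lev a ∈ LL := ⟨a + 1, Lev_mem_Lev (lt_add_one a)⟩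

theorem empty_mem_LL : (∅ : ZFSet.{u}) ∈ LL := ⟨1, empty_mem_Lev zero_lt_one⟩

theorem LL_trans {x y : ZFSet.{u}} (hx : x ∈ LL) (hy : y ∈ x) : y ∈ LL := by
  obtain ⟨o, ho⟩ := hx
  exact ⟨o, isTransitive_Lev o x ho hy⟩

/-- `δ` is a limit closed under `F`. -/
def Closed (F : Ordinal.{u} → Ordinal.{u}) (δ : Ordinal.{u}) : Prop :=
  0 < δ ∧ ∀ β < δ, β + 1 < δ ∧ F β < δ

theorem le_sup_Iic (F : Ordinal.{u} → Ordinal.{u}) {α β : Ordinal.{u}} (h : β ≤ α) :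
    F β ≤ ⨆ γ : Set.Iic α, F γ :=
  Ordinal.le_iSup (fun γ : Set.Iic α => F γ) ⟨β, h⟩

theorem exists_closed (F : Ordinal.{u} → Ordinal.{u}) (α : Ordinal.{u}) :
    ∃ δ, α < δ ∧ Closed F δ := by
  let H : Ordinal.{u} → Ordinal.{u} := fun β => max (β + 1) ((⨆ γ : Set.Iic β, F γ) + 1)
  let a : ℕ → Ordinal.{u} := fun n => Nat.rec α (fun _ x => H x) n
  have ha : ∀ n, a (n + 1) = H (a n) := fun n => rfl
  have hlt : ∀ n, a n < a (n + 1) := fun n => by
    rw [ha]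
    exact lt_of_lt_of_le (lt_add_one _) (le_max_left _ _)
  have hF : ∀ n, ∀ β ≤ a n, F β < a (n + 1) := by
    intro n β hβ
    rw [ha]
    refine lt_of_lt_of_le ?_ (le_max_right _ _)
    refine lt_of_le_of_lt ?_ (lt_add_one _)
    exact le_sup_Iic F hβ
  have hle : ∀ n, a n ≤ ⨆ n, a n := fun n => Ordinal.le_iSup a n
  have hlt' : ∀ n, a n < ⨆ n, a n := fun n => lt_of_lt_of_le (hlt n) (hle (n + 1))
  refine ⟨⨆ n, a n, hlt' 0, lt_of_le_of_lt zero_le (hlt' 0), ?_⟩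
  intro β hβ
  obtain ⟨n, hn⟩ := (Ordinal.lt_iSup_iff).1 hβ
  refine ⟨?_, ?_⟩
  · refine lt_of_le_of_lt ?_ (hlt' (n + 1))
    exact (Order.add_one_le_of_lt hn).trans (hlt n).le
  · exact lt_of_lt_of_le (hF n β hn.le) (hle (n + 1))

theorem exists_common_Lev {δ : Ordinal.{u}} (h0 : 0 < δ) (hδ : ∀ β < δ, β + 1 < δ)
    {w : ℕ → ZFSet.{u}} (hw : ∀ i, w i ∈ Lev δ) (n : ℕ) : ∃ β < δ, ∀ i < n, w i ∈ Lev β := by
  induction n with
  | zero => exact ⟨0, h0, fun i hi => absurd hi (Nat.not_lt_zero _)⟩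
  | succ n ih =>
    obtain ⟨β, hβ, h⟩ := ih
    obtain ⟨a, ha, h'⟩ := mem_Lev.1 (hw n)
    refine ⟨max β (a + 1), max_lt hβ (hδ a ha), fun i hi => ?_⟩
    rcases Nat.lt_succ_iff_lt_or_eq.1 hi with h1 | rfl
    · exact Lev_mono (le_max_left _ _) (h i h1)
    · exact Lev_mono (le_max_right _ _) (DefPow_subset_Lev (lt_add_one a) h')

/-- **Reflection.** -/
theorem reflect (φ : Fml) : ∃ F : Ordinal.{u} → Ordinal.{u}, ∀ δ, Closed F δ →
    ∀ w : ℕ → ZFSet.{u}, (∀ i, w i ∈ Lev δ) → (Sat LL φ w ↔ Sat (Lev δ : Set ZFSet.{u}) φ w) := by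
  induction φ with
  | mem i j => exact ⟨fun _ => 0, fun δ _ w _ => Iff.rfl⟩
  | eq i j => exact ⟨fun _ => 0, fun δ _ w _ => Iff.rfl⟩
  | neg φ ih =>
    obtain ⟨F, hF⟩ := ih
    exact ⟨F, fun δ hδ w hw => not_congr (hF δ hδ w hw)⟩
  | and φ ψ ih1 ih2 =>
    obtain ⟨F, hF⟩ := ih1
    obtain ⟨G, hG⟩ := ih2
    refine ⟨fun β => max (F β) (G β), fun δ hδ w hw => and_congr (hF δ ⟨hδ.1, fun β hβ => ?_⟩ w hw)
      (hG δ ⟨hδ.1, fun β hβ => ?_⟩ w hw)⟩
    · exact ⟨(hδ.2 β hβ).1, lt_of_le_of_lt (le_max_left _ _) (hδ.2 β hβ).2⟩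
    · exact ⟨(hδ.2 β hβ).1, lt_of_le_of_lt (le_max_right _ _) (hδ.2 β hβ).2⟩
  | all φ ih =>
    obtain ⟨F, hF⟩ := ih
    classical
    have key : ∀ w : ℕ → ZFSet.{u}, ∃ γ : Ordinal.{u}, (∃ x ∈ LL, ¬ Sat LL φ (cons x w)) →
        ∃ x ∈ Lev γ, ¬ Sat LL φ (cons x w) := by
      intro w
      by_cases h : ∃ x ∈ LL, ¬ Sat LL φ (cons x w)
      · obtain ⟨x, ⟨γ, hγ⟩, hx⟩ := h
        exact ⟨γ, fun _ => ⟨x, hγ, hx⟩⟩
      · exact ⟨0, fun h' => absurd h' h⟩
    choose lv hlv using key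
    refine ⟨fun β => max (F β) (⨆ w : ℕ → (Lev β), lv fun i => w i), fun δ hδ w hw => ?_⟩
    have hF' := hF δ ⟨hδ.1, fun β hβ =>
      ⟨(hδ.2 β hβ).1, lt_of_le_of_lt (le_max_left _ _) (hδ.2 β hβ).2⟩⟩
    constructor
    · intro h x hx
      exact (hF' _ (cons_mem (N := (Lev δ : Set ZFSet.{u})) hx hw)).1 (h x ⟨δ, hx⟩)
    · intro h x hx
      by_contra hc
      obtain ⟨β, hβ, hwβ⟩ := exists_common_Lev hδ.1 (fun β hβ => (hδ.2 β hβ).1) hw φ.bd
      -- truncated environment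
      let β' := β + 1
      have hβ' : β' < δ := (hδ.2 β hβ).1
      let w' : ℕ → ZFSet.{u} := fun i => if i < φ.bd then w i else ∅
      have hw' : ∀ i, w' i ∈ Lev β' := by
        intro i
        by_cases hi : i < φ.bd
        · simp only [w', if_pos hi]
          exact Lev_mono (le_add_right le_rfl) (hwβ i hi)
        · simp only [w', if_neg hi]
          exact empty_mem_Lev (lt_of_le_of_lt zero_le (lt_add_one β))
      have hagree : ∀ y, ∀ i < φ.bd, cons y w i = cons y w' i := by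
        intro y i hi
        cases i with
        | zero => rfl
        | succ i =>
          have : i < φ.bd := by omega
          simp only [cons_succ, w', if_pos this]
      have h1 : ¬ Sat LL φ (cons x w') := by
        rwa [← sat_congr LL φ _ _ (hagree x)]
      obtain ⟨y, hy, hy'⟩ := hlv w' ⟨x, hx, h1⟩
      have h2 : lv w' < δ := by
        refine lt_of_le_of_lt ?_ (lt_of_le_of_lt (le_max_right _ _) (hδ.2 β' hβ').2)
        exact Ordinal.le_iSup (fun w : ℕ → (Lev β') => lv fun i => w i) fun i => ⟨w' i, hw' i⟩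
      have hyδ : y ∈ Lev δ := Lev_mono h2.le hy
      rw [← sat_congr LL φ _ _ (hagree y), hF' _ (cons_mem (N := (Lev δ : Set ZFSet.{u})) hyδ hw)]
        at hy'
      exact hy' (h y hyδ)

theorem exists_bound {x : ZFSet.{u}} (hx : ∀ y ∈ x, y ∈ LL) : ∃ α, x ⊆ Lev α := by
  choose f hf using hx
  refine ⟨⨆ y : x, f y.1 y.2, fun y hy => ?_⟩
  exact Lev_mono (Ordinal.le_iSup (fun y : x => f y.1 y.2) ⟨y, hy⟩) (hf y hy)

theorem exists_bound_seq {p : ℕ → ZFSet.{u}} (hp : ∀ i, p i ∈ LL) : ∃ α, ∀ i, p i ∈ Lev α := by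
  choose f hf using hp
  exact ⟨⨆ i, f i, fun i => Lev_mono (Ordinal.le_iSup f i) (hf i)⟩

/-- **Separation for definable subsets of `L`.** -/
theorem mem_LL_of_dfn {x : ZFSet.{u}} (hx : ∀ y ∈ x, y ∈ LL)
    (h : Dfn LL LL fun v => v 0 ∈ x) : x ∈ LL := by
  obtain ⟨φ, p, hp, hφ⟩ := h
  obtain ⟨α, hα⟩ := exists_bound hx
  obtain ⟨β, hβ⟩ := exists_bound_seq hp
  obtain ⟨F, hF⟩ := reflect φ
  obtain ⟨δ, hδ, hc⟩ := exists_closed F (max α β)
  have hα' : α ≤ δ := (le_max_left _ _).trans hδ.le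
  have hβ' : β ≤ δ := (le_max_right _ _).trans hδ.le
  have hd : x ∈ DefPow (Lev δ) := by
    rw [mem_DefPow]
    refine ⟨fun y hy => Lev_mono hα' (hα hy), φ,
      fun i => mix (cons ∅ fun _ => ∅) p (i + 1), ?_, ?_⟩
    · intro i
      by_cases hi : (i + 1) % 2 = 0
      · right
        have : mix (cons ∅ fun _ => ∅) p (i + 1) = (cons ∅ fun _ => ∅ : ℕ → ZFSet.{u}) ((i + 1) / 2) :=
          if_pos hi
        refine this.trans ?_
        cases (i + 1) / 2 <;> rfl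
      · left
        have : mix (cons ∅ fun _ => ∅) p (i + 1) = p ((i + 1) / 2) := if_neg hi
        change mix (cons ∅ fun _ => ∅) p (i + 1) ∈ Lev δ
        rw [this]
        exact Lev_mono hβ' (hβ _)
    · intro y hy
      have e : cons y (fun i => mix (cons ∅ fun _ => ∅) p (i + 1)) = mix (cons y fun _ => ∅) p := by
        funext i
        cases i with
        | zero => rfl
        | succ i =>
          simp only [cons_succ]
          unfold mix
          split_ifs with hi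
          · have : (i + 1) / 2 ≠ 0 := by omega
            obtain ⟨m, hm⟩ := Nat.exists_eq_succ_of_ne_zero this
            rw [hm]
            rfl
          · rfl
      rw [e]
      have hv : ∀ i, (cons y fun _ => ∅ : ℕ → ZFSet.{u}) i ∈ LL :=
        cons_mem ⟨δ, hy⟩ fun _ => empty_mem_LL
      have h1 := hφ _ hv
      have h1 : y ∈ x ↔ _ := h1
      rw [h1]
      apply hF δ hc
      intro i
      unfold mix
      split_ifs
      · cases i / 2 with
        | zero => exact hy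
        | succ n => exact empty_mem_Lev hc.1
      · exact Lev_mono hβ' (hβ _)
  exact ⟨δ + 1, DefPow_subset_Lev (lt_add_one δ) hd⟩

end Pool.Agent.Helper88.SetTh
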