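import Mathlib

/-!
# Finite approximations of names of branches
-/

set_option autoImplicit false

namespace Pool.Agent.Helper88.SetTh

abbrev Str := List Bool
abbrev Lab := List (Str × Str)

def len : Lab → ℕ
  | [] => 0
  | m :: _ => m.1.length

def value : Lab → Str → Str
  | [], _ => []
  | m :: σ, q => if m.1 <+: q then m.2 else value σ q

def Valid (b : Str) (Y : Str → Str → Prop) : Lab → Prop
  | [] => True
  | m :: σ => (len σ < m.1.length ∧ b <+: m.1 ∧ Y m.1 m.2 ∧ value σ m.1 <+: m.2) ∧ Valid b Y σ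

structure TreeName (b : Str) (Y : Str → Str → Prop) : Prop where
  mono : ∀ {q v q' v' : Str}, Y q v → q <+: q' → v' <+: v → Y q' v'
  nil : Y b []
  split : ∀ {q v : Str}, b <+: q → Y q v → ∃ q' v0 v1, q <+: q' ∧ v <+: v0 ∧ v <+: v1 ∧
    ¬ v0 <+: v1 ∧ ¬ v1 <+: v0 ∧ Y q' v0 ∧ Y q' v1

section

variable {b : Str} {Y : Str → Str → Prop}

theorem pre_trans {u v w : Str} (h1 : u <+: v) (h2 : v <+: w) : u <+: w := h1.trans h2

theorem pre_total {u v w : Str} (h1 : u <+: w) (h2 : v <+: w) : u <+: v ∨ v <+: u := by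
  rcases le_total u.length v.length with h | h
  · exact Or.inl (List.prefix_of_prefix_length_le h1 h2 h)
  · exact Or.inr (List.prefix_of_prefix_length_le h2 h1 h)

theorem Valid.suffix {σ τ : Lab} (hτ : Valid b Y τ) (h : σ <:+ τ) : Valid b Y σ := by
  induction τ with
  | nil => rw [List.suffix_nil] at h; subst h; trivial
  | cons m τ ih =>
    rcases List.suffix_cons_iff.1 h with rfl | h
    · exact hτ
    · exact ih hτ.2 h

theorem len_mono {σ τ : Lab} (hτ : Valid b Y τ) (h : σ <:+ τ) : len σ ≤ len τ := by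
  induction τ with
  | nil => rw [List.suffix_nil] at h; subst h; exact le_rfl
  | cons m τ ih =>
    rcases List.suffix_cons_iff.1 h with rfl | h
    · exact le_rfl
    · exact (ih hτ.2 h).trans hτ.1.1.le

theorem value_stable {σ : Lab} (hσ : Valid b Y σ) {q q' : Str} (hq : len σ ≤ q.length)
    (h : q <+: q') : value σ q' = value σ q := by
  induction σ with
  | nil => rfl
  | cons m σ ih =>
    have h1 : m.1 <+: q' ↔ m.1 <+: q :=
      ⟨fun h2 => List.prefix_of_prefix_length_le h2 h hq, fun h2 => h2.trans h⟩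
    have h2 := ih hσ.2 (hσ.1.1.le.trans hq)
    unfold value
    by_cases h3 : m.1 <+: q
    · rw [if_pos (h1.2 h3), if_pos h3]
    · rw [if_neg (fun h4 => h3 (h1.1 h4)), if_neg h3, h2]

theorem value_mono_lab {σ τ : Lab} (hτ : Valid b Y τ) (h : σ <:+ τ) (q : Str) :
    value σ q <+: value τ q := by
  induction τ with
  | nil => rw [List.suffix_nil] at h; subst h; exact List.prefix_rfl
  | cons m τ ih =>
    rcases List.suffix_cons_iff.1 h with rfl | h
    · exact List.prefix_rfl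
    · have h1 := ih hτ.2 h
      by_cases h3 : m.1 <+: q
      · have h2 : value (m :: τ) q = m.2 := if_pos h3
        rw [h2]
        have h4 : value τ q = value τ m.1 := value_stable hτ.2 hτ.1.1.le h3
        rw [h4] at h1
        exact h1.trans hτ.1.2.2.2
      · have h2 : value (m :: τ) q = value τ q := if_neg h3
        rw [h2]
        exact h1

theorem value_mono {σ : Lab} (hσ : Valid b Y σ) {q q' : Str} (h : q <+: q') :
    value σ q <+: value σ q' := by
  induction σ generalizing q' with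
  | nil => exact List.prefix_rfl
  | cons m σ ih =>
    by_cases h1 : m.1 <+: q
    · have e1 : value (m :: σ) q = m.2 := if_pos h1
      have e2 : value (m :: σ) q' = m.2 := if_pos (h1.trans h)
      rw [e1, e2]
    · have e1 : value (m :: σ) q = value σ q := if_neg h1
      rw [e1]
      by_cases h2 : m.1 <+: q'
      · have e2 : value (m :: σ) q' = m.2 := if_pos h2
        rw [e2]
        rcases pre_total h h2 with h3 | h3
        · exact (ih hσ.2 h3).trans hσ.1.2.2.2
        · exact absurd h3 h1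
      · have e2 : value (m :: σ) q' = value σ q' := if_neg h2
        rw [e2]
        exact ih hσ.2 h

theorem Y_value (T : TreeName b Y) {σ : Lab} (hσ : Valid b Y σ) {q : Str} (hq : b <+: q) :
    Y q (value σ q) := by
  induction σ with
  | nil => exact T.mono T.nil hq List.prefix_rfl
  | cons m σ ih =>
    by_cases h1 : m.1 <+: q
    · have e1 : value (m :: σ) q = m.2 := if_pos h1
      rw [e1]
      exact T.mono hσ.1.2.2.1 h1 List.prefix_rfl
    · have e1 : value (m :: σ) q = value σ q := if_neg h1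
      rw [e1]
      exact ih hσ.2

/-- Potential values. -/
def Pot (Y : Str → Str → Prop) (σ : Lab) (q w : Str) : Prop :=
  ∃ q' v, q <+: q' ∧ len σ < q'.length ∧ w <+: v ∧ value σ q' <+: v ∧ Y q' v

theorem Pot.anti {σ τ : Lab} {q w : Str} (hτ : Valid b Y τ) (h : σ <:+ τ) (hP : Pot Y τ q w) :
    Pot Y σ q w := by
  obtain ⟨q', v, h1, h2, h3, h4, h5⟩ := hP
  exact ⟨q', v, h1, lt_of_le_of_lt (len_mono hτ h) h2, h3, (value_mono_lab hτ h q').trans h4, h5⟩

theorem Pot.down {σ : Lab} {q w w' : Str} (hP : Pot Y σ q w) (h : w' <+: w) : Pot Y σ q w' := by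
  obtain ⟨q', v, h1, h2, h3, h4, h5⟩ := hP
  exact ⟨q', v, h1, h2, h.trans h3, h4, h5⟩

theorem Pot.realize {σ : Lab} {q w : Str} (hσ : Valid b Y σ) (hq : b <+: q) (hP : Pot Y σ q w) :
    ∃ τ, σ <:+ τ ∧ Valid b Y τ ∧ ∃ q', q <+: q' ∧ w <+: value τ q' := by
  obtain ⟨q', v, h1, h2, h3, h4, h5⟩ := hP
  refine ⟨(q', v) :: σ, List.suffix_cons _ _, ⟨⟨h2, hq.trans h1, h5, h4⟩, hσ⟩, q', h1, ?_⟩
  have e : value ((q', v) :: σ) q' = v := if_pos List.prefix_rfl
  rw [e]
  exact h3

theorem long_ext (T : TreeName b Y) (n : ℕ) {q v : Str} (hq : b <+: q) (hY : Y q v) :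
    ∃ q' v', q <+: q' ∧ n ≤ q'.length ∧ v <+: v' ∧ n ≤ v'.length ∧ Y q' v' := by
  induction n with
  | zero => exact ⟨q, v, List.prefix_rfl, Nat.zero_le _, List.prefix_rfl, Nat.zero_le _, hY⟩
  | succ n ih =>
    obtain ⟨q', v', h1, h2, h3, h4, h5⟩ := ih
    obtain ⟨q'', v0, v1, g1, g2, g3, g4, g5, g6, g7⟩ := T.split (hq.trans h1) h5
    refine ⟨q'' ++ [true], v0, (h1.trans g1).trans (List.prefix_append _ _), ?_, h3.trans g2, ?_,
      T.mono g6 (List.prefix_append _ _) List.prefix_rfl⟩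
    · rw [List.length_append, List.length_singleton]
      have := g1.length_le
      omega
    · have h6 := g2.length_le
      rcases h6.lt_or_eq with h7 | h7
      · omega
      · exfalso
        have : v' = v0 := g2.eq_of_length h7
        subst this
        exact g4 g3

theorem total_dense (T : TreeName b Y) {σ : Lab} (hσ : Valid b Y σ) {q : Str} (hq : b <+: q)
    (n : ℕ) : ∃ τ, σ <:+ τ ∧ Valid b Y τ ∧ ∃ q', q <+: q' ∧ n ≤ (value τ q').length := by
  obtain ⟨q', v', h1, h2, h3, h4, h5⟩ := long_ext T (max n (len σ + 1))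
    (hq.trans (List.prefix_append q (List.replicate (len σ) true)))
    (Y_value T hσ (hq.trans (List.prefix_append q (List.replicate (len σ) true))))
  have h6 : q <+: q' := (List.prefix_append _ _).trans h1
  have h7 : value σ q' = value σ (q ++ List.replicate (len σ) true) := by
    apply value_stable hσ _ h1
    simp
  refine ⟨(q', v') :: σ, List.suffix_cons _ _, ⟨⟨?_, hq.trans h6, h5, ?_⟩, hσ⟩, q', h6, ?_⟩
  · exact lt_of_lt_of_le (Nat.lt_succ_self _) ((le_max_right _ _).trans h2)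
  · have h7' : value σ (q', v').1 = value σ (q ++ List.replicate (len σ) true) := h7
    rw [h7']
    exact h3
  · have e : value ((q', v') :: σ) q' = v' := if_pos List.prefix_rfl
    rw [e]
    exact (le_max_left _ _).trans h4

/-- Persistent cones. -/
def Pers (b : Str) (Y : Str → Str → Prop) (σ : Lab) (q w : Str) : Prop :=
  ∀ τ, σ <:+ τ → Valid b Y τ → ∀ w', w <+: w' → Pot Y τ q w'

theorem Pers.mono {σ τ : Lab} {q w w' : Str} (h : Pers b Y σ q w) (h1 : σ <:+ τ)
    (h2 : w <+: w') : Pers b Y τ q w' :=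
  fun ρ hρ hV w'' hw'' => h ρ (h1.trans hρ) hV w'' (h2.trans hw'')

def Bad (b : Str) (Y : Str → Str → Prop) (q : Str) : Prop :=
  ∃ σ, Valid b Y σ ∧ ∀ τ, σ <:+ τ → Valid b Y τ → ∀ w, ¬ Pers b Y τ q w

theorem not_bad {q : Str} (h : ¬ Bad b Y q) {σ : Lab} (hσ : Valid b Y σ) :
    ∃ τ, σ <:+ τ ∧ Valid b Y τ ∧ ∃ w, Pers b Y τ q w := by
  unfold Bad at h
  push Not at h
  obtain ⟨τ, h1, h2, w, h3⟩ := h σ hσ
  exact ⟨τ, h1, h2, w, h3⟩

theorem cut (q0 v0 v1 : Str) (σ : Lab) (hY : Y q0 v0) (hv : value σ q0 <+: v0) :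
    ∀ τ : Lab, Valid b Y (τ ++ (q0, v1) :: σ) → ∃ τ' : Lab,
      Valid b Y (τ' ++ (q0, v0) :: σ) ∧
      (∀ r, ¬ q0 <+: r → value (τ' ++ (q0, v0) :: σ) r = value (τ ++ (q0, v1) :: σ) r) ∧
      len (τ' ++ (q0, v0) :: σ) ≤ len (τ ++ (q0, v1) :: σ) ∧
      q0.length ≤ len (τ' ++ (q0, v0) :: σ) := by
  intro τ
  induction τ with
  | nil =>
    intro h
    refine ⟨[], ⟨⟨h.1.1, h.1.2.1, hY, hv⟩, h.2⟩, ?_, le_rfl, le_rfl⟩
    intro r hr
    have e1 : value ((q0, v0) :: σ) r = value σ r := if_neg hr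
    have e2 : value ((q0, v1) :: σ) r = value σ r := if_neg hr
    exact e1.trans e2.symm
  | cons m τ ih =>
    intro h
    obtain ⟨τ', h1, h2, h3, h4⟩ := ih h.2
    by_cases hm : q0 <+: m.1
    · refine ⟨τ', h1, ?_, ?_, h4⟩
      · intro r hr
        rw [h2 r hr]
        have : value (m :: (τ ++ (q0, v1) :: σ)) r = value (τ ++ (q0, v1) :: σ) r :=
          if_neg fun h5 => hr (hm.trans h5)
        exact this.symm
      · exact h3.trans h.1.1.le
    · refine ⟨m :: τ', ⟨⟨lt_of_le_of_lt h3 h.1.1, h.1.2.1, h.1.2.2.1, ?_⟩, h1⟩, ?_, le_rfl, ?_⟩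
      · have := h2 m.1 hm
        change value (τ' ++ (q0, v0) :: σ) m.1 <+: m.2
        rw [this]
        exact h.1.2.2.2
      · intro r hr
        by_cases h5 : m.1 <+: r
        · have e1 : value (m :: (τ' ++ (q0, v0) :: σ)) r = m.2 := if_pos h5
          have e2 : value (m :: (τ ++ (q0, v1) :: σ)) r = m.2 := if_pos h5
          exact e1.trans e2.symm
        · have e1 : value (m :: (τ' ++ (q0, v0) :: σ)) r = value (τ' ++ (q0, v0) :: σ) r :=
            if_neg h5
          have e2 : value (m :: (τ ++ (q0, v1) :: σ)) r = value (τ ++ (q0, v1) :: σ) r :=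
            if_neg h5
          exact (e1.trans (h2 r hr)).trans e2.symm
      · exact h4.trans (h3.trans h.1.1.le)

/-- Finitely many conditions: a finite Baire argument. -/
theorem finite_baire {σ : Lab} {w : Str} (hσ : Valid b Y σ) (F : Finset Str)
    (h : ∀ s ∈ F, ∀ τ, σ <:+ τ → Valid b Y τ → ∀ w', w <+: w' → ¬ Pers b Y τ s w') :
    ∃ τ, σ <:+ τ ∧ Valid b Y τ ∧ ∃ w', w <+: w' ∧ ∀ s ∈ F, ¬ Pot Y τ s w' := by
  classical
  induction F using Finset.induction_on with
  | empty => exact ⟨σ, List.suffix_rfl, hσ, w, List.prefix_rfl, by simp⟩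
  | insert s F _ ih =>
    obtain ⟨τ, h1, h2, w', h3, h4⟩ := ih fun s hs => h s (Finset.mem_insert_of_mem hs)
    have h5 := h s (Finset.mem_insert_self _ _) τ h1 h2 w' h3
    unfold Pers at h5
    push Not at h5
    obtain ⟨ρ, g1, g2, w'', g3, g4⟩ := h5
    refine ⟨ρ, h1.trans g1, g2, w'', h3.trans g3, ?_⟩
    intro t ht
    rcases Finset.mem_insert.1 ht with rfl | ht
    · exact g4
    · intro hp
      exact h4 t ht ((hp.anti g2 g1).down g3)

/-- **The amalgamation lemma.** -/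
theorem amalg (T : TreeName b Y) {r : Str} (hbr : b <+: r) (hr : ∀ q, r <+: q → ¬ Bad b Y q)
    {σ : Lab} (hσ : Valid b Y σ) {p : Str} (hp : r <+: p) :
    ∃ τ, σ <:+ τ ∧ Valid b Y τ ∧ ∃ q0 q1 w, p <+: q0 ∧ p <+: q1 ∧ ¬ q0 <+: q1 ∧ ¬ q1 <+: q0 ∧
      Pers b Y τ q0 w ∧ Pers b Y τ q1 w := by
  classical
  obtain ⟨σ1, hσ1, hV1, w0, hw0⟩ := not_bad (hr p hp) hσ
  obtain ⟨σ2, hσ2, hV2, q, hpq, hq⟩ :=
    (hw0 σ1 List.suffix_rfl hV1 w0 List.prefix_rfl).realize hV1 (hbr.trans hp)
  have hbq : b <+: q := (hbr.trans hp).trans hpq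
  set qa : Str := q ++ List.replicate (len σ2 + 1) true with hqa
  have hqqa : q <+: qa := List.prefix_append _ _
  have hlqa : len σ2 < qa.length := by rw [hqa]; simp; omega
  obtain ⟨q2, v0, v1, g1, g2, g3, g4, g5, g6, g7⟩ :=
    T.split (hbq.trans hqqa) (Y_value T hV2 (hbq.trans hqqa))
  have hval : value σ2 q2 = value σ2 qa := value_stable hV2 hlqa.le g1
  have hlq2 : len σ2 < q2.length := lt_of_lt_of_le hlqa g1.length_le
  have hbq2 : b <+: q2 := (hbq.trans hqqa).trans g1
  have hpq2 : p <+: q2 := (hpq.trans hqqa).trans g1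
  have hwv1 : w0 <+: v1 := (hq.trans (value_mono hV2 hqqa)).trans g3
  have hV3 : Valid b Y ((q2, v1) :: σ2) :=
    ⟨⟨hlq2, hbq2, g7, by change value σ2 q2 <+: v1; rw [hval]; exact g3⟩, hV2⟩
  obtain ⟨σ4, hσ4, hV4, w1, hw1⟩ := not_bad (hr q2 (hp.trans hpq2)) hV3
  obtain ⟨q', v, k1, k2, k3, k4, k5⟩ := hw1 σ4 List.suffix_rfl hV4 w1 List.prefix_rfl
  have hv1v : v1 <+: v := by
    have h1 := value_mono_lab hV4 hσ4 q'
    have h2 : value ((q2, v1) :: σ2) q' = v1 := if_pos k1
    rw [h2] at h1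
    exact h1.trans k4
  have hPv : Pers b Y σ4 q2 v := hw1.mono List.suffix_rfl k3
  -- the siblings of `q2`
  have hfin : {s : Str | s.length = q2.length}.Finite := List.finite_length_eq Bool _
  set F : Finset Str := hfin.toFinset.filter fun s => s ≠ q2 ∧ p <+: s with hF
  have hFm : ∀ s, s ∈ F ↔ s.length = q2.length ∧ s ≠ q2 ∧ p <+: s := by
    intro s
    rw [hF, Finset.mem_filter, Set.Finite.mem_toFinset]
    rfl
  by_contra hcon
  have hno : ∀ s ∈ F, ∀ τ, σ4 <:+ τ → Valid b Y τ → ∀ w', v <+: w' → ¬ Pers b Y τ s w' := by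
    intro s hs τ hτ hVτ w' hw' hP
    apply hcon
    rw [hFm] at hs
    refine ⟨τ, ((hσ1.trans hσ2).trans (List.suffix_cons _ _)).trans (hσ4.trans hτ), hVτ, q2, s, w',
      hpq2, hs.2.2, ?_, ?_, hPv.mono hτ hw', hP⟩
    · intro h
      exact hs.2.1 (h.eq_of_length hs.1.symm).symm
    · intro h
      exact hs.2.1 (h.eq_of_length hs.1)
  obtain ⟨σ5, hσ5, hV5, w3, hw3, hn⟩ := finite_baire hV4 F hno
  obtain ⟨τ, hτ⟩ := hσ4.trans hσ5
  rw [← hτ] at hV5 hn
  obtain ⟨τ', c1, c2, c3, c4⟩ := cut q2 v0 v1 σ2 g6 (by rw [hval]; exact g2) τ hV5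
  have hsuf : σ1 <:+ τ' ++ (q2, v0) :: σ2 :=
    hσ2.trans ((List.suffix_cons _ _).trans (List.suffix_append _ _))
  obtain ⟨q3, u, e1, e2, e3, e4, e5⟩ := hw0 _ hsuf c1 w3 (hwv1.trans (hv1v.trans hw3))
  have hnq : ¬ q2 <+: q3 := by
    intro h
    have h1 : value ((q2, v0) :: σ2) q3 <+: value (τ' ++ (q2, v0) :: σ2) q3 :=
      value_mono_lab c1 (List.suffix_append _ _) q3
    have h2 : value ((q2, v0) :: σ2) q3 = v0 := if_pos h
    rw [h2] at h1
    rcases pre_total (h1.trans e4) ((hv1v.trans hw3).trans e3) with h3 | h3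
    · exact g4 h3
    · exact g5 h3
  have hlen : q2.length ≤ q3.length := c4.trans e2.le
  have hpl : p.length ≤ q2.length := hpq2.length_le
  set s : Str := q3.take q2.length with hs
  have hsl : s.length = q2.length := by
    rw [hs, List.length_take]
    omega
  have hsq : s <+: q3 := List.take_prefix _ _
  have hsF : s ∈ F := by
    rw [hFm]
    refine ⟨hsl, ?_, ?_⟩
    · intro h
      rw [h] at hsq
      exact hnq hsq
    · exact List.prefix_of_prefix_length_le e1 hsq (by omega)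
  refine hn s hsF ⟨q3 ++ List.replicate (len (τ ++ (q2, v1) :: σ2) + 1) true, u,
    hsq.trans (List.prefix_append _ _), ?_, e3, ?_, T.mono e5 (List.prefix_append _ _)
    List.prefix_rfl⟩
  · simp; omega
  · have hnq' : ¬ q2 <+: q3 ++ List.replicate (len (τ ++ (q2, v1) :: σ2) + 1) true := by
      intro h
      exact hnq (List.prefix_of_prefix_length_le h (List.prefix_append _ _) hlen)
    rw [← c2 _ hnq', value_stable c1 e2.le (List.prefix_append _ _)]
    exact e4

end

end Pool.Agent.Helper88.SetTh
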