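import Pool.Agent.Helper88.SetTh.JCalc
import Pool.Agent.Helper88.SetTh.Labels

/-!
# The combinatorial core
-/

set_option autoImplicit false

namespace Pool.Agent.Helper88.SetTh

open Encodable

/-! ### Primitive recursiveness -/

section prim

variable {α β γ : Type*} [Primcodable α] [Primcodable β] [Primcodable γ]

theorem pI : Primrec fun a : α => a := Primrec.id
theorem pF {f : α → β × γ} (hf : Primrec f) : Primrec fun a => (f a).1 := Primrec.fst.comp hf
theorem pS {f : α → β × γ} (hf : Primrec f) : Primrec fun a => (f a).2 := Primrec.snd.comp hf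

theorem len_eq (σ : Lab) : len σ = (σ.headI).1.length := by
  cases σ <;> rfl

theorem prim_len {f : α → Lab} (hf : Primrec f) : Primrec fun a => len (f a) := by
  have : Primrec fun a => ((f a).headI).1.length :=
    Primrec.list_length.comp (pF (Primrec.list_headI.comp hf))
  exact this.of_eq fun a => (len_eq _).symm

theorem prim_pre {f g : α → Str} (hf : Primrec f) (hg : Primrec g) :
    PrimrecPred fun a => f a <+: g a := by
  have : PrimrecPred fun a => f a = (g a).take (f a).length :=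
    Primrec.eq.comp hf (Primrec.list_take.comp (Primrec.list_length.comp hf) hg)
  exact this.of_eq fun a => List.prefix_iff_eq_take.symm

theorem value_eq (σ : Lab) (q : Str) :
    value σ q = σ.foldr (fun m acc => if m.1 <+: q then m.2 else acc) [] := by
  induction σ with
  | nil => rfl
  | cons m σ ih =>
    unfold value
    rw [List.foldr_cons, ih]

theorem prim_value {f : α → Lab} {g : α → Str} (hf : Primrec f) (hg : Primrec g) :
    Primrec fun a => value (f a) (g a) := by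
  classical
  have h1 : Primrec fun a => (f a).foldr (fun m acc => if m.1 <+: g a then m.2 else acc) [] := by
    refine Primrec.list_foldr (h := fun a x => if x.1.1 <+: g a then x.1.2 else x.2) hf
      (Primrec.const _) ?_
    refine Primrec.ite (prim_pre (pF (pF (pS pI))) (hg.comp (pF pI))) (pS (pF (pS pI)))
      (pS (pS pI))
  exact h1.of_eq fun a => (value_eq _ _).symm

end prim

section

variable {J : Set (Set ℕ)} (hJ : ArithClosed J) {α : Type} [Primcodable α]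
variable {b : Str} {Y : Str → Str → Prop} (hY : JP J fun x : Str × Str => Y x.1 x.2)

include hJ

theorem jp_suffix {f g : α → Lab} (hf : Primrec f) (hg : Primrec g) :
    JP J fun a => f a <:+ g a := by
  have h1 : JP J fun a => ∃ ρ : Lab, ρ ++ f a = g a :=
    JP.ex hJ (P := fun a ρ => ρ ++ f a = g a) (JP.prim hJ (Primrec.eq.comp
      (Primrec.list_append.comp (pS pI) (hf.comp (pF pI))) (hg.comp (pF pI))))
  exact h1

include hY

theorem jp_Y {f g : α → Str} (hf : Primrec f) (hg : Primrec g) : JP J fun a => Y (f a) (g a) :=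
  hY.comp hJ (f := fun a => (f a, g a)) (Primrec.pair hf hg)

omit hJ hY in
theorem valid_iff (τ : Lab) : Valid b Y τ ↔ ∀ ρ : Lab, ∀ m : Str × Str, ∀ σ : Lab,
    τ = ρ ++ m :: σ → ((len σ < m.1.length ∧ b <+: m.1 ∧ value σ m.1 <+: m.2) ∧ Y m.1 m.2) := by
  constructor
  · intro h ρ m σ e
    have h1 : Valid b Y (m :: σ) := h.suffix (by rw [e]; exact List.suffix_append _ _)
    exact ⟨⟨h1.1.1, h1.1.2.1, h1.1.2.2.2⟩, h1.1.2.2.1⟩
  · intro h
    induction τ with
    | nil => trivial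
    | cons m τ ih =>
      obtain ⟨⟨h1, h2, h3⟩, h4⟩ := h [] m τ rfl
      refine ⟨⟨h1, h2, h4, h3⟩, ih ?_⟩
      intro ρ m' σ e
      exact h (m :: ρ) m' σ (by rw [e]; rfl)

theorem jp_valid {f : α → Lab} (hf : Primrec f) : JP J fun a => Valid b Y (f a) := by
  have h1 : JP J fun a : α => ∀ ρ : Lab, ∀ m : Str × Str, ∀ σ : Lab,
      f a = ρ ++ m :: σ → ((len σ < m.1.length ∧ b <+: m.1 ∧ value σ m.1 <+: m.2) ∧
      Y m.1 m.2) := by
    refine JP.all hJ (P := fun (a : α) (ρ : Lab) => ∀ m : Str × Str, ∀ σ : Lab,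
      f a = ρ ++ m :: σ → ((len σ < m.1.length ∧ b <+: m.1 ∧ value σ m.1 <+: m.2) ∧
      Y m.1 m.2)) ?_
    refine JP.all hJ (P := fun (x : α × Lab) (m : Str × Str) => ∀ σ : Lab,
      f x.1 = x.2 ++ m :: σ → ((len σ < m.1.length ∧ b <+: m.1 ∧ value σ m.1 <+: m.2) ∧
      Y m.1 m.2)) ?_
    refine JP.all hJ (P := fun (x : (α × Lab) × (Str × Str)) (σ : Lab) =>
      f x.1.1 = x.1.2 ++ x.2 :: σ → ((len σ < x.2.1.length ∧ b <+: x.2.1 ∧
      value σ x.2.1 <+: x.2.2) ∧ Y x.2.1 x.2.2)) ?_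
    have hm1 : Primrec fun y : ((α × Lab) × (Str × Str)) × Lab => y.1.2.1 := pF (pS (pF pI))
    have hm2 : Primrec fun y : ((α × Lab) × (Str × Str)) × Lab => y.1.2.2 := pS (pS (pF pI))
    refine JP.imp hJ (JP.prim hJ ?_) (JP.and hJ (JP.prim hJ ?_) (jp_Y hJ hY hm1 hm2))
    · exact Primrec.eq.comp (hf.comp (pF (pF (pF pI)))) (Primrec.list_append.comp
        (pS (pF (pF pI))) (Primrec.list_cons.comp (pS (pF pI)) (pS pI)))
    · exact PrimrecPred.and (Primrec.nat_lt.comp (prim_len (pS pI)) (Primrec.list_length.comp hm1))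
        (PrimrecPred.and (prim_pre (Primrec.const _) hm1) (prim_pre (prim_value (pS pI) hm1) hm2))
  exact h1.congr fun a => (valid_iff _).symm

theorem jp_pot {f : α → Lab} {g h : α → Str} (hf : Primrec f) (hg : Primrec g) (hh : Primrec h) :
    JP J fun a => Pot Y (f a) (g a) (h a) := by
  have h1 : JP J fun a : α => ∃ q' v : Str, ((g a <+: q' ∧ len (f a) < q'.length ∧ h a <+: v ∧
      value (f a) q' <+: v) ∧ Y q' v) := by
    refine JP.ex hJ (P := fun (a : α) (q' : Str) => ∃ v : Str, ((g a <+: q' ∧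
      len (f a) < q'.length ∧ h a <+: v ∧ value (f a) q' <+: v) ∧ Y q' v)) ?_
    refine JP.ex hJ (P := fun (x : α × Str) (v : Str) => ((g x.1 <+: x.2 ∧
      len (f x.1) < x.2.length ∧ h x.1 <+: v ∧ value (f x.1) x.2 <+: v) ∧ Y x.2 v)) ?_
    refine JP.and hJ (JP.prim hJ ?_) (jp_Y hJ hY (pS (pF pI)) (pS pI))
    refine PrimrecPred.and (prim_pre (hg.comp (pF (pF pI))) (pS (pF pI))) (PrimrecPred.and
      (Primrec.nat_lt.comp (prim_len (hf.comp (pF (pF pI))))
        (Primrec.list_length.comp (pS (pF pI)))) (PrimrecPred.and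
      (prim_pre (hh.comp (pF (pF pI))) (pS pI)) (prim_pre (prim_value (hf.comp (pF (pF pI)))
        (pS (pF pI))) (pS pI))))
  refine h1.congr fun a => ?_
  constructor
  · rintro ⟨q', v, ⟨h1, h2, h3, h4⟩, h5⟩
    exact ⟨q', v, h1, h2, h3, h4, h5⟩
  · rintro ⟨q', v, h1, h2, h3, h4, h5⟩
    exact ⟨q', v, ⟨h1, h2, h3, h4⟩, h5⟩

theorem jp_pers {f : α → Lab} {g h : α → Str} (hf : Primrec f) (hg : Primrec g) (hh : Primrec h) :
    JP J fun a => Pers b Y (f a) (g a) (h a) := by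
  refine JP.all hJ (P := fun (a : α) (τ : Lab) => f a <:+ τ → Valid b Y τ → ∀ w', h a <+: w' →
    Pot Y τ (g a) w') ?_
  refine JP.imp hJ (jp_suffix hJ (hf.comp (pF pI)) (pS pI)) (JP.imp hJ (jp_valid hJ hY (pS pI)) ?_)
  refine JP.all hJ (P := fun (x : α × Lab) (w' : Str) => h x.1 <+: w' → Pot Y x.2 (g x.1) w') ?_
  exact JP.imp hJ (JP.prim hJ (prim_pre (hh.comp (pF (pF pI))) (pS pI)))
    (jp_pot hJ hY (pS (pF pI)) (hg.comp (pF (pF pI))) (pS pI))

theorem jp_bad : JP J fun q : Str => Bad b Y q := by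
  refine JP.ex hJ (P := fun (q : Str) (σ : Lab) => Valid b Y σ ∧ ∀ τ, σ <:+ τ → Valid b Y τ →
    ∀ w, ¬ Pers b Y τ q w) ?_
  refine JP.and hJ (jp_valid hJ hY (pS pI)) ?_
  refine JP.all hJ (P := fun (x : Str × Lab) (τ : Lab) => x.2 <:+ τ → Valid b Y τ →
    ∀ w, ¬ Pers b Y τ x.1 w) ?_
  refine JP.imp hJ (jp_suffix hJ (pS (pF pI)) (pS pI)) (JP.imp hJ (jp_valid hJ hY (pS pI)) ?_)
  refine JP.all hJ (P := fun (x : (Str × Lab) × Lab) (w : Str) => ¬ Pers b Y x.2 x.1.1 w) ?_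
  exact JP.not hJ (jp_pers hJ hY (pS (pF pI)) (pF (pF (pF pI))) (pS pI))

/-- Generic sequences of labels. -/
theorem gen_seq {ι : Type} [Primcodable ι] {D : ι → Lab → Prop}
    (hD : JP J fun x : ι × Lab => D x.1 x.2) {σ0 : Lab} (hσ0 : Valid b Y σ0)
    (hd : ∀ i σ, σ0 <:+ σ → Valid b Y σ → ∃ τ, σ <:+ τ ∧ Valid b Y τ ∧ D i τ) :
    ∃ s : ℕ → Lab, s 0 = σ0 ∧ (∀ k, s k <:+ s (k + 1)) ∧ (∀ k, Valid b Y (s k)) ∧
      (∀ i, ∃ k, D i (s k)) ∧ JP J fun x : ℕ × Lab => s x.1 = x.2 := by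
  classical
  set G : ℕ → Lab → Lab → Prop := fun k σ τ => (σ <:+ τ ∧ Valid b Y τ) ∧
    ∀ i : ι, decode k = some i → D i τ with hG
  set S : ℕ → Lab → Lab → Prop := fun k σ τ => G k σ τ ∧
    ∀ τ' : Lab, encode τ' < encode τ → ¬ G k σ τ' with hS
  have hGex : ∀ k σ, σ0 <:+ σ → Valid b Y σ → ∃ τ, G k σ τ := by
    intro k σ h1 h2
    cases hk : (decode k : Option ι) with
    | none =>
      exact ⟨σ, ⟨List.suffix_rfl, h2⟩, fun i hi => by rw [hk] at hi; cases hi⟩
    | some j =>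
      obtain ⟨τ, h3, h4, h5⟩ := hd j σ h1 h2
      refine ⟨τ, ⟨h3, h4⟩, fun i hi => ?_⟩
      rw [hk] at hi
      cases hi
      exact h5
  have hSex : ∀ k σ, σ0 <:+ σ → Valid b Y σ → ∃ τ, S k σ τ := by
    intro k σ h1 h2
    obtain ⟨τ, hτ⟩ := hGex k σ h1 h2
    have hex : ∃ n, ∃ τ : Lab, encode τ = n ∧ G k σ τ := ⟨_, τ, rfl, hτ⟩
    obtain ⟨τ', h3, h4⟩ := Nat.find_spec hex
    refine ⟨τ', h4, fun τ'' h5 h6 => ?_⟩
    rw [h3] at h5
    exact Nat.find_min hex h5 ⟨τ'', rfl, h6⟩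
  have hSun : ∀ k σ τ τ', S k σ τ → S k σ τ' → τ = τ' := by
    intro k σ τ τ' h1 h2
    apply encode_injective
    rcases lt_trichotomy (encode τ) (encode τ') with h | h | h
    · exact absurd h1.1 (h2.2 τ h)
    · exact h
    · exact absurd h2.1 (h1.2 τ' h)
  choose nx hnx using hSex
  let q : ℕ → {σ : Lab // σ0 <:+ σ ∧ Valid b Y σ} := fun n => Nat.rec ⟨σ0, List.suffix_rfl, hσ0⟩
    (fun k σ => ⟨nx k σ.1 σ.2.1 σ.2.2, σ.2.1.trans (hnx k σ.1 σ.2.1 σ.2.2).1.1.1,
      (hnx k σ.1 σ.2.1 σ.2.2).1.1.2⟩) n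
  have hq : ∀ k, S k (q k).1 (q (k + 1)).1 := fun k => hnx k (q k).1 (q k).2.1 (q k).2.2
  refine ⟨fun k => (q k).1, rfl, fun k => (hq k).1.1.1, fun k => (q k).2.2, ?_, ?_⟩
  · intro i
    exact ⟨encode i + 1, (hq (encode i)).1.2 i (encodek i)⟩
  · have hGJ : JP J fun x : (ℕ × Lab) × Lab => G x.1.1 x.1.2 x.2 := by
      refine JP.and hJ (JP.and hJ (jp_suffix hJ (pS (pF pI)) (pS pI)) (jp_valid hJ hY (pS pI))) ?_
      refine JP.all hJ (P := fun (x : (ℕ × Lab) × Lab) (i : ι) => decode x.1.1 = some i →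
        D i x.2) ?_
      refine JP.imp hJ (JP.prim hJ ?_) (hD.comp hJ (f := fun y : ((ℕ × Lab) × Lab) × ι =>
        (y.2, y.1.2)) (Primrec.pair (pS pI) (pS (pF pI))))
      exact Primrec.eq.comp (Primrec.decode.comp (pF (pF (pF pI)))) (Primrec.option_some.comp
        (pS pI))
    have hSJ : JP J fun x : ℕ × Lab × Lab => S x.1 x.2.1 x.2.2 :=
      (JP.least hJ (P := fun (x : ℕ × Lab) (τ : Lab) => G x.1 x.2 τ) hGJ).comp hJ
        (f := fun x : ℕ × Lab × Lab => ((x.1, x.2.1), x.2.2))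
        (Primrec.pair (Primrec.pair (pF pI) (pF (pS pI))) (pS (pS pI)))
    refine JP.iter hJ hSJ (fun k => (q k).1) fun n τ => ?_
    constructor
    · intro h
      exact hSun _ _ _ _ h (hq n)
    · rintro rfl
      exact hq n

end

/-! ### Initial segments -/

def ini (c : ℕ → Bool) (n : ℕ) : Str := (List.range n).map c

@[simp] theorem ini_length (c : ℕ → Bool) (n : ℕ) : (ini c n).length = n := by
  simp [ini]

theorem ini_pre (c : ℕ → Bool) {m n : ℕ} (h : m ≤ n) : ini c m <+: ini c n := by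
  unfold ini
  obtain ⟨k, rfl⟩ := Nat.exists_eq_add_of_le h
  rw [List.range_add, List.map_append]
  exact List.prefix_append _ _

theorem eq_ini {c : ℕ → Bool} {n : ℕ} {v : Str} (h : v <+: ini c n) : v = ini c v.length := by
  have h1 : v.length ≤ n := by simpa using h.length_le
  have h2 : ini c v.length <+: ini c n := ini_pre c h1
  have h3 : v <+: ini c v.length := List.prefix_of_prefix_length_le h h2 (by simp)
  exact h3.eq_of_length (by simp)

theorem ini_getElem? (c : ℕ → Bool) (n i : ℕ) :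
    (ini c n)[i]? = if i < n then some (c i) else none := by
  unfold ini
  by_cases h : i < n
  · simp [h]
  · simp [h]

/-- Genericity over `J`. -/
def Gen (J : Set (Set ℕ)) (c : ℕ → Bool) : Prop :=
  ∀ B : Str → Prop, JP J B → (∃ n, B (ini c n)) ∨ ∃ n, ∀ q, ini c n <+: q → ¬ B q

theorem Gen.dense {J : Set (Set ℕ)} {c : ℕ → Bool} (hc : Gen J c) {B : Str → Prop}
    (hB : JP J B) {m : ℕ} (h : ∀ q, ini c m <+: q → ∃ q', q <+: q' ∧ B q') : ∃ n, B (ini c n) := by
  rcases hc B hB with h1 | ⟨n, h1⟩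
  · exact h1
  · exfalso
    obtain ⟨q', h2, h3⟩ := h (ini c (max m n)) (ini_pre c (le_max_left _ _))
    exact h1 q' ((ini_pre c (le_max_right _ _)).trans h2) h3

end Pool.Agent.Helper88.SetTh
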