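import Mathlib

/-!
# Definitions: `L`, `L[c]` for a Cohen real `c`, and the Mansfield-Solovay property for OD sets

All sets are elements of Mathlib's model `ZFSet` of ZFC; classes are elements of `Set ZFSet`.
-/

set_option autoImplicit false

universe u

namespace Pool.Agent.Helper88.SetTh

/-! ### First-order formulas of set theory -/

/-- First-order formulas of the language of set theory, with de Bruijn indices: `mem i j` is
`x_i ∈ x_j`, `eq i j` is `x_i = x_j`, and `all φ` quantifies the variable number `0` of `φ` (the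
free variable number `i` of `all φ` is the variable number `i + 1` of `φ`). -/
inductive Fml : Type
  | mem (i j : ℕ) : Fml
  | eq (i j : ℕ) : Fml
  | neg (φ : Fml) : Fml
  | and (φ ψ : Fml) : Fml
  | all (φ : Fml) : Fml

/-- The sequence `a, v 0, v 1, ...`. -/
def cons {α : Type*} (a : α) (v : ℕ → α) : ℕ → α
  | 0 => a
  | n + 1 => v n

/-- Satisfaction in the structure `(M, ∈)`, for a class `M` of sets: all quantifiers range over the
elements of `M`. -/
def Sat (M : Set ZFSet.{u}) : Fml → (ℕ → ZFSet.{u}) → Prop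
  | .mem i j, v => v i ∈ v j
  | .eq i j, v => v i = v j
  | .neg φ, v => ¬ Sat M φ v
  | .and φ ψ, v => Sat M φ v ∧ Sat M ψ v
  | .all φ, v => ∀ x ∈ M, Sat M φ (cons x v)

/-! ### Constructibility -/

/-- The definable power set of `U`: the subsets of `U` that are definable over the structure
`(U, ∈)` by a formula with parameters in `U` (the alternative `v i = ∅` only matters for
`U = ∅`). -/
noncomputable def DefPow (U : ZFSet.{u}) : ZFSet.{u} :=
  ZFSet.sep (fun x => ∃ (φ : Fml) (v : ℕ → ZFSet.{u}), (∀ i, v i ∈ U ∨ v i = ∅) ∧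
    ∀ y ∈ U, (y ∈ x ↔ Sat (U : Set ZFSet.{u}) φ (cons y v))) (ZFSet.powerset U)

/-- The levels `L_o` of the constructible hierarchy: `L_o` is the union of the definable power sets
of all `L_a` with `a < o`. -/
noncomputable def Lev (o : Ordinal.{u}) : ZFSet.{u} :=
  ZFSet.iUnion fun a : Set.Iio o => DefPow (Lev a)
termination_by o
decreasing_by exact a.2

/-- Gödel's constructible universe `L`. -/
def LL : Set ZFSet.{u} := {x | ∃ o : Ordinal.{u}, x ∈ Lev o}

/-- The levels of the constructible hierarchy over the set `S`: level `o` is the union of `S` and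
of the definable power sets of all levels `a < o`. -/
noncomputable def LevR (S : ZFSet.{u}) (o : Ordinal.{u}) : ZFSet.{u} :=
  S ∪ ZFSet.iUnion fun a : Set.Iio o => DefPow (LevR S a)
termination_by o
decreasing_by exact a.2

/-! ### Reals -/

/-- The von Neumann numeral `n = {0, ..., n - 1}`. -/
noncomputable def nat : ℕ → ZFSet.{u}
  | 0 => ∅
  | n + 1 => insert (nat n) (nat n)

/-- A real `x : ω → ω` as a set of ordered pairs. -/
noncomputable def code (x : ℕ → ℕ) : ZFSet.{u} :=
  ZFSet.range fun n : ℕ => ZFSet.pair (nat n) (nat (x n))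

/-- `L[r]` for a real `r`: the constructible hierarchy over the transitive set `L_ω ∪ {r}`. -/
def Lreal (r : ℕ → ℕ) : Set ZFSet.{u} :=
  {x | ∃ o : Ordinal.{u}, x ∈ LevR (insert (code r) (Lev Ordinal.omega0)) o}

/-! ### Cohen forcing over `L` -/

/-- The conditions of Cohen forcing, that is, the finite functions `p` with domain contained in `ω`
and values in `{0, 1}`, as sets of ordered pairs. -/
def IsCond (p : ZFSet.{u}) : Prop :=
  ∃ s : Finset (ℕ × ℕ), (∀ a ∈ s, a.2 < 2) ∧ (∀ a ∈ s, ∀ b ∈ s, a.1 = b.1 → a = b) ∧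
    ∀ z, z ∈ p ↔ ∃ a ∈ s, z = ZFSet.pair (nat a.1) (nat a.2)

/-- `x` is a Cohen real over `L`: the conditions contained in `x` meet every dense subset
of Cohen forcing that belongs to `L`. -/
def IsCohen (x : ℕ → ℕ) : Prop :=
  ∀ D ∈ (LL : Set ZFSet.{u}), (∀ p, IsCond p → ∃ q ∈ D, IsCond q ∧ p ⊆ q) →
    ∃ q ∈ D, IsCond q ∧ q ⊆ code x

/-- The evaluation of the name `τ` by the generic object `c`: the elements of `val c τ` are the
sets `val c σ` with `(σ, p) ∈ τ` for some condition `p ⊆ c`. -/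
noncomputable def val (c : ZFSet.{u}) (τ : ZFSet.{u}) : ZFSet.{u} :=
  ZFSet.range fun z : {z : τ // ∃ σ p, z.1 = ZFSet.pair σ p ∧ IsCond p ∧ p ⊆ c} => val c z.2.choose
termination_by τ.rank
decreasing_by
  obtain ⟨p, h, -⟩ := z.2.choose_spec
  have h1 := ZFSet.rank_lt_of_mem z.1.2
  rw [h] at h1
  refine lt_trans ?_ h1
  have h2 : z.2.choose ∈ ({z.2.choose} : ZFSet) := by simp
  have h3 : ({z.2.choose} : ZFSet) ∈ ZFSet.pair z.2.choose p := by simp [ZFSet.pair]
  exact (ZFSet.rank_lt_of_mem h2).trans (ZFSet.rank_lt_of_mem h3)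

/-- The generic extension `L[c]` of `L` by `c`: the evaluations of all constructible names. -/
def LC (c : ZFSet.{u}) : Set ZFSet.{u} := {y | ∃ τ ∈ LL, y = val c τ}

/-! ### Perfect sets, ordinal definability, and the Mansfield-Solovay property -/

/-- `P` is (the set of codes of) a perfect set of reals in the sense of the class `N`: a nonempty
set of reals, closed in the space of all reals of `N`, without isolated points. -/
structure PerfectIn (N : Set ZFSet.{u}) (P : ZFSet.{u}) : Prop where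
  reals : ∀ z ∈ P, ∃ x : ℕ → ℕ, z = code x
  nonempty : ∃ x : ℕ → ℕ, code x ∈ P
  closed : ∀ x : ℕ → ℕ, code x ∈ N →
    (∀ n, ∃ y : ℕ → ℕ, code y ∈ P ∧ ∀ i < n, y i = x i) → code x ∈ P
  noIsolated : ∀ x : ℕ → ℕ, code x ∈ P → ∀ n, ∃ y : ℕ → ℕ, code y ∈ P ∧ y ≠ x ∧ ∀ i < n, y i = x i

/-- `A` is an `OD` set of reals in the sense of the class `N`: a set of reals of `N` definable over
`(N, ∈)` from ordinals. -/
def IsODIn (N : Set ZFSet.{u}) (A : Set (ℕ → ℕ)) : Prop :=
  ∃ (φ : Fml) (p : ℕ → ZFSet.{u}), (∀ i, (p i).IsOrdinal) ∧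
    ∀ x : ℕ → ℕ, x ∈ A ↔ code x ∈ N ∧ Sat N φ (cons (code x) p)

open ZFSet in
/-- `A` is a set of reals of `N` that is definable, for some ordinal `θ`, over the set of all
elements of `N` of rank less than `θ` (the set `V_θ` in the sense of `N`) from ordinals less
than `θ`. -/
def IsODRank (N : Set ZFSet.{u}) (A : Set (ℕ → ℕ)) : Prop :=
  ∃ (θ : Ordinal.{u}) (φ : Fml) (p : ℕ → ZFSet.{u}), (∀ i, (p i).IsOrdinal ∧ p i ∈ V_ θ) ∧
    ∀ x : ℕ → ℕ, x ∈ A ↔ (code x ∈ N ∧ code x ∈ V_ θ) ∧
      Sat {y | y ∈ N ∧ y ∈ V_ θ} φ (cons (code x) p)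

/-- `A` is an `OD(r)` set of reals in the sense of the class `N`: a set of reals of `N` definable
over `(N, ∈)` from the real `r` and ordinals, that is, the section at `r` of a set of pairs of
reals definable over `(N, ∈)` from ordinals. -/
def IsODFrom (N : Set ZFSet.{u}) (r : ℕ → ℕ) (A : Set (ℕ → ℕ)) : Prop :=
  ∃ (φ : Fml) (p : ℕ → ZFSet.{u}), (∀ i, (p i).IsOrdinal) ∧
    ∀ x : ℕ → ℕ, x ∈ A ↔ code x ∈ N ∧ Sat N φ (cons (code x) (cons (code r) p))

/-- The property `MS(OD)`, for sets of reals, in the sense of the class `N`: for every real `r` of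
`N` and every `OD(r)` set of reals `A`, either `A ⊆ L[r]` or `A` has a perfect subset. -/
def MSOD (N : Set ZFSet.{u}) : Prop :=
  ∀ r : ℕ → ℕ, code r ∈ N → ∀ A : Set (ℕ → ℕ), IsODFrom N r A →
    (∀ x ∈ A, code.{u} x ∈ Lreal.{u} r) ∨ ∃ P ∈ N, PerfectIn N P ∧ ∀ x, code x ∈ P → x ∈ A

/-- The reals of `L[c]` that are Cohen over `L` and have the same constructibility degree
as `c`. -/
def CohenEquiv (c : ℕ → ℕ) : Set (ℕ → ℕ) :=
  {x | code.{u} x ∈ LC (code c) ∧ IsCohen.{u} x ∧ code.{u} c ∈ LC (code x)}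

end Pool.Agent.Helper88.SetTh
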