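import Pool.Agent.Helper88.SetTh.NiceNames

/-!
# No perfect set of reals equivalent to the generic; ordinal definability
-/

set_option autoImplicit false

universe u

namespace Pool.Agent.Helper88.SetTh

theorem finite_bound {p : ZFSet.{u}} (hp : IsCond p) {Q : ZFSet.{u} → ℕ → Prop}
    (hQ : ∀ g m n, m ≤ n → Q g m → Q g n) (h : ∀ g ∈ p, ∃ n, Q g n) : ∃ N, ∀ g ∈ p, Q g N := by
  classical
  obtain ⟨s, -, -, h3⟩ := hp
  have key : ∀ t : Finset (ℕ × ℕ), t ⊆ s → ∃ N, ∀ a ∈ t,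
      Q (ZFSet.pair (nat a.1) (nat a.2)) N := by
    intro t
    induction t using Finset.induction_on with
    | empty => intro _; exact ⟨0, by simp⟩
    | insert a t _ ih =>
      intro hts
      obtain ⟨N, hN⟩ := ih fun b hb => hts (Finset.mem_insert_of_mem hb)
      obtain ⟨M, hM⟩ := h _ ((h3 _).2 ⟨a, hts (Finset.mem_insert_self _ _), rfl⟩)
      refine ⟨max N M, fun b hb => ?_⟩
      rcases Finset.mem_insert.1 hb with rfl | hb
      · exact hQ _ _ _ (le_max_right _ _) hM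
      · exact hQ _ _ _ (le_max_left _ _) (hN b hb)
  obtain ⟨N, hN⟩ := key s (Finset.Subset.refl _)
  refine ⟨N, fun g hg => ?_⟩
  obtain ⟨a, ha, rfl⟩ := (h3 g).1 hg
  exact hN a ha

theorem ini_eq_of_agree {x y : ℕ → ℕ} {n : ℕ} (h : ∀ i < n, y i = x i) :
    ini (bin y) n = ini (bin x) n := by
  apply List.ext_getElem?
  intro i
  rw [ini_getElem?, ini_getElem?]
  by_cases hi : i < n
  · rw [if_pos hi, if_pos hi]
    unfold bin
    rw [h i hi]
  · rw [if_neg hi, if_neg hi]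

/-- **There is no perfect set of reals equivalent to the generic.** -/
theorem no_perfect {c : ℕ → ℕ} (hc : IsCohen.{u} c) {P : ZFSet.{u}} (hPN : P ∈ LC (code c))
    (hP : PerfectIn (LC (code c)) P) (hsub : ∀ x, code x ∈ P → x ∈ CohenEquiv.{u} c) : False := by
  have C : Ctx (LL : Set ZFSet.{u}) LL := ctx_LL
  have hC := dfn_prm_LL Cd_mem_LL.{u}
  have hlt := cohen_lt hc
  obtain ⟨π, ⟨γ, hγ⟩, hval⟩ := hPN
  have hU : Lev γ ∈ (LL : Set ZFSet.{u}) := Lev_mem_LL γ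
  have hUt := isTransitive_Lev γ
  have hπL : π ∈ (LL : Set ZFSet.{u}) := LL_trans hU hγ
  have hpt : ∀ {τ σ' q : ZFSet.{u}}, τ ∈ Lev γ → ZFSet.pair σ' q ∈ τ → σ' ∈ Lev γ := by
    intro τ σ' q hτ hq
    have h1 : ZFSet.pair σ' q ∈ Lev γ := hUt.mem_trans hq hτ
    have h2 : ({σ', q} : ZFSet) ∈ Lev γ := hUt.mem_trans (by simp [ZFSet.pair]) h1
    exact hUt.mem_trans (by simp) h2
  -- the name of the tree
  set R : ZFSet.{u} → ZFSet.{u} → Prop := fun a b => ∃ τ ∈ LL, ∃ q ∈ Cd, ZFSet.pair τ q ∈ π ∧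
    q ⊆ a ∧ ∀ h ∈ b, ∃ σ ∈ LL, ∃ q' ∈ Cd, ∃ p ∈ Cd, ZFSet.pair σ q' ∈ τ ∧ q' ⊆ a ∧ p ⊆ a ∧
    ZFSet.pair σ p ∈ FE (Lev γ) h with hR
  have hRd : Dfn (LL : Set ZFSet.{u}) LL fun v => R (v 0) (v 1) := by
    have h0 : Dfn (LL : Set ZFSet.{u}) LL fun v => ZFSet.pair (v 2) (v 0) ∈ FE (Lev γ) (v 3) :=
      C.mem (C.pair (C.var 2) (C.var 0)) ((FE_DF hU).rename fun _ => 3)
    exact Dfn.ex (C.bex hC ((C.mem (C.pair (C.var 1) (C.var 0)) (dfn_prm_LL hπL)).and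
      ((C.subset (C.var 0) (C.var 2)).and (C.ball (C.var 3) (Dfn.ex (C.bex hC (C.bex hC
        ((C.mem (C.pair (C.var 2) (C.var 1)) (C.var 5)).and ((C.subset (C.var 1) (C.var 6)).and
          ((C.subset (C.var 0) (C.var 6)).and h0))))))))))
  have hY : JP JL.{u} fun x : Str × Str => R (cset x.1) (cset x.2) := jp_of_dfn2 hRd
  have hmono : ∀ {q v q' v' : Str}, R (cset q) (cset v) → q <+: q' → v' <+: v →
      R (cset q') (cset v') := by
    rintro q v q' v' ⟨τ, h1, r, h2, h3, h4, h5⟩ hq hv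
    refine ⟨τ, h1, r, h2, h3, fun z hz => cset_mono hq (h4 hz), fun h hh => ?_⟩
    obtain ⟨σ, g1, q0, g2, p, g3, g4, g5, g6, g7⟩ := h5 h (cset_mono hv hh)
    exact ⟨σ, g1, q0, g2, p, g3, g4, fun z hz => cset_mono hq (g5 hz),
      fun z hz => cset_mono hq (g6 hz), g7⟩
  have T1 : ∀ n v, R (cset (ini (bin c) n)) (cset v) → ∃ x : ℕ → ℕ, code x ∈ P ∧
      cset.{u} v ⊆ code x := by
    rintro n v ⟨τ, h1, q, h2, h3, h4, h5⟩
    have h6 : val (code c) τ ∈ P := by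
      rw [hval]
      exact mem_val.2 ⟨τ, q, h3, mem_Cd.1 h2, fun z hz => ini_sub_code hlt n (h4 hz), rfl⟩
    obtain ⟨x, hx⟩ := hP.reals _ h6
    refine ⟨x, hx ▸ h6, fun h hh => ?_⟩
    obtain ⟨σ, g1, q0, g2, p, g3, g4, g5, g6, g7⟩ := h5 h hh
    have hhL : h ∈ LL := LL_trans (cset_mem_LL v) hh
    have h7 := (truth hc hU hUt h hhL σ (hpt (hpt hγ h3) g4)).2
      ⟨p, fun z hz => ini_sub_code hlt n (g6 hz), g7⟩
    rw [← hx]
    exact mem_val.2 ⟨σ, q0, g4, mem_Cd.1 g2, fun z hz => ini_sub_code hlt n (g5 hz), h7.symm⟩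
  have T2 : ∀ (x : ℕ → ℕ) (v : Str), code x ∈ P → cset.{u} v ⊆ code x →
      ∃ n, R (cset (ini (bin c) n)) (cset v) := by
    intro x v hx hv
    rw [hval] at hx
    obtain ⟨τ, q, h1, h2, h3, h4⟩ := mem_val.1 hx
    have hτ : τ ∈ Lev γ := hpt hγ h1
    obtain ⟨n1, hn1⟩ := cond_sub_ini hlt h2 h3
    obtain ⟨N, hN⟩ := finite_bound (cset_isCond.{u} v) (Q := fun h n => ∃ σ ∈ LL, ∃ q' ∈ Cd,
      ∃ p ∈ Cd, ZFSet.pair σ q' ∈ τ ∧ q' ⊆ cset (ini (bin c) n) ∧ p ⊆ cset (ini (bin c) n) ∧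
      ZFSet.pair σ p ∈ FE (Lev γ) h)
      (by
        rintro h m n hmn ⟨σ, g1, q0, g2, p, g3, g4, g5, g6, g7⟩
        exact ⟨σ, g1, q0, g2, p, g3, g4, fun z hz => cset_mono (ini_pre _ hmn) (g5 hz),
          fun z hz => cset_mono (ini_pre _ hmn) (g6 hz), g7⟩)
      (by
        intro h hh
        have h5 := hv hh
        rw [h4] at h5
        obtain ⟨σ, q', g1, g2, g3, g4⟩ := mem_val.1 h5
        have hhL : h ∈ LL := LL_trans (cset_mem_LL v) hh
        obtain ⟨p, g5, g6⟩ := (truth hc hU hUt h hhL σ (hpt hτ g1)).1 g4.symm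
        have g7 := FE_isCond hU hhL g6
        obtain ⟨m1, hm1⟩ := cond_sub_ini hlt g2 g3
        obtain ⟨m2, hm2⟩ := cond_sub_ini hlt g7 g5
        exact ⟨max m1 m2, σ, LL_trans hU (hpt hτ g1), q', mem_Cd.2 g2, p, mem_Cd.2 g7, g1,
          fun z hz => cset_mono (ini_pre _ (le_max_left _ _)) (hm1 hz),
          fun z hz => cset_mono (ini_pre _ (le_max_right _ _)) (hm2 hz), g6⟩)
    refine ⟨max n1 N, τ, LL_trans hU hτ, q, mem_Cd.2 h2, h1,
      fun z hz => cset_mono (ini_pre _ (le_max_left _ _)) (hn1 hz), fun h hh => ?_⟩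
    obtain ⟨σ, g1, q0, g2, p, g3, g4, g5, g6, g7⟩ := hN h hh
    exact ⟨σ, g1, q0, g2, p, g3, g4, fun z hz => cset_mono (ini_pre _ (le_max_right _ _)) (g5 hz),
      fun z hz => cset_mono (ini_pre _ (le_max_right _ _)) (g6 hz), g7⟩
  refine core arithClosed_JL (gen_of_cohen hc) hY hmono ?_ ?_ ?_
  · obtain ⟨x, hx⟩ := hP.nonempty
    refine T2 x [] hx fun z hz => ?_
    obtain ⟨i, b, h1, _⟩ := mem_cset.1 hz
    simp at h1
  · intro n v hv
    obtain ⟨x, hx, hvx⟩ := T1 n v hv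
    have hxlt := cohen_lt (hsub x hx).2.1
    rw [cset_sub_code hxlt] at hvx
    obtain ⟨y, hy, hyx, hagree⟩ := hP.noIsolated x hx v.length
    have hylt := cohen_lt (hsub y hy).2.1
    obtain ⟨k, hk⟩ : ∃ k, y k ≠ x k := by
      by_contra hcon
      push Not at hcon
      exact hyx (funext hcon)
    have hkv : v.length ≤ k := by
      by_contra hlt'
      exact hk (hagree k (by omega))
    have hbk : bin y k ≠ bin x k := by
      intro h
      apply hk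
      rw [← bin_toNat hxlt k, ← bin_toNat hylt k, h]
    have hne : ini (bin x) (k + 1) ≠ ini (bin y) (k + 1) := by
      intro h
      have h1 := congrArg (fun l : Str => l[k]?) h
      simp only [ini_getElem?, Nat.lt_succ_self, if_true] at h1
      exact hbk (Option.some.inj h1).symm
    obtain ⟨m1, hm1⟩ := T2 x (ini (bin x) (k + 1)) hx (ini_sub_code hxlt _)
    obtain ⟨m2, hm2⟩ := T2 y (ini (bin y) (k + 1)) hy (ini_sub_code hylt _)
    refine ⟨max m1 m2, ini (bin x) (k + 1), ini (bin y) (k + 1), ?_, ?_, ?_, ?_, ?_, ?_⟩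
    · rw [hvx]
      exact ini_pre _ (by omega)
    · rw [hvx, ← ini_eq_of_agree hagree]
      exact ini_pre _ (by omega)
    · intro h
      exact hne (h.eq_of_length (by simp))
    · intro h
      exact hne (h.eq_of_length (by simp)).symm
    · exact hmono hm1 (ini_pre _ (le_max_left _ _)) List.prefix_rfl
    · exact hmono hm2 (ini_pre _ (le_max_right _ _)) List.prefix_rfl
  · intro x Φ hΦ hx1 hx2
    set X : ℕ → ℕ := fun n => (x n).toNat with hX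
    have hXlt : ∀ n, X n < 2 := fun n => Bool.toNat_lt _
    have hXb : bin X = x := by
      funext n
      change decide ((x n).toNat = 1) = x n
      cases x n <;> simp
    -- the branch is in the extension
    have hXN : code.{u} X ∈ LC (code c) := by
      obtain ⟨ψ, hψ, hψ'⟩ := exists_LL_set (B := ZFSet.prod (ZFSet.sUnion Cd) Cd)
        (P := fun z : ZFSet.{u} => ∃ p ∈ Cd, ∃ t ∈ Cd, (∃ s v, Φ s v ∧ p = cset s ∧ t = cset v) ∧
          ∃ h ∈ t, z = ZFSet.pair h p)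
        (by
          rintro z ⟨p, hp, t, ht, _, h, hh, rfl⟩
          rw [ZFSet.pair_mem_prod]
          exact ⟨ZFSet.mem_sUnion.2 ⟨t, ht, hh⟩, hp⟩)
        (by
          rintro z ⟨p, hp, t, ht, _, h, hh, rfl⟩
          exact good_LL.pair (LL_trans (LL_trans Cd_mem_LL ht) hh) (LL_trans Cd_mem_LL hp))
        (C.bex hC (C.bex hC (((dfn_of_jp2 hΦ).rename fun i => if i = 0 then 1 else 0).and
          (C.bex (C.var 0) (C.eq (C.var 3) (C.pair (C.var 0) (C.var 2)))))))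
      refine nice_mem_LC _ hψ fun h => ?_
      constructor
      · intro hh
        obtain ⟨n, rfl⟩ := mem_code.1 hh
        obtain ⟨m, hm⟩ := (hx2 (ini x (n + 1))).2 ⟨n + 1, rfl⟩
        refine ⟨cset (ini (bin c) m), (hψ' _).2 ⟨_, mem_Cd.2 (cset_isCond _),
          cset (ini x (n + 1)), mem_Cd.2 (cset_isCond _), ⟨_, _, hm, rfl, rfl⟩, _, ?_, rfl⟩,
          cset_isCond _, ini_sub_code hlt _⟩
        have := mem_cset_ini.{u} hXlt (Nat.lt_succ_self n)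
        rw [hXb] at this
        exact this
      · rintro ⟨p, h1, h2, h3⟩
        obtain ⟨p', _, t, _, ⟨s, v, h4, rfl, rfl⟩, h', hh', e⟩ := (hψ' _).1 h1
        rw [ZFSet.pair_inj] at e
        obtain ⟨rfl, rfl⟩ := e
        rw [cset_sub_code hlt] at h3
        rw [h3] at h4
        obtain ⟨m, rfl⟩ := (hx2 v).1 ⟨_, h4⟩
        have := ini_sub_code.{u} hXlt m
        rw [hXb] at this
        exact this hh'
    have hXP : code X ∈ P := by
      apply hP.closed X hXN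
      intro n
      obtain ⟨m, hm⟩ := hx1 n
      obtain ⟨y, hy, hsuby⟩ := T1 m (ini x n) hm
      refine ⟨y, hy, fun i hi => ?_⟩
      have h1 := mem_cset_ini.{u} hXlt hi
      rw [hXb] at h1
      exact pair_mem_code.1 (hsuby h1)
    obtain ⟨-, hXc, hcX⟩ := hsub X hXP
    have hgen := gen_of_cohen hXc
    rw [hXb] at hgen
    refine ⟨hgen, ?_⟩
    obtain ⟨ψ, hψ, hψ'⟩ := nice_of_mem_LC hXc hcX
    have hΨd : Dfn (LL : Set ZFSet.{u}) LL fun v => ∀ h ∈ v 1, ∃ p ∈ Cd, ZFSet.pair h p ∈ ψ ∧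
        p ⊆ v 0 :=
      C.ball (C.var 1) (C.bex hC ((C.mem (C.pair (C.var 1) (C.var 0)) (dfn_prm_LL hψ)).and
        (C.subset (C.var 0) (C.var 2))))
    refine ⟨fun s v => ∀ h ∈ cset.{u} v, ∃ p ∈ Cd, ZFSet.pair h p ∈ ψ ∧ p ⊆ cset s,
      jp_of_dfn2 (R := fun a b => ∀ h ∈ b, ∃ p ∈ Cd, ZFSet.pair h p ∈ ψ ∧ p ⊆ a) hΨd, fun v => ?_⟩
    constructor
    · rintro ⟨n, hn⟩
      have h1 : cset.{u} v ⊆ code c := by
        intro h hh
        obtain ⟨p, h2, h3, h4⟩ := hn h hh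
        refine (hψ' h).2 ⟨p, h3, mem_Cd.1 h2, fun z hz => ?_⟩
        have h5 := ini_sub_code.{u} hXlt n
        rw [hXb] at h5
        exact h5 (h4 hz)
      rw [cset_sub_code hlt] at h1
      exact ⟨_, h1⟩
    · rintro ⟨m, rfl⟩
      obtain ⟨N, hN⟩ := finite_support hXlt (cset_isCond.{u} (ini (bin c) m)) (ψ := ψ)
        fun g hg => (hψ' g).1 (ini_sub_code hlt m hg)
      rw [hXb] at hN
      refine ⟨N, fun h hh => ?_⟩
      obtain ⟨q, h1, h2, h3⟩ := hN h hh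
      exact ⟨q, mem_Cd.2 h2, h1, h3⟩

/-! ### Ordinal definability -/

/-- Definable characterisation of codes of reals. -/
theorem isReal_iff {z : ZFSet.{u}} : (∃ x : ℕ → ℕ, z = code x) ↔
    (∀ g ∈ z, ∃ n ∈ om, ∃ m ∈ om, g = ZFSet.pair n m) ∧
    ∀ n ∈ om, ∃ m ∈ om, ZFSet.pair n m ∈ z ∧ ∀ m' ∈ om, ZFSet.pair n m' ∈ z → m' = m := by
  constructor
  · rintro ⟨x, rfl⟩
    refine ⟨fun g hg => ?_, fun n hn => ?_⟩
    · obtain ⟨n, rfl⟩ := mem_code.1 hg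
      exact ⟨_, nat_mem_om _, _, nat_mem_om _, rfl⟩
    · obtain ⟨n, rfl⟩ := mem_om.1 hn
      refine ⟨nat (x n), nat_mem_om _, pair_mem_code.2 rfl, fun m' hm' h => ?_⟩
      obtain ⟨m', rfl⟩ := mem_om.1 hm'
      rw [pair_mem_code.1 h]
  · rintro ⟨h1, h2⟩
    have h3 : ∀ n : ℕ, ∃ m : ℕ, ZFSet.pair (nat.{u} n) (nat m) ∈ z ∧ ∀ m' : ℕ,
        ZFSet.pair (nat.{u} n) (nat m') ∈ z → m' = m := by
      intro n
      obtain ⟨m, hm, h4, h5⟩ := h2 (nat n) (nat_mem_om n)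
      obtain ⟨m, rfl⟩ := mem_om.1 hm
      exact ⟨m, h4, fun m' h => nat_inj.1 (h5 _ (nat_mem_om m') h)⟩
    choose x hx1 hx2 using h3
    refine ⟨x, ZFSet.ext fun g => ?_⟩
    rw [mem_code]
    constructor
    · intro hg
      obtain ⟨n, hn, m, hm, rfl⟩ := h1 g hg
      obtain ⟨n, rfl⟩ := mem_om.1 hn
      obtain ⟨m, rfl⟩ := mem_om.1 hm
      exact ⟨n, by rw [hx2 n m hg]⟩
    · rintro ⟨n, rfl⟩
      exact hx1 n

theorem cohenEquiv_iff {c : ℕ → ℕ} (hc : IsCohen.{u} c) (x : ℕ → ℕ) : x ∈ CohenEquiv.{u} c ↔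
    code.{u} x ∈ LC (code c) ∧ IsCohen.{u} x ∧ ∀ y : ℕ → ℕ, code.{u} y ∈ LC (code c) →
      Nice (code.{u} x) (code y) := by
  constructor
  · rintro ⟨h1, h2, h3⟩
    refine ⟨h1, h2, fun y hy => ?_⟩
    exact Nice.comp (cohen_lt h2) (nice_of_mem_LC h2 h3) (nice_of_mem_LC hc hy)
  · rintro ⟨h1, h2, h3⟩
    exact ⟨h1, h2, (h3 c (nice_self hc).mem_LC).mem_LC⟩

theorem cohenEquiv_dfn {c : ℕ → ℕ} (hc : IsCohen.{u} c) :
    Dfn (LC (code.{u} c)) Ords fun v => ∃ x ∈ CohenEquiv.{u} c, v 0 = code x := by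
  have C : Ctx (LC (code.{u} c)) Ords := ctx_LC _
  have hreal : ∀ i : ℕ, Dfn (LC (code.{u} c)) Ords fun v => ∃ x : ℕ → ℕ, v i = code x := by
    intro i
    have h1 : Dfn (LC (code.{u} c)) Ords fun v =>
        (∀ g ∈ v i, ∃ n ∈ om, ∃ m ∈ om, g = ZFSet.pair n m) ∧
        ∀ n ∈ om, ∃ m ∈ om, ZFSet.pair n m ∈ v i ∧ ∀ m' ∈ om, ZFSet.pair n m' ∈ v i → m' = m :=
      (C.ball (C.var i) (C.bex C.om (C.bex C.om (C.eq (C.var 2) (C.pair (C.var 1)
        (C.var 0)))))).and (C.ball C.om (C.bex C.om ((C.mem (C.pair (C.var 1) (C.var 0))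
          (C.var (i + 2))).and (C.ball C.om ((C.mem (C.pair (C.var 2) (C.var 0))
            (C.var (i + 3))).imp (C.eq (C.var 0) (C.var 1)))))))
    exact h1.congr fun v _ => isReal_iff.symm
  -- genericity
  have hcoh : Dfn (LC (code.{u} c)) Ords fun v => ∀ D ∈ LC (code.{u} c), D ∈ LL →
      (∀ p ∈ LC (code.{u} c), IsCond p → ∃ q ∈ D, IsCond q ∧ p ⊆ q) →
      ∃ q ∈ D, IsCond q ∧ q ⊆ v 0 :=
    Dfn.all ((C.memLL (C.var 0)).imp ((Dfn.all ((C.isCond (C.var 0)).imp (C.bex (C.var 1)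
      ((C.isCond (C.var 0)).and (C.subset (C.var 1) (C.var 0)))))).imp
      (C.bex (C.var 0) ((C.isCond (C.var 0)).and (C.subset (C.var 0) (C.var 2))))))
  -- nice names
  have hnice : Dfn (LC (code.{u} c)) Ords fun v => ∃ ψ ∈ LC (code.{u} c), ψ ∈ LL ∧
      ∀ h ∈ LC (code.{u} c), (h ∈ v 0 ↔ ∃ p ∈ LC (code.{u} c), ZFSet.pair h p ∈ ψ ∧ IsCond p ∧
        p ⊆ v 1) :=
    Dfn.ex ((C.memLL (C.var 0)).and (Dfn.all ((C.mem (C.var 0) (C.var 2)).iff
      (Dfn.ex ((C.mem (C.pair (C.var 1) (C.var 0)) (C.var 2)).and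
        ((C.isCond (C.var 0)).and (C.subset (C.var 0) (C.var 4))))))))
  have hall : Dfn (LC (code.{u} c)) Ords fun v => ∀ z ∈ LC (code.{u} c),
      (∃ y : ℕ → ℕ, z = code y) → ∃ ψ ∈ LC (code.{u} c), ψ ∈ LL ∧
      ∀ h ∈ LC (code.{u} c), (h ∈ z ↔ ∃ p ∈ LC (code.{u} c), ZFSet.pair h p ∈ ψ ∧ IsCond p ∧
        p ⊆ v 0) :=
    Dfn.all ((hreal 0).imp hnice)
  refine ((hreal 0).and (hcoh.and hall)).congr fun v hv => ?_
  have hLN : ∀ {z : ZFSet.{u}}, z ∈ LL → z ∈ LC (code.{u} c) := fun h => LL_sub_LC _ h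
  constructor
  · rintro ⟨⟨x, hx⟩, h1, h2⟩
    refine ⟨x, ?_, hx⟩
    rw [cohenEquiv_iff hc]
    rw [hx] at h1 h2
    refine ⟨hx ▸ hv 0, ?_, ?_⟩
    · intro D hD hdense
      exact h1 D (hLN hD) hD fun p _ hp => hdense p hp
    · intro y hy
      obtain ⟨ψ, _, hψ, h3⟩ := h2 _ hy ⟨y, rfl⟩
      refine ⟨ψ, hψ, fun h => ?_⟩
      constructor
      · intro hh
        obtain ⟨p, _, h4⟩ := (h3 h (hLN (code_elts_LL hh))).1 hh
        exact ⟨p, h4⟩
      · rintro ⟨p, h4, h5, h6⟩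
        exact (h3 h (hLN (good_LL.of_pair_mem hψ h4).1)).2 ⟨p, hLN h5.mem_LL, h4, h5, h6⟩
  · rintro ⟨x, hx, hvx⟩
    rw [cohenEquiv_iff hc] at hx
    obtain ⟨_, h1, h2⟩ := hx
    rw [hvx]
    refine ⟨⟨x, rfl⟩, ?_, ?_⟩
    · intro D _ hD hdense
      exact h1 D hD fun p hp => hdense p (hLN hp.mem_LL) hp
    · rintro z hz ⟨y, rfl⟩
      obtain ⟨ψ, hψ, h3⟩ := h2 y hz
      refine ⟨ψ, hLN hψ, hψ, fun h _ => ?_⟩
      rw [h3]
      constructor
      · rintro ⟨p, h4, h5, h6⟩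
        exact ⟨p, hLN h5.mem_LL, h4, h5, h6⟩
      · rintro ⟨p, _, h4⟩
        exact ⟨p, h4⟩

theorem isODIn_of_dfn {N : Set ZFSet.{u}} (hN : ∅ ∈ N) {A : Set (ℕ → ℕ)}
    (hA : ∀ x ∈ A, code x ∈ N)
    (h : Dfn N Ords fun v => ∃ x ∈ A, v 0 = code x) : IsODIn N A := by
  obtain ⟨φ, p, hp, hφ⟩ := h
  refine ⟨φ, fun i => mix (cons ∅ fun _ => ∅) p (i + 1), fun i => ?_, fun x => ?_⟩
  · change (mix (cons ∅ fun _ => ∅) p (i + 1)).IsOrdinal
    unfold mix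
    split_ifs
    · obtain ⟨m, hm⟩ : ∃ m, (i + 1) / 2 = m := ⟨_, rfl⟩
      rw [hm]
      cases m <;> exact nat_isOrdinal 0
    · exact hp _
  · have e : cons (code x) (fun i => mix (cons ∅ fun _ => ∅) p (i + 1)) =
        mix (cons (code x) fun _ => ∅) p := by
      funext i
      cases i with
      | zero => rfl
      | succ i =>
        change mix (cons ∅ fun _ => ∅) p (i + 1) = mix (cons (code x) fun _ => ∅) p (i + 1)
        unfold mix
        split_ifs with h1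
        · obtain ⟨m, hm⟩ : ∃ m, (i + 1) / 2 = m + 1 := ⟨(i + 1) / 2 - 1, by omega⟩
          rw [hm]
          rfl
        · rfl
    rw [e]
    have h1 : ∀ hx : code x ∈ N, ((∃ y ∈ A, code x = code y) ↔
        Sat N φ (mix (cons (code x) fun _ => ∅) p)) := fun hx =>
      hφ (cons (code x) fun _ => ∅) (cons_mem hx fun _ => hN)
    constructor
    · intro hx
      exact ⟨hA x hx, (h1 (hA x hx)).1 ⟨x, hx, rfl⟩⟩
    · rintro ⟨h2, h3⟩
      obtain ⟨y, hy, e⟩ := (h1 h2).2 h3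
      rw [code_injective e]
      exact hy

theorem cohenEquiv_OD {c : ℕ → ℕ} (hc : IsCohen.{u} c) :
    IsODIn (LC (code.{u} c)) (CohenEquiv.{u} c) :=
  isODIn_of_dfn (good_LC _).empty (fun _ hx => hx.1) (cohenEquiv_dfn hc)

theorem self_mem_cohenEquiv {c : ℕ → ℕ} (hc : IsCohen.{u} c) : c ∈ CohenEquiv.{u} c :=
  ⟨(nice_self hc).mem_LC, hc, (nice_self hc).mem_LC⟩

end Pool.Agent.Helper88.SetTh
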