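import Pool.Agent.Helper88.SetTh.Defs

/-!
# First-order formulas of set theory and definability over a class
-/

set_option autoImplicit false

universe u

namespace Pool.Agent.Helper88.SetTh

@[simp] theorem cons_zero {α : Type*} (a : α) (v : ℕ → α) : cons a v 0 = a := rfl

@[simp] theorem cons_succ {α : Type*} (a : α) (v : ℕ → α) (n : ℕ) : cons a v (n + 1) = v n := rfl

/-- Renaming of variables. -/
def Fml.rename : Fml → (ℕ → ℕ) → Fml
  | .mem i j, ρ => .mem (ρ i) (ρ j)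
  | .eq i j, ρ => .eq (ρ i) (ρ j)
  | .neg φ, ρ => .neg (φ.rename ρ)
  | .and φ ψ, ρ => .and (φ.rename ρ) (ψ.rename ρ)
  | .all φ, ρ => .all (φ.rename (cons 0 fun n => ρ n + 1))

theorem sat_rename (M : Set ZFSet.{u}) (φ : Fml) : ∀ (ρ : ℕ → ℕ) (v : ℕ → ZFSet.{u}),
    Sat M (φ.rename ρ) v ↔ Sat M φ (fun i => v (ρ i)) := by
  induction φ with
  | mem i j => intro ρ v; rfl
  | eq i j => intro ρ v; rfl
  | neg φ ih => intro ρ v; simp only [Fml.rename, Sat, ih]
  | and φ ψ ih1 ih2 => intro ρ v; simp only [Fml.rename, Sat, ih1, ih2]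
  | all φ ih =>
    intro ρ v
    simp only [Fml.rename, Sat, ih]
    refine forall₂_congr fun x _ => ?_
    have : (fun i => cons x v (cons 0 (fun n => ρ n + 1) i)) = cons x (fun i => v (ρ i)) := by
      funext i
      cases i <;> rfl
    rw [this]

/-- A bound for the free variables. -/
def Fml.bd : Fml → ℕ
  | .mem i j => max i j + 1
  | .eq i j => max i j + 1
  | .neg φ => φ.bd
  | .and φ ψ => max φ.bd ψ.bd
  | .all φ => φ.bd

theorem sat_congr (M : Set ZFSet.{u}) (φ : Fml) : ∀ (v w : ℕ → ZFSet.{u}),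
    (∀ i < φ.bd, v i = w i) → (Sat M φ v ↔ Sat M φ w) := by
  induction φ with
  | mem i j =>
    intro v w h
    simp only [Sat]
    rw [h i (by simp [Fml.bd]), h j (by simp [Fml.bd])]
  | eq i j =>
    intro v w h
    simp only [Sat]
    rw [h i (by simp [Fml.bd]), h j (by simp [Fml.bd])]
  | neg φ ih => intro v w h; simp only [Sat, ih v w h]
  | and φ ψ ih1 ih2 =>
    intro v w h
    simp only [Sat]
    rw [ih1 v w fun i hi => h i (lt_of_lt_of_le hi (le_max_left _ _)),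
      ih2 v w fun i hi => h i (lt_of_lt_of_le hi (le_max_right _ _))]
  | all φ ih =>
    intro v w h
    simp only [Sat]
    refine forall₂_congr fun x _ => ih _ _ fun i hi => ?_
    cases i with
    | zero => rfl
    | succ i => exact h i (lt_trans (Nat.lt_succ_self i) hi)

/-! ### Definable relations -/

/-- Environment `v 0, p 0, v 1, p 1, ...`. -/
def mix {α : Type*} (v p : ℕ → α) : ℕ → α := fun i => if i % 2 = 0 then v (i / 2) else p (i / 2)

theorem mix_even {α : Type*} (v p : ℕ → α) (i : ℕ) : mix v p (2 * i) = v i := by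
  unfold mix
  rw [if_pos (by omega)]
  congr 1
  omega

theorem mix_odd {α : Type*} (v p : ℕ → α) (i : ℕ) : mix v p (2 * i + 1) = p i := by
  unfold mix
  rw [if_neg (by omega)]
  congr 1
  omega

/-- `P` is definable over `(N, ∈)` with parameters in `Prm`. -/
def Dfn (N Prm : Set ZFSet.{u}) (P : (ℕ → ZFSet.{u}) → Prop) : Prop :=
  ∃ (φ : Fml) (p : ℕ → ZFSet.{u}), (∀ i, p i ∈ Prm) ∧ ∀ v : ℕ → ZFSet.{u}, (∀ i, v i ∈ N) →
    (P v ↔ Sat N φ (mix v p))

/-- The function `f` maps `N` to `N` and is definable over `(N, ∈)` with parameters in `Prm`. -/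
structure DF (N Prm : Set ZFSet.{u}) (f : (ℕ → ZFSet.{u}) → ZFSet.{u}) : Prop where
  mem : ∀ v : ℕ → ZFSet.{u}, (∀ i, v i ∈ N) → f v ∈ N
  dfn : Dfn N Prm fun v => v 0 = f fun i => v (i + 1)

theorem cons_mem {N : Set ZFSet.{u}} {x : ZFSet.{u}} {v : ℕ → ZFSet.{u}} (hx : x ∈ N)
    (hv : ∀ i, v i ∈ N) : ∀ i, cons x v i ∈ N := by
  intro i
  cases i
  · exact hx
  · exact hv _

namespace Dfn

variable {N Prm : Set ZFSet.{u}} {P Q : (ℕ → ZFSet.{u}) → Prop} {f g h k : (ℕ → ZFSet.{u}) → ZFSet.{u}}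

theorem congr (hP : Dfn N Prm P) (e : ∀ v : ℕ → ZFSet.{u}, (∀ i, v i ∈ N) → (P v ↔ Q v)) :
    Dfn N Prm Q := by
  obtain ⟨φ, p, hp, hφ⟩ := hP
  exact ⟨φ, p, hp, fun v hv => (e v hv).symm.trans (hφ v hv)⟩

theorem mono {Prm' : Set ZFSet.{u}} (h : Prm ⊆ Prm') (hP : Dfn N Prm P) : Dfn N Prm' P := by
  obtain ⟨φ, p, hp, hφ⟩ := hP
  exact ⟨φ, p, fun i => h (hp i), hφ⟩

theorem rename (hP : Dfn N Prm P) (ρ : ℕ → ℕ) : Dfn N Prm fun v => P fun i => v (ρ i) := by
  obtain ⟨φ, p, hp, hφ⟩ := hP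
  refine ⟨φ.rename (fun i => if i % 2 = 0 then 2 * ρ (i / 2) else i), p, hp, fun v hv => ?_⟩
  rw [sat_rename]
  refine (hφ _ fun i => hv _).trans ?_
  have : (fun i => mix v p (if i % 2 = 0 then 2 * ρ (i / 2) else i)) =
      mix (fun i => v (ρ i)) p := by
    funext i
    split_ifs with hi
    · rw [mix_even]
      unfold mix
      rw [if_pos hi]
    · unfold mix
      rw [if_neg hi, if_neg hi]
  rw [this]

theorem prm (hP : Dfn N Prm P) {a : ZFSet.{u}} (ha : a ∈ Prm) (haN : a ∈ N) :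
    Dfn N Prm fun v => P (cons a v) := by
  obtain ⟨φ, p, hp, hφ⟩ := hP
  refine ⟨φ.rename (fun i => if i = 0 then 1 else if i % 2 = 0 then i - 2 else i + 2), cons a p,
    cons_mem ha hp, fun v hv => ?_⟩
  rw [sat_rename]
  refine (hφ _ (cons_mem haN hv)).trans ?_
  have : (fun i => mix v (cons a p) (if i = 0 then 1 else if i % 2 = 0 then i - 2 else i + 2)) =
      mix (cons a v) p := by
    funext i
    by_cases h0 : i = 0
    · subst h0
      rfl
    · rw [if_neg h0]
      by_cases h1 : i % 2 = 0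
      · obtain ⟨m, rfl⟩ : ∃ m, i = 2 * (m + 1) := ⟨i / 2 - 1, by omega⟩
        rw [if_pos h1, mix_even, show 2 * (m + 1) - 2 = 2 * m by omega, mix_even]
        rfl
      · obtain ⟨m, rfl⟩ : ∃ m, i = 2 * m + 1 := ⟨i / 2, by omega⟩
        rw [if_neg h1, mix_odd, show 2 * m + 1 + 2 = 2 * (m + 1) + 1 by omega, mix_odd]
        rfl
  rw [this]

theorem not (hP : Dfn N Prm P) : Dfn N Prm fun v => ¬ P v := by
  obtain ⟨φ, p, hp, hφ⟩ := hP
  exact ⟨.neg φ, p, hp, fun v hv => by simp only [Sat, hφ v hv]⟩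

theorem and (hP : Dfn N Prm P) (hQ : Dfn N Prm Q) : Dfn N Prm fun v => P v ∧ Q v := by
  obtain ⟨φ, p, hp, hφ⟩ := hP
  obtain ⟨ψ, q, hq, hψ⟩ := hQ
  refine ⟨.and (φ.rename fun i => if i % 2 = 0 then i else 2 * (2 * (i / 2)) + 1)
    (ψ.rename fun i => if i % 2 = 0 then i else 2 * (2 * (i / 2) + 1) + 1), mix p q, ?_, ?_⟩
  · intro i
    unfold mix
    split_ifs
    · exact hp _
    · exact hq _
  · intro v hv
    simp only [Sat, sat_rename]
    rw [hφ v hv, hψ v hv]
    have e1 : (fun i => mix v (mix p q) (if i % 2 = 0 then i else 2 * (2 * (i / 2)) + 1)) =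
        mix v p := by
      funext i
      split_ifs with hi
      · obtain ⟨m, rfl⟩ : ∃ m, i = 2 * m := ⟨i / 2, by omega⟩
        rw [mix_even, mix_even]
      · obtain ⟨m, rfl⟩ : ∃ m, i = 2 * m + 1 := ⟨i / 2, by omega⟩
        rw [mix_odd, mix_odd, mix_even]
        congr 1
        omega
    have e2 : (fun i => mix v (mix p q) (if i % 2 = 0 then i else 2 * (2 * (i / 2) + 1) + 1)) =
        mix v q := by
      funext i
      split_ifs with hi
      · obtain ⟨m, rfl⟩ : ∃ m, i = 2 * m := ⟨i / 2, by omega⟩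
        rw [mix_even, mix_even]
      · obtain ⟨m, rfl⟩ : ∃ m, i = 2 * m + 1 := ⟨i / 2, by omega⟩
        rw [mix_odd, mix_odd, mix_odd]
        congr 1
        omega
    rw [e1, e2]

theorem or (hP : Dfn N Prm P) (hQ : Dfn N Prm Q) : Dfn N Prm fun v => P v ∨ Q v :=
  (hP.not.and hQ.not).not.congr fun v _ => by tauto

theorem imp (hP : Dfn N Prm P) (hQ : Dfn N Prm Q) : Dfn N Prm fun v => P v → Q v :=
  (hP.not.or hQ).congr fun v _ => by tauto

theorem iff (hP : Dfn N Prm P) (hQ : Dfn N Prm Q) : Dfn N Prm fun v => (P v ↔ Q v) :=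
  ((hP.imp hQ).and (hQ.imp hP)).congr fun v _ => by tauto

theorem all (hP : Dfn N Prm P) : Dfn N Prm fun v => ∀ x ∈ N, P (cons x v) := by
  obtain ⟨φ, p, hp, hφ⟩ := hP
  refine ⟨.all (φ.rename fun i => if i = 0 then 0 else if i % 2 = 0 then i - 1 else i + 1), p, hp,
    fun v hv => ?_⟩
  simp only [Sat, sat_rename]
  refine forall₂_congr fun x hx => ?_
  rw [hφ _ (cons_mem hx hv)]
  have : (fun i => cons x (mix v p) (if i = 0 then 0 else if i % 2 = 0 then i - 1 else i + 1)) =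
      mix (cons x v) p := by
    funext i
    by_cases h0 : i = 0
    · subst h0
      rfl
    · rw [if_neg h0]
      by_cases h1 : i % 2 = 0
      · obtain ⟨m, rfl⟩ : ∃ m, i = 2 * (m + 1) := ⟨i / 2 - 1, by omega⟩
        rw [if_pos h1, mix_even, show 2 * (m + 1) - 1 = 2 * m + 1 by omega, cons_succ, cons_succ,
          mix_even]
      · obtain ⟨m, rfl⟩ : ∃ m, i = 2 * m + 1 := ⟨i / 2, by omega⟩
        rw [if_neg h1, mix_odd, cons_succ, mix_odd]
  rw [this]

theorem ex (hP : Dfn N Prm P) : Dfn N Prm fun v => ∃ x ∈ N, P (cons x v) :=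
  hP.not.all.not.congr fun v _ => by push Not; rfl

/-- A closed statement. -/
theorem const (hne : Prm.Nonempty) (c : Prop) : Dfn N Prm fun _ => c := by
  obtain ⟨a, ha⟩ := hne
  by_cases hc : c
  · exact ⟨.eq 0 0, fun _ => a, fun _ => ha, fun v _ => by simp [Sat, hc]⟩
  · exact ⟨.neg (.eq 0 0), fun _ => a, fun _ => ha, fun v _ => by simp [Sat, hc]⟩

theorem vmem (hne : Prm.Nonempty) (i j : ℕ) : Dfn N Prm fun v => v i ∈ v j := by
  obtain ⟨a, ha⟩ := hne
  exact ⟨.mem (2 * i) (2 * j), fun _ => a, fun _ => ha, fun v _ => by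
    simp only [Sat, mix_even]⟩

theorem veq (hne : Prm.Nonempty) (i j : ℕ) : Dfn N Prm fun v => v i = v j := by
  obtain ⟨a, ha⟩ := hne
  exact ⟨.eq (2 * i) (2 * j), fun _ => a, fun _ => ha, fun v _ => by
    simp only [Sat, mix_even]⟩

/-- Substitution of one term. -/
theorem comp1 {R : ZFSet.{u} → Prop} (hR : Dfn N Prm fun v => R (v 0)) (hf : DF N Prm f) :
    Dfn N Prm fun v => R (f v) := by
  refine ((hf.dfn.and hR).ex).congr fun v hv => ?_
  constructor
  · rintro ⟨x, _, hx, hR⟩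
    have hx : x = f v := hx
    rw [← hx]
    exact hR
  · intro h
    exact ⟨f v, hf.mem v hv, rfl, h⟩

/-- Substitution of a term for the variable number `0` in a general predicate. -/
theorem subst0 {R : ZFSet.{u} → (ℕ → ZFSet.{u}) → Prop}
    (hR : Dfn N Prm fun v => R (v 0) fun i => v (i + 1)) (hf : DF N Prm f) :
    Dfn N Prm fun v => R (f v) v := by
  refine ((hf.dfn.and hR).ex).congr fun v hv => ?_
  constructor
  · rintro ⟨x, _, hx, hR⟩
    have hx : x = f v := hx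
    rw [← hx]
    exact hR
  · intro h
    exact ⟨f v, hf.mem v hv, rfl, h⟩

end Dfn

namespace DF

variable {N Prm : Set ZFSet.{u}} {P Q : (ℕ → ZFSet.{u}) → Prop} {f g h k : (ℕ → ZFSet.{u}) → ZFSet.{u}}

theorem congr (hf : DF N Prm f) (e : ∀ v : ℕ → ZFSet.{u}, (∀ i, v i ∈ N) → f v = g v) :
    DF N Prm g :=
  ⟨fun v hv => e v hv ▸ hf.mem v hv, hf.dfn.congr fun v hv => by
    rw [e _ fun i => hv (i + 1)]⟩

theorem mono {Prm' : Set ZFSet.{u}} (h : Prm ⊆ Prm') (hf : DF N Prm f) : DF N Prm' f :=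
  ⟨hf.mem, hf.dfn.mono h⟩

theorem var (hne : Prm.Nonempty) (i : ℕ) : DF N Prm fun v => v i :=
  ⟨fun _ hv => hv i, Dfn.veq hne 0 (i + 1)⟩

theorem prm {a : ZFSet.{u}} (ha : a ∈ Prm) (haN : a ∈ N) : DF N Prm fun _ => a :=
  ⟨fun _ _ => haN, ((Dfn.veq ⟨a, ha⟩ 0 1).prm ha haN).congr fun v _ => by
    change a = v 0 ↔ v 0 = a
    exact eq_comm⟩

theorem rename (hf : DF N Prm f) (ρ : ℕ → ℕ) : DF N Prm fun v => f fun i => v (ρ i) :=
  ⟨fun v hv => hf.mem _ fun i => hv _,
    (hf.dfn.rename (cons 0 fun i => ρ i + 1)).congr fun v _ => by rfl⟩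

/-- shifting under a quantifier -/
theorem shift (hf : DF N Prm f) : DF N Prm fun v => f fun i => v (i + 1) := hf.rename fun i => i + 1

end DF

namespace Dfn

variable {N Prm : Set ZFSet.{u}} {P Q : (ℕ → ZFSet.{u}) → Prop}
  {f g h k : (ℕ → ZFSet.{u}) → ZFSet.{u}}

/-- Substitution of two terms. -/
theorem comp2 {R : ZFSet.{u} → ZFSet.{u} → Prop} (hR : Dfn N Prm fun v => R (v 0) (v 1))
    (hf : DF N Prm f) (hg : DF N Prm g) : Dfn N Prm fun v => R (f v) (g v) := by
  have h1 : Dfn N Prm fun v => R (v 0) (g fun i => v (i + 1)) := by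
    have := subst0 (R := fun x v => R (v 0) x) (hR.rename fun i => if i = 0 then 1 else 0) hg.shift
    exact this
  exact subst0 (R := fun x v => R x (g v)) h1 hf

/-- Substitution of three terms. -/
theorem comp3 {R : ZFSet.{u} → ZFSet.{u} → ZFSet.{u} → Prop}
    (hR : Dfn N Prm fun v => R (v 0) (v 1) (v 2))
    (hf : DF N Prm f) (hg : DF N Prm g) (hh : DF N Prm h) :
    Dfn N Prm fun v => R (f v) (g v) (h v) := by
  have h1 : Dfn N Prm fun v => R (v 0) (v 1) (h fun i => v (i + 2)) := by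
    have := subst0 (R := fun x v => R (v 0) (v 1) x)
      (hR.rename fun i => if i = 0 then 1 else if i = 1 then 2 else 0) hh.shift.shift
    exact this
  have h2 : Dfn N Prm fun v => R (v 0) (g fun i => v (i + 1)) (h fun i => v (i + 1)) := by
    have := subst0 (R := fun x v => R (v 0) x (h fun i => v (i + 1)))
      (h1.rename fun i => if i = 0 then 1 else if i = 1 then 0 else i) hg.shift
    exact this
  exact subst0 (R := fun x v => R x (g v) (h v)) h2 hf

end Dfn

end Pool.Agent.Helper88.SetTh
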