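import Pool.Agent.Helper88.SetTh.Names

/-!
# Forcing `τ = h` for constructible `h`
-/

set_option autoImplicit false

universe u

namespace Pool.Agent.Helper88.SetTh

theorem DF.comp1 {N Prm : Set ZFSet.{u}} {G : ZFSet.{u} → ZFSet.{u}}
    (hG : DF N Prm fun v => G (v 0)) {f : (ℕ → ZFSet.{u}) → ZFSet.{u}} (hf : DF N Prm f)
    (hne : Prm.Nonempty) : DF N Prm fun v => G (f v) :=
  ⟨fun v hv => hG.mem (fun _ => f v) fun _ => hf.mem v hv,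
    Dfn.comp2 (R := fun a b => a = G b) hG.dfn (DF.var hne 0) hf.shift⟩

/-- `pair σ s` is an element of `f(h)`. -/
def InAt (f h σ s : ZFSet.{u}) : Prop := ∃ y ∈ LL, ZFSet.pair h y ∈ f ∧ ZFSet.pair σ s ∈ y

def ClA (h f σ p : ZFSet.{u}) : Prop :=
  ∀ σ' ∈ LL, ∀ q ∈ Cd, ZFSet.pair σ' q ∈ σ → ∀ r ∈ Cd, p ⊆ r → q ⊆ r →
    ∃ s ∈ Cd, r ⊆ s ∧ ∃ h' ∈ h, InAt f h' σ' s

def ClB (h f σ p : ZFSet.{u}) : Prop :=
  ∀ h' ∈ h, ∀ r ∈ Cd, p ⊆ r → ∃ s ∈ Cd, r ⊆ s ∧ ∃ σ' ∈ LL, ∃ q ∈ Cd, ZFSet.pair σ' q ∈ σ ∧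
    q ⊆ s ∧ InAt f h' σ' s

noncomputable def FΓ (U h f : ZFSet.{u}) : ZFSet.{u} :=
  ZFSet.pairSep (fun σ p => ClA h f σ p ∧ ClB h f σ p) U Cd

theorem mem_FΓ {U h f z : ZFSet.{u}} : z ∈ FΓ U h f ↔
    ∃ σ ∈ U, ∃ p ∈ Cd, z = ZFSet.pair σ p ∧ ClA h f σ p ∧ ClB h f σ p := ZFSet.mem_pairSep

/-- The set of pairs `(σ, p)`, `σ ∈ U`, such that `p` forces `σ = h`. -/
noncomputable def FE (U h : ZFSet.{u}) : ZFSet.{u} := recZ (FΓ U) h

theorem FΓ_DF {U : ZFSet.{u}} (hU : U ∈ LL) : DF (LL : Set ZFSet.{u}) LL fun v => FΓ U (v 0) (v 1) := by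
  have C : Ctx (LL : Set ZFSet.{u}) LL := ctx_LL
  have hUF := dfn_prm_LL hU
  have hC := dfn_prm_LL Cd_mem_LL.{u}
  apply DF_LL
  · intro v hv y hy
    obtain ⟨σ, hσ, p, hp, rfl, -⟩ := ZFSet.mem_pairSep.1 hy
    exact good_LL.pair (LL_trans hU hσ) (LL_trans Cd_mem_LL hp)
  · have hIn : ∀ {a b c d : (ℕ → ZFSet.{u}) → ZFSet.{u}}, DF LL LL a → DF LL LL b → DF LL LL c →
        DF LL LL d → Dfn (LL : Set ZFSet.{u}) LL fun v => InAt (a v) (b v) (c v) (d v) := by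
      intro a b c d ha hb hc hd
      exact ((C.mem (C.pair hb.shift (C.var 0)) ha.shift).and
        (C.mem (C.pair hc.shift hd.shift) (C.var 0))).ex
    -- v 0 = p, v 1 = σ, v 2 = element, v 3 = h, v 4 = f
    have hA : Dfn (LL : Set ZFSet.{u}) LL fun v => ClA (v 3) (v 4) (v 1) (v 0) := by
      have h1 : Dfn (LL : Set ZFSet.{u}) LL fun v => ∀ σ' ∈ LL, ∀ q ∈ Cd,
          ZFSet.pair σ' q ∈ v 1 → ∀ r ∈ Cd, v 0 ⊆ r → q ⊆ r →
          ∃ s ∈ Cd, r ⊆ s ∧ ∃ h' ∈ v 3, InAt (v 4) h' σ' s := by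
        refine Dfn.all (C.ball hC ((C.mem (C.pair (C.var 1) (C.var 0)) (C.var 3)).imp
          (C.ball hC ((C.subset (C.var 3) (C.var 0)).imp ((C.subset (C.var 1) (C.var 0)).imp
          (C.bex hC ((C.subset (C.var 1) (C.var 0)).and (C.bex (C.var 7)
            (hIn (C.var 9) (C.var 0) (C.var 4) (C.var 1))))))))))
      exact h1
    have hB : Dfn (LL : Set ZFSet.{u}) LL fun v => ClB (v 3) (v 4) (v 1) (v 0) := by
      have h1 : Dfn (LL : Set ZFSet.{u}) LL fun v => ∀ h' ∈ v 3, ∀ r ∈ Cd, v 0 ⊆ r →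
          ∃ s ∈ Cd, r ⊆ s ∧ ∃ σ' ∈ LL, ∃ q ∈ Cd, ZFSet.pair σ' q ∈ v 1 ∧
          q ⊆ s ∧ InAt (v 4) h' σ' s := by
        refine C.ball (C.var 3) (C.ball hC ((C.subset (C.var 2) (C.var 0)).imp
          (C.bex hC ((C.subset (C.var 1) (C.var 0)).and (Dfn.ex (C.bex hC
            ((C.mem (C.pair (C.var 1) (C.var 0)) (C.var 6)).and ((C.subset (C.var 0) (C.var 2)).and
              (hIn (C.var 9) (C.var 4) (C.var 1) (C.var 2))))))))))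
      exact h1
    have h2 : Dfn (LL : Set ZFSet.{u}) LL fun v => ∃ σ ∈ U, ∃ p ∈ Cd, v 0 = ZFSet.pair σ p ∧
        ClA (v 1) (v 2) σ p ∧ ClB (v 1) (v 2) σ p :=
      C.bex hUF (C.bex hC ((C.eq (C.var 2) (C.pair (C.var 1) (C.var 0))).and (hA.and hB)))
    exact h2.congr fun v _ => (ZFSet.mem_pairSep).symm

theorem FE_DF {U : ZFSet.{u}} (hU : U ∈ LL) : DF (LL : Set ZFSet.{u}) LL fun v => FE U (v 0) :=
  recZ_DF (FΓ_DF hU)

theorem FE_mem {U h : ZFSet.{u}} (hU : U ∈ LL) (hh : h ∈ LL) : FE U h ∈ LL :=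
  (FE_DF hU).mem (fun _ => h) fun _ => hh

theorem inAt_res {U h h' σ s : ZFSet.{u}} (hU : U ∈ LL) (hh : h ∈ LL) :
    InAt (resZ (FΓ U) h) h' σ s ↔ h' ∈ h ∧ ZFSet.pair σ s ∈ FE U h' := by
  unfold InAt
  constructor
  · rintro ⟨y, _, h1, h2⟩
    rw [pair_mem_resZ] at h1
    obtain ⟨h1, rfl⟩ := h1
    exact ⟨h1, h2⟩
  · rintro ⟨h1, h2⟩
    exact ⟨FE U h', FE_mem hU (LL_trans hh h1), pair_mem_resZ.2 ⟨h1, rfl⟩, h2⟩

/-- The recursive clause of the forcing relation. -/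
theorem mem_FE {U h σ p : ZFSet.{u}} (hU : U ∈ LL) (hh : h ∈ LL) :
    ZFSet.pair σ p ∈ FE U h ↔ σ ∈ U ∧ IsCond p ∧
      (∀ σ' q, ZFSet.pair σ' q ∈ σ → IsCond q → ∀ r, IsCond r → p ⊆ r → q ⊆ r →
        ∃ s, IsCond s ∧ r ⊆ s ∧ ∃ h' ∈ h, ZFSet.pair σ' s ∈ FE U h') ∧
      (∀ h' ∈ h, ∀ r, IsCond r → p ⊆ r → ∃ s, IsCond s ∧ r ⊆ s ∧ ∃ σ' q, ZFSet.pair σ' q ∈ σ ∧
        IsCond q ∧ q ⊆ s ∧ ZFSet.pair σ' s ∈ FE U h') := by
  have e : FE U h = FΓ U h (resZ (FΓ U) h) := recZ_eq _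
  rw [e, mem_FΓ]
  constructor
  · rintro ⟨σ₀, hσ₀, p₀, hp₀, h1, hA, hB⟩
    rw [ZFSet.pair_inj] at h1
    obtain ⟨rfl, rfl⟩ := h1
    refine ⟨hσ₀, mem_Cd.1 hp₀, ?_, ?_⟩
    · intro σ' q h2 hq r hr hpr hqr
      have hσL : σ ∈ LL := LL_trans hU hσ₀
      obtain ⟨s, hs, hrs, h', hh', hin⟩ := hA σ' (good_LL.of_pair_mem hσL h2).1 q (mem_Cd.2 hq) h2 r
        (mem_Cd.2 hr) hpr hqr
      rw [inAt_res hU hh] at hin
      exact ⟨s, mem_Cd.1 hs, hrs, h', hh', hin.2⟩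
    · intro h' hh' r hr hpr
      obtain ⟨s, hs, hrs, σ', hσ', q, hq, h3, hqs, hin⟩ := hB h' hh' r (mem_Cd.2 hr) hpr
      rw [inAt_res hU hh] at hin
      exact ⟨s, mem_Cd.1 hs, hrs, σ', q, h3, mem_Cd.1 hq, hqs, hin.2⟩
  · rintro ⟨hσ, hp, hA, hB⟩
    have hσL : σ ∈ LL := LL_trans hU hσ
    refine ⟨σ, hσ, p, mem_Cd.2 hp, rfl, ?_, ?_⟩
    · intro σ' _ q hq h2 r hr hpr hqr
      obtain ⟨s, hs, hrs, h', hh', hin⟩ := hA σ' q h2 (mem_Cd.1 hq) r (mem_Cd.1 hr) hpr hqr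
      exact ⟨s, mem_Cd.2 hs, hrs, h', hh', (inAt_res hU hh).2 ⟨hh', hin⟩⟩
    · intro h' hh' r hr hpr
      obtain ⟨s, hs, hrs, σ', q, h3, hq, hqs, hin⟩ := hB h' hh' r (mem_Cd.1 hr) hpr
      exact ⟨s, mem_Cd.2 hs, hrs, σ', (good_LL.of_pair_mem hσL h3).1, q, mem_Cd.2 hq, h3, hqs,
        (inAt_res hU hh).2 ⟨hh', hin⟩⟩

theorem FE_isCond {U h σ p : ZFSet.{u}} (hU : U ∈ LL) (hh : h ∈ LL)
    (h1 : ZFSet.pair σ p ∈ FE U h) : IsCond p := ((mem_FE hU hh).1 h1).2.1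

theorem FE_mono {U h σ p p' : ZFSet.{u}} (hU : U ∈ LL) (hh : h ∈ LL)
    (h1 : ZFSet.pair σ p ∈ FE U h) (hp' : IsCond p') (hpp : p ⊆ p') :
    ZFSet.pair σ p' ∈ FE U h := by
  rw [mem_FE hU hh] at h1 ⊢
  obtain ⟨hσ, hp, hA, hB⟩ := h1
  refine ⟨hσ, hp', ?_, ?_⟩
  · intro σ' q h2 hq r hr hpr hqr
    exact hA σ' q h2 hq r hr (fun z hz => hpr (hpp hz)) hqr
  · intro h' hh' r hr hpr
    exact hB h' hh' r hr (fun z hz => hpr (hpp hz))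

theorem generic_mem {x : ℕ → ℕ} (hx : IsCohen.{u} x) {P : ZFSet.{u} → Prop}
    (hD : Dfn LL LL fun v => P (v 0))
    (hdense : ∀ p, IsCond p → ∃ q, IsCond q ∧ p ⊆ q ∧ P q) :
    ∃ q, IsCond q ∧ q ⊆ code x ∧ P q := by
  obtain ⟨D, hDL, hDm⟩ := exists_LL_set (P := fun q => IsCond q ∧ P q) (fun _ h => h.1.bound)
    (fun _ h => h.1.mem_LL) ((ctx_LL.isCond (ctx_LL.var 0)).and hD)
  obtain ⟨q, hq, _, h2⟩ := hx D hDL (fun p hp => by
    obtain ⟨q, h1, h2, h3⟩ := hdense p hp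
    exact ⟨q, (hDm q).2 ⟨h1, h3⟩, h1, h2⟩)
  have := (hDm q).1 hq
  exact ⟨q, this.1, h2, this.2⟩

/-- **The truth lemma for `τ = h`.** -/
theorem truth {x : ℕ → ℕ} (hx : IsCohen.{u} x) {U : ZFSet.{u}} (hU : U ∈ LL)
    (hUt : U.IsTransitive) (h : ZFSet.{u}) : h ∈ LL → ∀ σ ∈ U,
    (val (code x) σ = h ↔ ∃ p, p ⊆ code x ∧ ZFSet.pair σ p ∈ FE U h) := by
  have C : Ctx (LL : Set ZFSet.{u}) LL := ctx_LL
  have hpt : ∀ {σ σ' q : ZFSet.{u}}, σ ∈ U → ZFSet.pair σ' q ∈ σ → σ' ∈ U := by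
    intro σ σ' q hσ hq
    have h1 : ZFSet.pair σ' q ∈ U := hUt.mem_trans hq hσ
    have h2 : ({σ', q} : ZFSet) ∈ U := hUt.mem_trans (by simp [ZFSet.pair]) h1
    exact hUt.mem_trans (by simp) h2
  induction h using ZFSet.inductionOn with
  | h h ih =>
  intro hh σ hσ
  have hσL : σ ∈ LL := LL_trans hU hσ
  have hFE : ∀ h' ∈ h, DF (LL : Set ZFSet.{u}) LL fun _ => FE U h' := fun h' hh' =>
    dfn_prm_LL (FE_mem hU (LL_trans hh hh'))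
  have hFE' : DF (LL : Set ZFSet.{u}) LL fun v => FE U (v 0) := FE_DF hU
  constructor
  · intro hval
    -- the dense set D3
    obtain ⟨p, hp, hpx, hP⟩ := generic_mem hx (P := fun p => ZFSet.pair σ p ∈ FE U h ∨
      (∃ σ' ∈ LL, ∃ q ∈ Cd, ZFSet.pair σ' q ∈ σ ∧ q ⊆ p ∧ ∀ s ∈ Cd, p ⊆ s → ∀ h' ∈ h,
        ¬ ZFSet.pair σ' s ∈ FE U h') ∨
      (∃ h' ∈ h, ∀ s ∈ Cd, p ⊆ s → ∀ σ' ∈ LL, ∀ q ∈ Cd, ZFSet.pair σ' q ∈ σ → q ⊆ s →
        ¬ ZFSet.pair σ' s ∈ FE U h'))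
      (by
        have hC := dfn_prm_LL Cd_mem_LL.{u}
        have h1 : Dfn (LL : Set ZFSet.{u}) LL fun v => ZFSet.pair σ (v 0) ∈ FE U h :=
          C.mem (C.pair (dfn_prm_LL hσL) (C.var 0)) (dfn_prm_LL (FE_mem hU hh))
        have h2 : Dfn (LL : Set ZFSet.{u}) LL fun v => ∃ σ' ∈ LL, ∃ q ∈ Cd,
            ZFSet.pair σ' q ∈ σ ∧ q ⊆ v 0 ∧ ∀ s ∈ Cd, v 0 ⊆ s → ∀ h' ∈ h,
            ¬ ZFSet.pair σ' s ∈ FE U h' := by
          have h0 : Dfn (LL : Set ZFSet.{u}) LL fun v => ZFSet.pair (v 3) (v 1) ∈ FE U (v 0) :=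
            C.mem (C.pair (C.var 3) (C.var 1)) hFE'
          exact Dfn.ex (C.bex hC ((C.mem (C.pair (C.var 1) (C.var 0)) (dfn_prm_LL hσL)).and
            ((C.subset (C.var 0) (C.var 2)).and (C.ball hC ((C.subset (C.var 3) (C.var 0)).imp
            (C.ball (dfn_prm_LL hh) h0.not))))))
        have h3 : Dfn (LL : Set ZFSet.{u}) LL fun v => ∃ h' ∈ h, ∀ s ∈ Cd, v 0 ⊆ s → ∀ σ' ∈ LL,
            ∀ q ∈ Cd, ZFSet.pair σ' q ∈ σ → q ⊆ s → ¬ ZFSet.pair σ' s ∈ FE U h' := by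
          have h0 : Dfn (LL : Set ZFSet.{u}) LL fun v => ZFSet.pair (v 1) (v 2) ∈ FE U (v 3) :=
            C.mem (C.pair (C.var 1) (C.var 2)) (hFE'.rename fun _ => 3)
          exact C.bex (dfn_prm_LL hh) (C.ball hC ((C.subset (C.var 2) (C.var 0)).imp
            (Dfn.all (C.ball hC ((C.mem (C.pair (C.var 1) (C.var 0)) (dfn_prm_LL hσL)).imp
            ((C.subset (C.var 0) (C.var 2)).imp h0.not))))))
        exact h1.or (h2.or h3))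
      (by
        intro t ht
        by_cases hcl : ZFSet.pair σ t ∈ FE U h
        · exact ⟨t, ht, fun _ hz => hz, Or.inl hcl⟩
        · rw [mem_FE hU hh] at hcl
          by_cases hA : (∀ σ' q, ZFSet.pair σ' q ∈ σ → IsCond q → ∀ r, IsCond r → t ⊆ r → q ⊆ r →
              ∃ s, IsCond s ∧ r ⊆ s ∧ ∃ h' ∈ h, ZFSet.pair σ' s ∈ FE U h')
          · have hB : ¬ (∀ h' ∈ h, ∀ r, IsCond r → t ⊆ r → ∃ s, IsCond s ∧ r ⊆ s ∧ ∃ σ' q,
                ZFSet.pair σ' q ∈ σ ∧ IsCond q ∧ q ⊆ s ∧ ZFSet.pair σ' s ∈ FE U h') :=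
              fun hB => hcl ⟨hσ, ht, hA, hB⟩
            simp only [not_forall] at hB
            obtain ⟨h', hh', r, hr, htr, hB⟩ := hB
            refine ⟨r, hr, htr, Or.inr (Or.inr ⟨h', hh', ?_⟩)⟩
            intro s hs hrs σ' _ q hq hσ' hqs hin
            exact hB ⟨s, mem_Cd.1 hs, hrs, σ', q, hσ', mem_Cd.1 hq, hqs, hin⟩
          · simp only [not_forall] at hA
            obtain ⟨σ', q, hσ', hq, r, hr, htr, hqr, hA⟩ := hA
            refine ⟨r, hr, htr, Or.inr (Or.inl ⟨σ', (good_LL.of_pair_mem hσL hσ').1, q,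
              mem_Cd.2 hq, hσ', hqr, ?_⟩)⟩
            intro s hs hrs h' hh' hin
            exact hA ⟨s, mem_Cd.1 hs, hrs, h', hh', hin⟩)
    rcases hP with hP | ⟨σ', _, q, hq, hσ', hqp, hP⟩ | ⟨h', hh', hP⟩
    · exact ⟨p, hpx, hP⟩
    · exfalso
      have hqx : q ⊆ code x := fun z hz => hpx (hqp hz)
      have h1 : val (code x) σ' ∈ h := by
        rw [← hval]
        exact mem_val.2 ⟨σ', q, hσ', mem_Cd.1 hq, hqx, rfl⟩
      obtain ⟨s, hsx, hs⟩ := (ih _ h1 (LL_trans hh h1) σ' (hpt hσ hσ')).1 rfl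
      have hsC := FE_isCond hU (LL_trans hh h1) hs
      have hu := hp.union hsC hpx hsx
      exact hP (p ∪ s) (mem_Cd.2 hu) (fun z hz => ZFSet.mem_union.2 (Or.inl hz)) _ h1
        (FE_mono hU (LL_trans hh h1) hs hu fun z hz => ZFSet.mem_union.2 (Or.inr hz))
    · exfalso
      have h1 : h' ∈ val (code x) σ := by rw [hval]; exact hh'
      obtain ⟨σ', q, hσ', hq, hqx, he⟩ := mem_val.1 h1
      obtain ⟨s, hsx, hs⟩ := (ih _ hh' (LL_trans hh hh') σ' (hpt hσ hσ')).1 he.symm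
      have hsC := FE_isCond hU (LL_trans hh hh') hs
      have hu := hp.union hsC hpx hsx
      have hux : p ∪ s ⊆ code x := by
        intro z hz
        rcases ZFSet.mem_union.1 hz with hz | hz
        · exact hpx hz
        · exact hsx hz
      have hw := hu.union hq hux hqx
      exact hP (p ∪ s ∪ q) (mem_Cd.2 hw)
        (fun z hz => ZFSet.mem_union.2 (Or.inl (ZFSet.mem_union.2 (Or.inl hz)))) σ'
        (good_LL.of_pair_mem hσL hσ').1 q (mem_Cd.2 hq) hσ'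
        (fun z hz => ZFSet.mem_union.2 (Or.inr hz))
        (FE_mono hU (LL_trans hh hh') hs hw
          fun z hz => ZFSet.mem_union.2 (Or.inl (ZFSet.mem_union.2 (Or.inr hz))))
  · rintro ⟨p, hpx, hP⟩
    obtain ⟨-, hp, hA, hB⟩ := (mem_FE hU hh).1 hP
    have hC := dfn_prm_LL Cd_mem_LL.{u}
    apply ZFSet.ext
    intro y
    constructor
    · intro hy
      obtain ⟨σ', q, hσ', hq, hqx, rfl⟩ := mem_val.1 hy
      have hσ'L := (good_LL.of_pair_mem hσL hσ').1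
      obtain ⟨s, hs, hsx, hS⟩ := generic_mem hx (P := fun s => (∃ h' ∈ h,
        ZFSet.pair σ' s ∈ FE U h') ∨ ¬ ∃ r ∈ Cd, s ⊆ r ∧ p ⊆ r ∧ q ⊆ r)
        (by
          have h1 : Dfn (LL : Set ZFSet.{u}) LL fun v => ∃ h' ∈ h,
              ZFSet.pair σ' (v 0) ∈ FE U h' := by
            have h0 : Dfn (LL : Set ZFSet.{u}) LL fun v => ZFSet.pair σ' (v 1) ∈ FE U (v 0) :=
              C.mem (C.pair (dfn_prm_LL hσ'L) (C.var 1)) hFE'
            exact C.bex (dfn_prm_LL hh) h0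
          have h2 : Dfn (LL : Set ZFSet.{u}) LL fun v => ∃ r ∈ Cd, v 0 ⊆ r ∧ p ⊆ r ∧ q ⊆ r := by
            exact C.bex hC ((C.subset (C.var 1) (C.var 0)).and ((C.subset (dfn_prm_LL hp.mem_LL)
              (C.var 0)).and (C.subset (dfn_prm_LL hq.mem_LL) (C.var 0))))
          exact h1.or h2.not)
        (by
          intro t ht
          by_cases hr : ∃ r ∈ Cd, t ⊆ r ∧ p ⊆ r ∧ q ⊆ r
          · obtain ⟨r, hr, htr, hpr, hqr⟩ := hr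
            obtain ⟨s, hs, hrs, h', hh', hin⟩ := hA σ' q hσ' hq r (mem_Cd.1 hr) hpr hqr
            exact ⟨s, hs, fun z hz => hrs (htr hz), Or.inl ⟨h', hh', hin⟩⟩
          · exact ⟨t, ht, fun _ hz => hz, Or.inr hr⟩)
      rcases hS with ⟨h', hh', hin⟩ | hS
      · rw [(ih h' hh' (LL_trans hh hh') σ' (hpt hσ hσ')).2 ⟨s, hsx, hin⟩]
        exact hh'
      · exfalso
        apply hS
        have hu := hs.union hp hsx hpx
        have hux : s ∪ p ⊆ code x := by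
          intro z hz
          rcases ZFSet.mem_union.1 hz with hz | hz
          · exact hsx hz
          · exact hpx hz
        have hw := hu.union hq hux hqx
        exact ⟨s ∪ p ∪ q, mem_Cd.2 hw,
          fun z hz => ZFSet.mem_union.2 (Or.inl (ZFSet.mem_union.2 (Or.inl hz))),
          fun z hz => ZFSet.mem_union.2 (Or.inl (ZFSet.mem_union.2 (Or.inr hz))),
          fun z hz => ZFSet.mem_union.2 (Or.inr hz)⟩
    · intro hy
      obtain ⟨s, hs, hsx, hS⟩ := generic_mem hx (P := fun s => (∃ σ' ∈ LL, ∃ q ∈ Cd,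
        ZFSet.pair σ' q ∈ σ ∧ q ⊆ s ∧ ZFSet.pair σ' s ∈ FE U y) ∨ ¬ ∃ r ∈ Cd, s ⊆ r ∧ p ⊆ r)
        (by
          have h1 : Dfn (LL : Set ZFSet.{u}) LL fun v => ∃ σ' ∈ LL, ∃ q ∈ Cd,
              ZFSet.pair σ' q ∈ σ ∧ q ⊆ v 0 ∧ ZFSet.pair σ' (v 0) ∈ FE U y := by
            exact Dfn.ex (C.bex hC ((C.mem (C.pair (C.var 1) (C.var 0)) (dfn_prm_LL hσL)).and
              ((C.subset (C.var 0) (C.var 2)).and
                (C.mem (C.pair (C.var 1) (C.var 2)) (hFE y hy)))))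
          have h2 : Dfn (LL : Set ZFSet.{u}) LL fun v => ∃ r ∈ Cd, v 0 ⊆ r ∧ p ⊆ r := by
            exact C.bex hC ((C.subset (C.var 1) (C.var 0)).and (C.subset (dfn_prm_LL hp.mem_LL)
              (C.var 0)))
          exact h1.or h2.not)
        (by
          intro t ht
          by_cases hr : ∃ r ∈ Cd, t ⊆ r ∧ p ⊆ r
          · obtain ⟨r, hr, htr, hpr⟩ := hr
            obtain ⟨s, hs, hrs, σ', q, hσ', hq, hqs, hin⟩ := hB y hy r (mem_Cd.1 hr) hpr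
            exact ⟨s, hs, fun z hz => hrs (htr hz), Or.inl ⟨σ', (good_LL.of_pair_mem hσL hσ').1, q,
              mem_Cd.2 hq, hσ', hqs, hin⟩⟩
          · exact ⟨t, ht, fun _ hz => hz, Or.inr hr⟩)
      rcases hS with ⟨σ', _, q, hq, hσ', hqs, hin⟩ | hS
      · have he := (ih y hy (LL_trans hh hy) σ' (hpt hσ hσ')).2 ⟨s, hsx, hin⟩
        exact mem_val.2 ⟨σ', q, hσ', mem_Cd.1 hq, fun z hz => hsx (hqs hz), he.symm⟩
      · exfalso
        apply hS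
        have hu := hs.union hp hsx hpx
        exact ⟨s ∪ p, mem_Cd.2 hu, fun z hz => ZFSet.mem_union.2 (Or.inl hz),
          fun z hz => ZFSet.mem_union.2 (Or.inr hz)⟩

end Pool.Agent.Helper88.SetTh
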