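import Pool.Agent.Helper88.SetTh.IntDef2

/-!
# Definability of the constructible hierarchy inside classes containing `L`
-/

set_option autoImplicit false

universe u

namespace Pool.Agent.Helper88.SetTh

/-- `f` is an initial segment of the constructible hierarchy, in the sense of `N`. -/
def HierOK (N : Set ZFSet.{u}) (f : ZFSet.{u}) : Prop :=
  ∀ β ∈ N, ∀ Y ∈ N, ZFSet.pair β Y ∈ f → β.IsOrdinal ∧ (∀ γ ∈ β, ∃ U ∈ N, ZFSet.pair γ U ∈ f) ∧
    ∀ x ∈ N, (x ∈ Y ↔ ∃ γ ∈ β, ∃ U ∈ N, ZFSet.pair γ U ∈ f ∧ InDef N x U)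

namespace Ctx

variable {N Prm : Set ZFSet.{u}} (C : Ctx N Prm)

include C

theorem hierOK : Dfn N Prm fun v => HierOK N (v 0) := by
  have h0 : Dfn N Prm fun v => (v 1).IsOrdinal := isOrdinal_dfn C.good C.ne (C.var 1)
  have h1 : Dfn N Prm fun v => InDef N (v 2) (v 0) := C.inDef.rename fun i => if i = 0 then 2 else 0
  exact (((C.mem (C.pair (C.var 1) (C.var 0)) (C.var 2)).imp (h0.and
    ((C.ball (C.var 1) (C.mem (C.pair (C.var 1) (C.var 0)) (C.var 4)).ex).and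
      ((C.mem (C.var 0) (C.var 1)).iff (C.bex (C.var 2)
        ((C.mem (C.pair (C.var 1) (C.var 0)) (C.var 5)).and
          (C.inDef.rename fun i => if i = 0 then 2 else 0)).ex)).all))).all).all

theorem toZFSet_mem (o : Ordinal.{u}) : o.toZFSet ∈ N := C.sub (toZFSet_mem_LL o)

theorem hier_sound {f : ZFSet.{u}} (hf : f ∈ N) (h : HierOK N f) : ∀ β Y : ZFSet.{u},
    ZFSet.pair β Y ∈ f → Y = Lev β.rank := by
  intro β
  induction β using ZFSet.inductionOn with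
  | h β ih =>
    intro Y hY
    have hm := C.good.of_pair_mem hf hY
    obtain ⟨ho, h1, h2⟩ := h β hm.1 Y hm.2 hY
    apply ZFSet.ext
    intro x
    constructor
    · intro hx
      obtain ⟨γ, hγ, U, _, hU, hd⟩ := (h2 x (C.good.trans hm.2 hx)).1 hx
      have e := ih γ hγ U hU
      subst e
      rw [C.inDef_iff (Lev_mem_LL _) (isTransitive_Lev _)] at hd
      exact mem_Lev.2 ⟨_, ZFSet.rank_lt_of_mem hγ, hd⟩
    · intro hx
      obtain ⟨a, ha, hd⟩ := mem_Lev.1 hx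
      have ha' : a.toZFSet ∈ β := by
        rw [← ho.toZFSet_rank_eq]
        exact Ordinal.toZFSet_mem_toZFSet_iff.2 ha
      obtain ⟨U, hUN, hU⟩ := h1 _ ha'
      have e := ih _ ha' U hU
      rw [Ordinal.rank_toZFSet] at e
      subst e
      rw [h2 x (C.sub ⟨_, hx⟩)]
      exact ⟨_, ha', _, hUN, hU, (C.inDef_iff (Lev_mem_LL _) (isTransitive_Lev _)).2 hd⟩

end Ctx

/-- The initial segment of the hierarchy up to and including `a`. -/
noncomputable def seg (a : Ordinal.{u}) : ZFSet.{u} :=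
  ZFSet.range fun b : Set.Iic a => ZFSet.pair b.1.toZFSet (Lev b.1)

theorem mem_seg {a : Ordinal.{u}} {z : ZFSet.{u}} :
    z ∈ seg a ↔ ∃ b ≤ a, z = ZFSet.pair b.toZFSet (Lev b) := by
  unfold seg
  rw [ZFSet.mem_range]
  constructor
  · rintro ⟨⟨b, hb⟩, rfl⟩
    exact ⟨b, hb, rfl⟩
  · rintro ⟨b, hb, rfl⟩
    exact ⟨⟨b, hb⟩, rfl⟩

theorem pair_mem_seg {a : Ordinal.{u}} {x y : ZFSet.{u}} :
    ZFSet.pair x y ∈ seg a ↔ ∃ b ≤ a, x = b.toZFSet ∧ y = Lev b := by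
  rw [mem_seg]
  simp only [ZFSet.pair_inj]

theorem hierOK_seg {N Prm : Set ZFSet.{u}} (C : Ctx N Prm) (a : Ordinal.{u}) :
    HierOK N (seg a) := by
  intro β _ Y _ h
  obtain ⟨b, hb, rfl, rfl⟩ := pair_mem_seg.1 h
  refine ⟨ZFSet.isOrdinal_toZFSet b, ?_, ?_⟩
  · intro γ hγ
    obtain ⟨c, hc, rfl⟩ := Ordinal.mem_toZFSet_iff.1 hγ
    exact ⟨Lev c, C.sub (Lev_mem_LL c), pair_mem_seg.2 ⟨c, hc.le.trans hb, rfl, rfl⟩⟩
  · intro x _
    rw [mem_Lev]
    constructor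
    · rintro ⟨c, hc, hx⟩
      exact ⟨c.toZFSet, Ordinal.toZFSet_mem_toZFSet_iff.2 hc, Lev c, C.sub (Lev_mem_LL c),
        pair_mem_seg.2 ⟨c, hc.le.trans hb, rfl, rfl⟩,
        (C.inDef_iff (Lev_mem_LL c) (isTransitive_Lev c)).2 hx⟩
    · rintro ⟨γ, hγ, U, _, hU, hd⟩
      obtain ⟨c, hc, rfl⟩ := Ordinal.mem_toZFSet_iff.1 hγ
      obtain ⟨c', _, h1, rfl⟩ := pair_mem_seg.1 hU
      have := Ordinal.toZFSet_injective h1
      subst this
      exact ⟨c, hc, (C.inDef_iff (Lev_mem_LL c) (isTransitive_Lev c)).1 hd⟩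

theorem seg_mem_LL (a : Ordinal.{u}) : seg a ∈ LL := by
  have C : Ctx (LL : Set ZFSet.{u}) LL := ctx_LL
  induction a using WellFoundedLT.induction with
  | ind a ih =>
    let g : ZFSet.{u} := ZFSet.range fun b : Set.Iio a => ZFSet.pair b.1.toZFSet (Lev b.1)
    have hg : ∀ z, z ∈ g ↔ ∃ b < a, z = ZFSet.pair b.toZFSet (Lev b) := by
      intro z
      rw [ZFSet.mem_range]
      constructor
      · rintro ⟨⟨b, hb⟩, rfl⟩
        exact ⟨b, hb, rfl⟩
      · rintro ⟨b, hb, rfl⟩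
        exact ⟨⟨b, hb⟩, rfl⟩
    have hgL : g ∈ LL := by
      apply mem_LL_of_dfn
      · intro y hy
        obtain ⟨b, hb, rfl⟩ := (hg y).1 hy
        exact good_LL.pair (toZFSet_mem_LL b) (Lev_mem_LL b)
      · have h1 : Dfn (LL : Set ZFSet.{u}) LL fun v => ∃ f ∈ LL, HierOK LL f ∧ v 0 ∈ f ∧
            ∃ b ∈ a.toZFSet, ∃ Y ∈ LL, v 0 = ZFSet.pair b Y :=
          (C.hierOK.and ((C.mem (C.var 1) (C.var 0)).and
            (C.bex (dfn_prm_LL (toZFSet_mem_LL a)) (C.eq (C.var 3)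
              (C.pair (C.var 1) (C.var 0))).ex))).ex
        refine h1.congr fun v _ => ?_
        rw [hg]
        constructor
        · rintro ⟨f, hf, hok, hv, b, hb, Y, _, e⟩
          obtain ⟨c, hc, rfl⟩ := Ordinal.mem_toZFSet_iff.1 hb
          rw [e] at hv
          have := C.hier_sound hf hok _ _ hv
          rw [Ordinal.rank_toZFSet] at this
          exact ⟨c, hc, by rw [e, this]⟩
        · rintro ⟨b, hb, e⟩
          exact ⟨seg b, ih b hb, hierOK_seg C b, e ▸ pair_mem_seg.2 ⟨b, le_rfl, rfl, rfl⟩,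
            b.toZFSet, Ordinal.toZFSet_mem_toZFSet_iff.2 hb, Lev b, Lev_mem_LL b, e⟩
    have : seg a = insert (ZFSet.pair a.toZFSet (Lev a)) g := by
      apply ZFSet.ext
      intro z
      rw [mem_seg, ZFSet.mem_insert_iff, hg]
      constructor
      · rintro ⟨b, hb, rfl⟩
        rcases hb.eq_or_lt with rfl | hb
        · exact Or.inl rfl
        · exact Or.inr ⟨b, hb, rfl⟩
      · rintro (rfl | ⟨b, hb, rfl⟩)
        · exact ⟨a, le_rfl, rfl⟩
        · exact ⟨b, hb.le, rfl⟩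
    rw [this]
    exact good_LL.insert (good_LL.pair (toZFSet_mem_LL a) (Lev_mem_LL a)) hgL

/-- `x` is constructible, in the sense of `N`. -/
def InLL (N : Set ZFSet.{u}) (x : ZFSet.{u}) : Prop :=
  ∃ f ∈ N, ∃ β ∈ N, ∃ Y ∈ N, HierOK N f ∧ ZFSet.pair β Y ∈ f ∧ x ∈ Y

namespace Ctx

variable {N Prm : Set ZFSet.{u}} (C : Ctx N Prm)

include C

theorem inLL_iff {x : ZFSet.{u}} : InLL N x ↔ x ∈ LL := by
  constructor
  · rintro ⟨f, hf, β, _, Y, _, hok, hY, hx⟩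
    have := C.hier_sound hf hok β Y hY
    subst this
    exact ⟨_, hx⟩
  · rintro ⟨o, ho⟩
    exact ⟨seg o, C.sub (seg_mem_LL o), o.toZFSet, C.toZFSet_mem o, Lev o, C.sub (Lev_mem_LL o),
      hierOK_seg C o, pair_mem_seg.2 ⟨o, le_rfl, rfl, rfl⟩, ho⟩

/-- **`L` is definable over `N`.** -/
theorem memLL {f : (ℕ → ZFSet.{u}) → ZFSet.{u}} (hf : DF N Prm f) :
    Dfn N Prm fun v => f v ∈ LL := by
  have h1 : Dfn N Prm fun v => HierOK N (v 2) := C.hierOK.rename fun _ => 2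
  have h2 : Dfn N Prm fun v => InLL N (v 0) :=
    (((h1.and ((C.mem (C.pair (C.var 1) (C.var 0)) (C.var 2)).and
      (C.mem (C.var 3) (C.var 0)))).ex).ex).ex
  exact (Dfn.comp1 (R := InLL N) h2 hf).congr fun v _ => C.inLL_iff

end Ctx

end Pool.Agent.Helper88.SetTh
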