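import Pool.Agent.Helper88.SetTh.Basic

/-!
# Definability of the definable power set
-/

set_option autoImplicit false

universe u

namespace Pool.Agent.Helper88.SetTh

/-! ### Formulas with few free variables -/

/-- The free variables are among the first `m`. -/
def Fml.fv : Fml → ℕ → Prop
  | .mem i j, m => i < m ∧ j < m
  | .eq i j, m => i < m ∧ j < m
  | .neg φ, m => φ.fv m
  | .and φ ψ, m => φ.fv m ∧ ψ.fv m
  | .all φ, m => φ.fv (m + 1)

theorem fv_mono (φ : Fml) : ∀ {m n : ℕ}, m ≤ n → φ.fv m → φ.fv n := by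
  induction φ with
  | mem i j => intro m n h; simp only [Fml.fv]; omega
  | eq i j => intro m n h; simp only [Fml.fv]; omega
  | neg φ ih => intro m n h; exact ih h
  | and φ ψ ih1 ih2 => intro m n h; exact fun ⟨a, b⟩ => ⟨ih1 h a, ih2 h b⟩
  | all φ ih => intro m n h; exact ih (Nat.succ_le_succ h)

theorem exists_fv (φ : Fml) : ∃ m, φ.fv m := by
  induction φ with
  | mem i j => exact ⟨max i j + 1, by simp only [Fml.fv]; omega⟩
  | eq i j => exact ⟨max i j + 1, by simp only [Fml.fv]; omega⟩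
  | neg φ ih => exact ih
  | and φ ψ ih1 ih2 =>
    obtain ⟨m, hm⟩ := ih1
    obtain ⟨n, hn⟩ := ih2
    exact ⟨max m n, fv_mono _ (le_max_left _ _) hm, fv_mono _ (le_max_right _ _) hn⟩
  | all φ ih =>
    obtain ⟨m, hm⟩ := ih
    exact ⟨m, fv_mono φ (Nat.le_succ m) hm⟩

theorem sat_congr' (M : Set ZFSet.{u}) (φ : Fml) : ∀ {m : ℕ} {v w : ℕ → ZFSet.{u}}, φ.fv m →
    (∀ i < m, v i = w i) → (Sat M φ v ↔ Sat M φ w) := by
  induction φ with
  | mem i j =>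
    intro m v w hf h
    simp only [Sat]
    rw [h i hf.1, h j hf.2]
  | eq i j =>
    intro m v w hf h
    simp only [Sat]
    rw [h i hf.1, h j hf.2]
  | neg φ ih => intro m v w hf h; simp only [Sat, ih hf h]
  | and φ ψ ih1 ih2 => intro m v w hf h; simp only [Sat, ih1 hf.1 h, ih2 hf.2 h]
  | all φ ih =>
    intro m v w hf h
    simp only [Sat]
    refine forall₂_congr fun x _ => ih hf fun i hi => ?_
    cases i with
    | zero => rfl
    | succ i => exact h i (by omega)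

/-! ### Finite sequences -/

/-- The finite sequence `w 0, ..., w (m - 1)`, as a set of pairs. -/
noncomputable def tup : ℕ → (ℕ → ZFSet.{u}) → ZFSet.{u}
  | 0, _ => ∅
  | m + 1, w => insert (ZFSet.pair (nat m) (w m)) (tup m w)

theorem mem_tup {m : ℕ} {w : ℕ → ZFSet.{u}} {z : ZFSet.{u}} :
    z ∈ tup m w ↔ ∃ i < m, z = ZFSet.pair (nat i) (w i) := by
  induction m with
  | zero => simp [tup]
  | succ m ih =>
    rw [tup, ZFSet.mem_insert_iff, ih]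
    constructor
    · rintro (rfl | ⟨i, hi, rfl⟩)
      · exact ⟨m, Nat.lt_succ_self m, rfl⟩
      · exact ⟨i, Nat.lt_succ_of_lt hi, rfl⟩
    · rintro ⟨i, hi, rfl⟩
      rcases Nat.lt_succ_iff_lt_or_eq.1 hi with h | rfl
      · exact Or.inr ⟨i, h, rfl⟩
      · exact Or.inl rfl

theorem pair_mem_tup {m : ℕ} {w : ℕ → ZFSet.{u}} {a b : ZFSet.{u}} :
    ZFSet.pair a b ∈ tup m w ↔ ∃ i < m, a = nat i ∧ b = w i := by
  rw [mem_tup]
  simp only [ZFSet.pair_inj]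

theorem natpair_mem_tup {m i : ℕ} {w : ℕ → ZFSet.{u}} {b : ZFSet.{u}} :
    ZFSet.pair (nat i) b ∈ tup m w ↔ i < m ∧ b = w i := by
  rw [pair_mem_tup]
  constructor
  · rintro ⟨j, hj, h1, h2⟩
    rw [nat_inj] at h1
    subst h1
    exact ⟨hj, h2⟩
  · rintro ⟨h1, h2⟩
    exact ⟨i, h1, rfl, h2⟩

theorem tup_congr {m : ℕ} {w w' : ℕ → ZFSet.{u}} (h : ∀ i < m, w i = w' i) :
    tup m w = tup m w' := by
  apply ZFSet.ext
  intro z
  rw [mem_tup, mem_tup]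
  constructor
  · rintro ⟨i, hi, rfl⟩
    exact ⟨i, hi, by rw [h i hi]⟩
  · rintro ⟨i, hi, rfl⟩
    exact ⟨i, hi, by rw [h i hi]⟩

theorem tup_inj {m : ℕ} {w w' : ℕ → ZFSet.{u}} (h : tup m w = tup m w') : ∀ i < m, w i = w' i := by
  intro i hi
  have : ZFSet.pair (nat i) (w i) ∈ tup m w := natpair_mem_tup.2 ⟨hi, rfl⟩
  rw [h] at this
  exact (natpair_mem_tup.1 this).2

theorem tup_inj' {m m' : ℕ} {w w' : ℕ → ZFSet.{u}} (h : tup m w = tup m' w') : m = m' := by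
  by_contra hne
  rcases Nat.lt_or_gt_of_ne hne with h1 | h1
  · have : ZFSet.pair (nat m) (w' m) ∈ tup m' w' := natpair_mem_tup.2 ⟨h1, rfl⟩
    rw [← h] at this
    exact lt_irrefl _ (natpair_mem_tup.1 this).1
  · have : ZFSet.pair (nat m') (w m') ∈ tup m w := natpair_mem_tup.2 ⟨h1, rfl⟩
    rw [h] at this
    exact lt_irrefl _ (natpair_mem_tup.1 this).1

theorem Good.nat {N : Set ZFSet.{u}} (hN : Good N) (n : ℕ) : nat n ∈ N := by
  induction n with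
  | zero => exact hN.empty
  | succ n ih => exact hN.insert ih ih

theorem Good.tup {N : Set ZFSet.{u}} (hN : Good N) {m : ℕ} {w : ℕ → ZFSet.{u}}
    (hw : ∀ i < m, w i ∈ N) : tup m w ∈ N := by
  induction m with
  | zero => exact hN.empty
  | succ m ih =>
    exact hN.insert (hN.pair (hN.nat m) (hw m (Nat.lt_succ_self m)))
      (ih fun i hi => hw i (Nat.lt_succ_of_lt hi))

/-- `v` is a sequence of length `m` of elements of `U`. -/
def Asg (m U v : ZFSet.{u}) : Prop := ∃ (k : ℕ) (w : ℕ → ZFSet.{u}), m = nat k ∧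
  (∀ i < k, w i ∈ U) ∧ v = tup k w

/-- `v'` is the sequence `u, v 0, v 1, ...`. -/
def ConsR (v a v' : ZFSet.{u}) : Prop := ∀ z, z ∈ v' ↔ (z = ZFSet.pair ∅ a ∨
  ∃ i ∈ om, ∃ b, ZFSet.pair i b ∈ v ∧ z = ZFSet.pair (insert i i) b)

theorem consR_iff {m : ℕ} {w : ℕ → ZFSet.{u}} {a v' : ZFSet.{u}} :
    ConsR (tup m w) a v' ↔ v' = tup (m + 1) (cons a w) := by
  have key : ∀ z, (z = ZFSet.pair ∅ a ∨ ∃ i ∈ om, ∃ b, ZFSet.pair i b ∈ tup m w ∧
      z = ZFSet.pair (insert i i) b) ↔ z ∈ tup (m + 1) (cons a w) := by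
    intro z
    rw [mem_tup]
    constructor
    · rintro (rfl | ⟨i, _, b, hb, rfl⟩)
      · exact ⟨0, Nat.succ_pos m, rfl⟩
      · obtain ⟨j, hj, rfl, rfl⟩ := pair_mem_tup.1 hb
        exact ⟨j + 1, Nat.succ_lt_succ hj, rfl⟩
    · rintro ⟨i, hi, rfl⟩
      cases i with
      | zero => exact Or.inl rfl
      | succ i =>
        exact Or.inr ⟨nat i, nat_mem_om i, w i, natpair_mem_tup.2 ⟨by omega, rfl⟩, rfl⟩
  constructor
  · intro h
    apply ZFSet.ext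
    intro z
    rw [h z, key]
  · rintro rfl z
    rw [key]

/-! ### A context for definability -/

/-- `N` is a good class and the set of natural numbers may be used as a parameter. -/
structure Ctx (N Prm : Set ZFSet.{u}) : Prop where
  good : Good N
  om_prm : om ∈ Prm
  sub : LL ⊆ N

theorem ctx_LL : Ctx (LL : Set ZFSet.{u}) LL := ⟨good_LL, om_mem_LL, fun _ h => h⟩

namespace Ctx

variable {N Prm : Set ZFSet.{u}} (C : Ctx N Prm) {P Q : (ℕ → ZFSet.{u}) → Prop}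
  {f g h k : (ℕ → ZFSet.{u}) → ZFSet.{u}}

include C

theorem ne : Prm.Nonempty := ⟨_, C.om_prm⟩

theorem omN : om ∈ N := C.sub om_mem_LL

theorem var (i : ℕ) : DF N Prm fun v => v i := DF.var C.ne i

theorem om : DF N Prm fun _ => om := DF.prm C.om_prm C.omN

theorem mem (hf : DF N Prm f) (hg : DF N Prm g) : Dfn N Prm fun v => f v ∈ g v :=
  Dfn.mem hf hg C.ne

theorem eq (hf : DF N Prm f) (hg : DF N Prm g) : Dfn N Prm fun v => f v = g v :=
  Dfn.eq hf hg C.ne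

theorem ball (hf : DF N Prm f) (hP : Dfn N Prm P) : Dfn N Prm fun v => ∀ x ∈ f v, P (cons x v) :=
  Dfn.ball C.good C.ne hf hP

theorem bex (hf : DF N Prm f) (hP : Dfn N Prm P) : Dfn N Prm fun v => ∃ x ∈ f v, P (cons x v) :=
  Dfn.bex C.good C.ne hf hP

theorem subset (hf : DF N Prm f) (hg : DF N Prm g) : Dfn N Prm fun v => f v ⊆ g v :=
  Dfn.subset C.good C.ne hf hg

theorem empty : DF N Prm fun _ => ∅ := DF.empty C.good C.ne

theorem insert (hf : DF N Prm f) (hg : DF N Prm g) : DF N Prm fun v => insert (f v) (g v) :=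
  DF.insert C.good C.ne hf hg

theorem pair (hf : DF N Prm f) (hg : DF N Prm g) : DF N Prm fun v => ZFSet.pair (f v) (g v) :=
  DF.pair C.good C.ne hf hg

theorem asg : Dfn N Prm fun v => Asg (v 0) (v 1) (v 2) := by
  have h1 : Dfn N Prm fun v => v 0 ∈ SetTh.om ∧ (∀ z ∈ v 2, ∃ i ∈ v 0, ∃ a ∈ v 1,
      z = ZFSet.pair i a) ∧ (∀ i ∈ v 0, ∃ a ∈ v 1, ZFSet.pair i a ∈ v 2) ∧
      ∀ i ∈ v 0, ∀ a ∈ v 1, ∀ b ∈ v 1, ZFSet.pair i a ∈ v 2 → ZFSet.pair i b ∈ v 2 → a = b :=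
    (C.mem (C.var 0) C.om).and ((C.ball (C.var 2) (C.bex (C.var 1) (C.bex (C.var 3)
      (C.eq (C.var 2) (C.pair (C.var 1) (C.var 0)))))).and
      ((C.ball (C.var 0) (C.bex (C.var 2) (C.mem (C.pair (C.var 1) (C.var 0)) (C.var 4)))).and
      (C.ball (C.var 0) (C.ball (C.var 2) (C.ball (C.var 3)
        ((C.mem (C.pair (C.var 2) (C.var 1)) (C.var 5)).imp
        ((C.mem (C.pair (C.var 2) (C.var 0)) (C.var 5)).imp (C.eq (C.var 1) (C.var 0)))))))))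
  refine h1.congr fun v _ => ?_
  constructor
  · rintro ⟨h0, h2, h3, h4⟩
    obtain ⟨m, hm⟩ := mem_om.1 h0
    rw [hm] at h2 h3 h4
    choose! F hF using h3
    refine ⟨m, fun i => F (nat i), hm, fun i hi => (hF _ (nat_mem_nat.2 hi)).1, ?_⟩
    apply ZFSet.ext
    intro z
    rw [mem_tup]
    constructor
    · intro hz
      obtain ⟨i, hi, a, ha, rfl⟩ := h2 z hz
      obtain ⟨j, hj, rfl⟩ := mem_nat.1 hi
      refine ⟨j, hj, ?_⟩
      rw [h4 _ hi a ha _ (hF _ hi).1 hz (hF _ hi).2]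
    · rintro ⟨i, hi, rfl⟩
      exact (hF _ (nat_mem_nat.2 hi)).2
  · rintro ⟨m, w, h0, hw, h⟩
    rw [h0, h]
    refine ⟨nat_mem_om m, ?_, ?_, ?_⟩
    · intro z hz
      obtain ⟨i, hi, rfl⟩ := mem_tup.1 hz
      exact ⟨nat i, nat_mem_nat.2 hi, w i, hw i hi, rfl⟩
    · intro i hi
      obtain ⟨j, hj, rfl⟩ := mem_nat.1 hi
      exact ⟨w j, hw j hj, natpair_mem_tup.2 ⟨hj, rfl⟩⟩
    · intro i hi a _ b _ hia hib
      obtain ⟨j, hj, rfl⟩ := mem_nat.1 hi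
      rw [(natpair_mem_tup.1 hia).2, (natpair_mem_tup.1 hib).2]

theorem consR : Dfn N Prm fun v => ConsR (v 0) (v 1) (v 2) := by
  have h1 : Dfn N Prm fun v => ∀ z ∈ N, (z ∈ v 2 ↔ (z = ZFSet.pair ∅ (v 1) ∨
      ∃ i ∈ SetTh.om, ∃ b ∈ N, ZFSet.pair i b ∈ v 0 ∧ z = ZFSet.pair (Insert.insert i i) b)) :=
    ((C.mem (C.var 0) (C.var 3)).iff ((C.eq (C.var 0) (C.pair C.empty (C.var 2))).or
      (C.bex C.om (((C.mem (C.pair (C.var 1) (C.var 0)) (C.var 3)).and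
        (C.eq (C.var 2) (C.pair (C.insert (C.var 1) (C.var 1)) (C.var 0)))).ex)))).all
  refine h1.congr fun v hv => ?_
  have hb : ∀ i b, ZFSet.pair i b ∈ v 0 → b ∈ N := fun i b h => (C.good.of_pair_mem (hv 0) h).2
  constructor
  · intro h z
    constructor
    · intro hz
      rcases (h z (C.good.trans (hv 2) hz)).1 hz with h2 | ⟨i, hi, b, _, h3⟩
      · exact Or.inl h2
      · exact Or.inr ⟨i, hi, b, h3⟩
    · rintro (rfl | ⟨i, hi, b, h3, rfl⟩)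
      · exact (h _ (C.good.pair C.good.empty (hv 1))).2 (Or.inl rfl)
      · have hi' : i ∈ N := (C.good.of_pair_mem (hv 0) h3).1
        exact (h _ (C.good.pair (C.good.insert hi' hi') (hb i b h3))).2
          (Or.inr ⟨i, hi, b, hb i b h3, h3, rfl⟩)
  · intro h z _
    rw [h z]
    constructor
    · rintro (h2 | ⟨i, hi, b, h3⟩)
      · exact Or.inl h2
      · exact Or.inr ⟨i, hi, b, hb i b h3.1, h3⟩
    · rintro (h2 | ⟨i, hi, b, _, h3⟩)
      · exact Or.inl h2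
      · exact Or.inr ⟨i, hi, b, h3⟩

end Ctx

/-! ### Derivations -/

/-- `v ∈ X` iff `v` is a sequence of length `m` over `U` with `v i ∈ v j`. -/
def AtM (U m i j X : ZFSet.{u}) : Prop := ∀ v, v ∈ X ↔ Asg m U v ∧ ∃ a ∈ U, ∃ b ∈ U,
  ZFSet.pair i a ∈ v ∧ ZFSet.pair j b ∈ v ∧ a ∈ b

def AtE (U m i j X : ZFSet.{u}) : Prop := ∀ v, v ∈ X ↔ Asg m U v ∧ ∃ a ∈ U, ∃ b ∈ U,
  ZFSet.pair i a ∈ v ∧ ZFSet.pair j b ∈ v ∧ a = b

def OpN (U m Y X : ZFSet.{u}) : Prop := ∀ v, v ∈ X ↔ Asg m U v ∧ v ∉ Y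

def OpA (Y Z X : ZFSet.{u}) : Prop := ∀ v, v ∈ X ↔ v ∈ Y ∧ v ∈ Z

def OpQ (U m Y X : ZFSet.{u}) : Prop := ∀ v, v ∈ X ↔ Asg m U v ∧ ∀ a ∈ U, ∃ v' ∈ Y, ConsR v a v'

/-- Justification of the entry `(l, m, X)`. -/
def DerStep (W U l m X : ZFSet.{u}) : Prop :=
  (∃ i ∈ m, ∃ j ∈ m, AtM U m i j X) ∨ (∃ i ∈ m, ∃ j ∈ m, AtE U m i j X) ∨
  (∃ l' ∈ l, ∃ Y, ZFSet.pair l' (ZFSet.pair m Y) ∈ W ∧ OpN U m Y X) ∨
  (∃ l' ∈ l, ∃ Y, ZFSet.pair l' (ZFSet.pair m Y) ∈ W ∧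
    ∃ l'' ∈ l, ∃ Z, ZFSet.pair l'' (ZFSet.pair m Z) ∈ W ∧ OpA Y Z X) ∨
  (∃ l' ∈ l, ∃ Y, ZFSet.pair l' (ZFSet.pair (insert m m) Y) ∈ W ∧ OpQ U m Y X)

/-- All entries are justified. -/
def Der (W U : ZFSet.{u}) : Prop :=
  ∀ l ∈ om, ∀ m ∈ om, ∀ X, ZFSet.pair l (ZFSet.pair m X) ∈ W → DerStep W U l m X

theorem Asg.memN {N : Set ZFSet.{u}} (hN : Good N) {m U v : ZFSet.{u}} (h : Asg m U v)
    (hU : U ∈ N) : v ∈ N := by
  obtain ⟨k, w, -, hw, rfl⟩ := h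
  exact hN.tup fun i hi => hN.trans hU (hw i hi)

theorem memN_of_mem_pair {N : Set ZFSet.{u}} (hN : Good N) {W l m X : ZFSet.{u}} (hW : W ∈ N)
    (h : ZFSet.pair l (ZFSet.pair m X) ∈ W) : l ∈ N ∧ m ∈ N ∧ X ∈ N := by
  have h1 := hN.of_pair_mem hW h
  exact ⟨h1.1, hN.of_pair h1.2⟩

namespace Ctx

variable {N Prm : Set ZFSet.{u}} (C : Ctx N Prm)

omit C in
theorem forallN (_ : Ctx N Prm) {P Q : (ℕ → ZFSet.{u}) → ZFSet.{u} → Prop}
    (h : Dfn N Prm fun v => (P (fun i => v (i + 1)) (v 0) ↔ Q (fun i => v (i + 1)) (v 0)))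
    (hP : ∀ v, (∀ i, v i ∈ N) → ∀ x, P v x → x ∈ N) (hQ : ∀ v, (∀ i, v i ∈ N) → ∀ x, Q v x → x ∈ N) :
    Dfn N Prm fun v => ∀ x, P v x ↔ Q v x := by
  refine h.all.congr fun v hv => ?_
  constructor
  · intro h x
    constructor
    · intro hx
      exact (h x (hP v hv x hx)).1 hx
    · intro hx
      exact (h x (hQ v hv x hx)).2 hx
  · intro h x _
    exact h x

include C

theorem asg' {f g h : (ℕ → ZFSet.{u}) → ZFSet.{u}} (hf : DF N Prm f) (hg : DF N Prm g)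
    (hh : DF N Prm h) : Dfn N Prm fun v => Asg (f v) (g v) (h v) :=
  Dfn.comp3 (R := Asg) C.asg hf hg hh

theorem consR' {f g h : (ℕ → ZFSet.{u}) → ZFSet.{u}} (hf : DF N Prm f) (hg : DF N Prm g)
    (hh : DF N Prm h) : Dfn N Prm fun v => ConsR (f v) (g v) (h v) :=
  Dfn.comp3 (R := ConsR) C.consR hf hg hh

/-- variables: `U m i j X` -/
theorem atM : Dfn N Prm fun v => AtM (v 0) (v 1) (v 2) (v 3) (v 4) := by
  refine C.forallN (P := fun v x => x ∈ v 4) (Q := fun v x => Asg (v 1) (v 0) x ∧ ∃ a ∈ v 0,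
    ∃ b ∈ v 0, ZFSet.pair (v 2) a ∈ x ∧ ZFSet.pair (v 3) b ∈ x ∧ a ∈ b) ?_ ?_ ?_
  · exact (C.mem (C.var 0) (C.var 5)).iff ((C.asg' (C.var 2) (C.var 1) (C.var 0)).and
      (C.bex (C.var 1) (C.bex (C.var 2) ((C.mem (C.pair (C.var 5) (C.var 1)) (C.var 2)).and
        ((C.mem (C.pair (C.var 6) (C.var 0)) (C.var 2)).and (C.mem (C.var 1) (C.var 0)))))))
  · intro v hv x hx
    exact C.good.trans (hv 4) hx
  · intro v hv x hx
    exact hx.1.memN C.good (hv 0)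

theorem atE : Dfn N Prm fun v => AtE (v 0) (v 1) (v 2) (v 3) (v 4) := by
  refine C.forallN (P := fun v x => x ∈ v 4) (Q := fun v x => Asg (v 1) (v 0) x ∧ ∃ a ∈ v 0,
    ∃ b ∈ v 0, ZFSet.pair (v 2) a ∈ x ∧ ZFSet.pair (v 3) b ∈ x ∧ a = b) ?_ ?_ ?_
  · exact (C.mem (C.var 0) (C.var 5)).iff ((C.asg' (C.var 2) (C.var 1) (C.var 0)).and
      (C.bex (C.var 1) (C.bex (C.var 2) ((C.mem (C.pair (C.var 5) (C.var 1)) (C.var 2)).and
        ((C.mem (C.pair (C.var 6) (C.var 0)) (C.var 2)).and (C.eq (C.var 1) (C.var 0)))))))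
  · intro v hv x hx
    exact C.good.trans (hv 4) hx
  · intro v hv x hx
    exact hx.1.memN C.good (hv 0)

/-- variables: `U m Y X` -/
theorem opN : Dfn N Prm fun v => OpN (v 0) (v 1) (v 2) (v 3) := by
  refine C.forallN (P := fun v x => x ∈ v 3) (Q := fun v x => Asg (v 1) (v 0) x ∧ x ∉ v 2) ?_ ?_ ?_
  · exact (C.mem (C.var 0) (C.var 4)).iff ((C.asg' (C.var 2) (C.var 1) (C.var 0)).and
      (C.mem (C.var 0) (C.var 3)).not)
  · intro v hv x hx
    exact C.good.trans (hv 3) hx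
  · intro v hv x hx
    exact hx.1.memN C.good (hv 0)

/-- variables: `Y Z X` -/
theorem opA : Dfn N Prm fun v => OpA (v 0) (v 1) (v 2) := by
  refine C.forallN (P := fun v x => x ∈ v 2) (Q := fun v x => x ∈ v 0 ∧ x ∈ v 1) ?_ ?_ ?_
  · exact (C.mem (C.var 0) (C.var 3)).iff ((C.mem (C.var 0) (C.var 1)).and
      (C.mem (C.var 0) (C.var 2)))
  · intro v hv x hx
    exact C.good.trans (hv 2) hx
  · intro v hv x hx
    exact C.good.trans (hv 0) hx.1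

/-- variables: `U m Y X` -/
theorem opQ : Dfn N Prm fun v => OpQ (v 0) (v 1) (v 2) (v 3) := by
  refine C.forallN (P := fun v x => x ∈ v 3) (Q := fun v x => Asg (v 1) (v 0) x ∧ ∀ a ∈ v 0,
    ∃ v' ∈ v 2, ConsR x a v') ?_ ?_ ?_
  · exact (C.mem (C.var 0) (C.var 4)).iff ((C.asg' (C.var 2) (C.var 1) (C.var 0)).and
      (C.ball (C.var 1) (C.bex (C.var 4) (C.consR' (C.var 2) (C.var 1) (C.var 0)))))
  · intro v hv x hx
    exact C.good.trans (hv 3) hx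
  · intro v hv x hx
    exact hx.1.memN C.good (hv 0)

/-- variables: `W U l m X` -/
theorem derStep : Dfn N Prm fun v => DerStep (v 0) (v 1) (v 2) (v 3) (v 4) := by
  have h1 : Dfn N Prm fun v => ∃ i ∈ v 3, ∃ j ∈ v 3, AtM (v 1) (v 3) i j (v 4) := by
    have h0 : Dfn N Prm fun v => AtM (v 3) (v 5) (v 1) (v 0) (v 6) :=
      C.atM.rename fun i => if i = 0 then 3 else if i = 1 then 5 else if i = 2 then 1 else
        if i = 3 then 0 else 6
    exact C.bex (C.var 3) (C.bex (C.var 4) h0)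
  have h2 : Dfn N Prm fun v => ∃ i ∈ v 3, ∃ j ∈ v 3, AtE (v 1) (v 3) i j (v 4) := by
    have h0 : Dfn N Prm fun v => AtE (v 3) (v 5) (v 1) (v 0) (v 6) :=
      C.atE.rename fun i => if i = 0 then 3 else if i = 1 then 5 else if i = 2 then 1 else
        if i = 3 then 0 else 6
    exact C.bex (C.var 3) (C.bex (C.var 4) h0)
  have h3 : Dfn N Prm fun v => ∃ l' ∈ v 2, ∃ Y ∈ N, ZFSet.pair l' (ZFSet.pair (v 3) Y) ∈ v 0 ∧
      OpN (v 1) (v 3) Y (v 4) := by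
    have h0 : Dfn N Prm fun v => OpN (v 3) (v 5) (v 0) (v 6) :=
      C.opN.rename fun i => if i = 0 then 3 else if i = 1 then 5 else if i = 2 then 0 else 6
    exact C.bex (C.var 2) (((C.mem (C.pair (C.var 1) (C.pair (C.var 5) (C.var 0))) (C.var 2)).and
      h0).ex)
  have h4 : Dfn N Prm fun v => ∃ l' ∈ v 2, ∃ Y ∈ N, ZFSet.pair l' (ZFSet.pair (v 3) Y) ∈ v 0 ∧
      ∃ l'' ∈ v 2, ∃ Z ∈ N, ZFSet.pair l'' (ZFSet.pair (v 3) Z) ∈ v 0 ∧ OpA Y Z (v 4) := by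
    have h5 : Dfn N Prm fun v => OpA (v 2) (v 0) (v 8) :=
      C.opA.rename fun i => if i = 0 then 2 else if i = 1 then 0 else 8
    exact C.bex (C.var 2) (((C.mem (C.pair (C.var 1) (C.pair (C.var 5) (C.var 0))) (C.var 2)).and
      (C.bex (C.var 4) (((C.mem (C.pair (C.var 1) (C.pair (C.var 7) (C.var 0))) (C.var 4)).and
        h5).ex))).ex)
  have h5 : Dfn N Prm fun v => ∃ l' ∈ v 2, ∃ Y ∈ N,
      ZFSet.pair l' (ZFSet.pair (Insert.insert (v 3) (v 3)) Y) ∈ v 0 ∧ OpQ (v 1) (v 3) Y (v 4) := by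
    have h0 : Dfn N Prm fun v => OpQ (v 3) (v 5) (v 0) (v 6) :=
      C.opQ.rename fun i => if i = 0 then 3 else if i = 1 then 5 else if i = 2 then 0 else 6
    exact C.bex (C.var 2) (((C.mem (C.pair (C.var 1) (C.pair (C.insert (C.var 5) (C.var 5))
      (C.var 0))) (C.var 2)).and h0).ex)
  refine (h1.or (h2.or (h3.or (h4.or h5)))).congr fun v hv => ?_
  unfold DerStep
  have key : ∀ {l m Y}, ZFSet.pair l (ZFSet.pair m Y) ∈ v 0 → Y ∈ N := fun h =>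
    (memN_of_mem_pair C.good (hv 0) h).2.2
  refine or_congr Iff.rfl (or_congr Iff.rfl (or_congr ?_ (or_congr ?_ ?_)))
  · constructor
    · rintro ⟨l, hl, Y, _, h⟩
      exact ⟨l, hl, Y, h⟩
    · rintro ⟨l, hl, Y, h⟩
      exact ⟨l, hl, Y, key h.1, h⟩
  · constructor
    · rintro ⟨l, hl, Y, _, h, l', hl', Z, _, h'⟩
      exact ⟨l, hl, Y, h, l', hl', Z, h'⟩
    · rintro ⟨l, hl, Y, h, l', hl', Z, h'⟩
      exact ⟨l, hl, Y, key h, h, l', hl', Z, key h'.1, h'⟩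
  · constructor
    · rintro ⟨l, hl, Y, _, h⟩
      exact ⟨l, hl, Y, h⟩
    · rintro ⟨l, hl, Y, h⟩
      exact ⟨l, hl, Y, key h.1, h⟩

theorem der : Dfn N Prm fun v => Der (v 0) (v 1) := by
  have h1 : Dfn N Prm fun v => ∀ l ∈ SetTh.om, ∀ m ∈ SetTh.om, ∀ X ∈ N,
      ZFSet.pair l (ZFSet.pair m X) ∈ v 0 → DerStep (v 0) (v 1) l m X := by
    have h2 : Dfn N Prm fun v => DerStep (v 3) (v 4) (v 2) (v 1) (v 0) :=
      C.derStep.rename fun i => if i = 0 then 3 else if i = 1 then 4 else if i = 2 then 2 else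
        if i = 3 then 1 else 0
    exact C.ball C.om (C.ball C.om (((C.mem (C.pair (C.var 2) (C.pair (C.var 1) (C.var 0)))
      (C.var 3)).imp h2).all))
  refine h1.congr fun v hv => ?_
  constructor
  · intro h l hl m hm X hX
    exact h l hl m hm X (memN_of_mem_pair C.good (hv 0) hX).2.2 hX
  · intro h l hl m hm X _ hX
    exact h l hl m hm X hX

end Ctx

end Pool.Agent.Helper88.SetTh
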