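import Pool.Agent.Helper88.SetTh.IntDef

/-!
# Definability of the definable power set: correctness
-/

set_option autoImplicit false

universe u

namespace Pool.Agent.Helper88.SetTh

/-- The extension of a formula. -/
def ExtP (U : ZFSet.{u}) (m : ℕ) (φ : Fml) (v : ZFSet.{u}) : Prop :=
  ∃ w : ℕ → ZFSet.{u}, (∀ i < m, w i ∈ U) ∧ v = tup m w ∧ Sat (U : Set ZFSet.{u}) φ w

theorem extP_tup {U : ZFSet.{u}} {m : ℕ} {φ : Fml} (hφ : φ.fv m) {w : ℕ → ZFSet.{u}}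
    (hw : ∀ i < m, w i ∈ U) : ExtP U m φ (tup m w) ↔ Sat (U : Set ZFSet.{u}) φ w := by
  constructor
  · rintro ⟨w', _, h, hs⟩
    exact (sat_congr' _ φ hφ (tup_inj h)).2 hs
  · intro h
    exact ⟨w, hw, rfl, h⟩

theorem asg_iff {m : ℕ} {U v : ZFSet.{u}} : Asg (nat m) U v ↔
    ∃ w : ℕ → ZFSet.{u}, (∀ i < m, w i ∈ U) ∧ v = tup m w := by
  constructor
  · rintro ⟨k, w, h, hw, rfl⟩
    rw [nat_inj] at h
    subst h
    exact ⟨w, hw, rfl⟩
  · rintro ⟨w, hw, rfl⟩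
    exact ⟨m, w, rfl, hw, rfl⟩

theorem atM_iff {U : ZFSet.{u}} {m i j : ℕ} {X : ZFSet.{u}} (hi : i < m) (hj : j < m) :
    AtM U (nat m) (nat i) (nat j) X ↔ ∀ v, v ∈ X ↔ ExtP U m (.mem i j) v := by
  refine forall_congr' fun v => iff_congr Iff.rfl ?_
  rw [asg_iff]
  constructor
  · rintro ⟨⟨w, hw, rfl⟩, a, _, b, _, h1, h2, h3⟩
    rw [natpair_mem_tup] at h1 h2
    refine ⟨w, hw, rfl, ?_⟩
    change w i ∈ w j
    rw [← h1.2, ← h2.2]
    exact h3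
  · rintro ⟨w, hw, rfl, h⟩
    exact ⟨⟨w, hw, rfl⟩, w i, hw i hi, w j, hw j hj, natpair_mem_tup.2 ⟨hi, rfl⟩,
      natpair_mem_tup.2 ⟨hj, rfl⟩, h⟩

theorem atE_iff {U : ZFSet.{u}} {m i j : ℕ} {X : ZFSet.{u}} (hi : i < m) (hj : j < m) :
    AtE U (nat m) (nat i) (nat j) X ↔ ∀ v, v ∈ X ↔ ExtP U m (.eq i j) v := by
  refine forall_congr' fun v => iff_congr Iff.rfl ?_
  rw [asg_iff]
  constructor
  · rintro ⟨⟨w, hw, rfl⟩, a, _, b, _, h1, h2, h3⟩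
    rw [natpair_mem_tup] at h1 h2
    refine ⟨w, hw, rfl, ?_⟩
    change w i = w j
    rw [← h1.2, ← h2.2]
    exact h3
  · rintro ⟨w, hw, rfl, h⟩
    exact ⟨⟨w, hw, rfl⟩, w i, hw i hi, w j, hw j hj, natpair_mem_tup.2 ⟨hi, rfl⟩,
      natpair_mem_tup.2 ⟨hj, rfl⟩, h⟩

theorem opN_iff {U : ZFSet.{u}} {m : ℕ} {φ : Fml} {X Y : ZFSet.{u}} (hφ : φ.fv m)
    (hY : ∀ v, v ∈ Y ↔ ExtP U m φ v) :
    OpN U (nat m) Y X ↔ ∀ v, v ∈ X ↔ ExtP U m (.neg φ) v := by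
  refine forall_congr' fun v => iff_congr Iff.rfl ?_
  rw [asg_iff]
  constructor
  · rintro ⟨⟨w, hw, rfl⟩, h⟩
    rw [hY, extP_tup hφ hw] at h
    exact ⟨w, hw, rfl, h⟩
  · rintro ⟨w, hw, rfl, h⟩
    refine ⟨⟨w, hw, rfl⟩, ?_⟩
    rw [hY, extP_tup hφ hw]
    exact h

theorem opA_iff {U : ZFSet.{u}} {m : ℕ} {φ ψ : Fml} {X Y Z : ZFSet.{u}} (_ : φ.fv m)
    (hψ : ψ.fv m) (hY : ∀ v, v ∈ Y ↔ ExtP U m φ v) (hZ : ∀ v, v ∈ Z ↔ ExtP U m ψ v) :
    OpA Y Z X ↔ ∀ v, v ∈ X ↔ ExtP U m (.and φ ψ) v := by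
  refine forall_congr' fun v => iff_congr Iff.rfl ?_
  rw [hY, hZ]
  constructor
  · rintro ⟨⟨w, hw, rfl, h1⟩, h2⟩
    rw [extP_tup hψ hw] at h2
    exact ⟨w, hw, rfl, h1, h2⟩
  · rintro ⟨w, hw, rfl, h1, h2⟩
    exact ⟨⟨w, hw, rfl, h1⟩, ⟨w, hw, rfl, h2⟩⟩

theorem cons_lt {U a : ZFSet.{u}} (ha : a ∈ U) {m : ℕ} {w : ℕ → ZFSet.{u}}
    (hw : ∀ i < m, w i ∈ U) : ∀ i < m + 1, cons a w i ∈ U := by
  intro i hi
  cases i with
  | zero => exact ha
  | succ i => exact hw i (by omega)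

theorem opQ_iff {U : ZFSet.{u}} {m : ℕ} {φ : Fml} {X Y : ZFSet.{u}} (hφ : φ.fv (m + 1))
    (hY : ∀ v, v ∈ Y ↔ ExtP U (m + 1) φ v) :
    OpQ U (nat m) Y X ↔ ∀ v, v ∈ X ↔ ExtP U m (.all φ) v := by
  refine forall_congr' fun v => iff_congr Iff.rfl ?_
  rw [asg_iff]
  constructor
  · rintro ⟨⟨w, hw, rfl⟩, h⟩
    refine ⟨w, hw, rfl, fun a ha => ?_⟩
    obtain ⟨v', hv', h1⟩ := h a ha
    rw [consR_iff] at h1
    subst h1
    rwa [hY, extP_tup hφ (cons_lt ha hw)] at hv'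
  · rintro ⟨w, hw, rfl, h⟩
    refine ⟨⟨w, hw, rfl⟩, fun a ha => ⟨tup (m + 1) (cons a w), ?_, consR_iff.2 rfl⟩⟩
    rw [hY, extP_tup hφ (cons_lt ha hw)]
    exact h a ha

/-- Soundness of derivations. -/
theorem der_sound {W U : ZFSet.{u}} (hW : Der W U) : ∀ (l m : ℕ) (X : ZFSet.{u}),
    ZFSet.pair (nat l) (ZFSet.pair (nat m) X) ∈ W →
    ∃ φ : Fml, φ.fv m ∧ ∀ v, v ∈ X ↔ ExtP U m φ v := by
  intro l
  induction l using Nat.strong_induction_on with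
  | _ l ih =>
    intro m X hX
    rcases hW _ (nat_mem_om l) _ (nat_mem_om m) X hX with ⟨i, hi, j, hj, h⟩ | ⟨i, hi, j, hj, h⟩ |
      ⟨l', hl', Y, hY, h⟩ | ⟨l', hl', Y, hY, l'', hl'', Z, hZ, h⟩ | ⟨l', hl', Y, hY, h⟩
    · obtain ⟨i, hi', rfl⟩ := mem_nat.1 hi
      obtain ⟨j, hj', rfl⟩ := mem_nat.1 hj
      exact ⟨.mem i j, ⟨hi', hj'⟩, (atM_iff hi' hj').1 h⟩
    · obtain ⟨i, hi', rfl⟩ := mem_nat.1 hi
      obtain ⟨j, hj', rfl⟩ := mem_nat.1 hj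
      exact ⟨.eq i j, ⟨hi', hj'⟩, (atE_iff hi' hj').1 h⟩
    · obtain ⟨l', h', rfl⟩ := mem_nat.1 hl'
      obtain ⟨φ, hφ, hY'⟩ := ih l' h' m Y hY
      exact ⟨.neg φ, hφ, (opN_iff hφ hY').1 h⟩
    · obtain ⟨l', h', rfl⟩ := mem_nat.1 hl'
      obtain ⟨l'', h'', rfl⟩ := mem_nat.1 hl''
      obtain ⟨φ, hφ, hY'⟩ := ih l' h' m Y hY
      obtain ⟨ψ, hψ, hZ'⟩ := ih l'' h'' m Z hZ
      exact ⟨.and φ ψ, ⟨hφ, hψ⟩, (opA_iff hφ hψ hY' hZ').1 h⟩
    · obtain ⟨l', h', rfl⟩ := mem_nat.1 hl'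
      obtain ⟨φ, hφ, hY'⟩ := ih l' h' (m + 1) Y hY
      exact ⟨.all φ, hφ, (opQ_iff hφ hY').1 h⟩

theorem DerStep.mono {W W' U l m X : ZFSet.{u}} (h : DerStep W U l m X) (hWW : W ⊆ W') :
    DerStep W' U l m X := by
  rcases h with h | h | ⟨l', hl', Y, hY, h⟩ | ⟨l', hl', Y, hY, l'', hl'', Z, hZ, h⟩ |
    ⟨l', hl', Y, hY, h⟩
  · exact Or.inl h
  · exact Or.inr (Or.inl h)
  · exact Or.inr (Or.inr (Or.inl ⟨l', hl', Y, hWW hY, h⟩))
  · exact Or.inr (Or.inr (Or.inr (Or.inl ⟨l', hl', Y, hWW hY, l'', hl'', Z, hWW hZ, h⟩)))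
  · exact Or.inr (Or.inr (Or.inr (Or.inr ⟨l', hl', Y, hWW hY, h⟩)))

theorem Der.insert {W U : ZFSet.{u}} (hW : Der W U) {l m : ℕ} {X : ZFSet.{u}}
    (h : DerStep W U (nat l) (nat m) X) :
    Der (insert (ZFSet.pair (nat l) (ZFSet.pair (nat m) X)) W) U := by
  have hsub : W ⊆ Insert.insert (ZFSet.pair (nat l) (ZFSet.pair (nat m) X)) W :=
    fun z hz => ZFSet.mem_insert_of_mem _ hz
  intro l' hl' m' hm' X' hX'
  rcases ZFSet.mem_insert_iff.1 hX' with h1 | h1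
  · rw [ZFSet.pair_inj, ZFSet.pair_inj] at h1
    obtain ⟨rfl, rfl, rfl⟩ := h1
    exact h.mono hsub
  · exact (hW l' hl' m' hm' X' h1).mono hsub

theorem Der.union {W W' U : ZFSet.{u}} (hW : Der W U) (hW' : Der W' U) : Der (W ∪ W') U := by
  intro l hl m hm X hX
  rcases ZFSet.mem_union.1 hX with h | h
  · exact (hW l hl m hm X h).mono fun z hz => ZFSet.mem_union.2 (Or.inl hz)
  · exact (hW' l hl m hm X h).mono fun z hz => ZFSet.mem_union.2 (Or.inr hz)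

theorem der_empty (U : ZFSet.{u}) : Der ∅ U := fun _ _ _ _ _ h => absurd h (ZFSet.notMem_empty _)

/-- Comprehension in `L`. -/
theorem exists_LL_set {P : ZFSet.{u} → Prop} {B : ZFSet.{u}} (hB : ∀ v, P v → v ∈ B)
    (hL : ∀ v, P v → v ∈ LL) (hD : Dfn LL LL fun v => P (v 0)) : ∃ X ∈ LL, ∀ v, v ∈ X ↔ P v := by
  have h : ∀ v, v ∈ ZFSet.sep P B ↔ P v := fun v => by
    rw [ZFSet.mem_sep]
    exact ⟨fun h => h.2, fun h => ⟨hB v h, h⟩⟩
  refine ⟨ZFSet.sep P B, mem_LL_of_dfn (fun y hy => hL y ((h y).1 hy)) ?_, h⟩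
  exact hD.congr fun v _ => (h _).symm

theorem asg_bound {m U v : ZFSet.{u}} (h : Asg m U v) : v ∈ ZFSet.powerset (ZFSet.prod om U) := by
  obtain ⟨k, w, -, hw, rfl⟩ := h
  rw [ZFSet.mem_powerset]
  intro z hz
  obtain ⟨i, hi, rfl⟩ := mem_tup.1 hz
  rw [ZFSet.pair_mem_prod]
  exact ⟨nat_mem_om i, hw i hi⟩

theorem dfn_prm_LL {a : ZFSet.{u}} (ha : a ∈ LL) : DF LL LL fun _ => a := DF.prm ha ha

/-- Completeness of derivations in `L`. -/
theorem der_complete {U : ZFSet.{u}} (hU : U ∈ LL) (φ : Fml) : ∀ m : ℕ, φ.fv m →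
    ∃ W ∈ LL, ∃ (l : ℕ) (X : ZFSet.{u}), Der W U ∧
      ZFSet.pair (nat l) (ZFSet.pair (nat m) X) ∈ W ∧ ∀ v, v ∈ X ↔ ExtP U m φ v := by
  have hUF := dfn_prm_LL hU
  have C : Ctx (LL : Set ZFSet.{u}) LL := ctx_LL
  have hN : ∀ n : ℕ, DF (LL : Set ZFSet.{u}) LL fun _ => nat n := fun n => dfn_prm_LL (nat_mem_LL n)
  induction φ with
  | mem i j =>
    intro m hf
    obtain ⟨X, hXL, hX⟩ := exists_LL_set (P := fun v => Asg (nat m) U v ∧ ∃ a ∈ U, ∃ b ∈ U,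
        ZFSet.pair (nat i) a ∈ v ∧ ZFSet.pair (nat j) b ∈ v ∧ a ∈ b) (fun v h => asg_bound h.1)
      (fun v h => h.1.memN good_LL hU) ((C.asg' (hN m) hUF (C.var 0)).and (C.bex hUF (C.bex hUF
        ((C.mem (C.pair (hN i) (C.var 1)) (C.var 2)).and
        ((C.mem (C.pair (hN j) (C.var 0)) (C.var 2)).and (C.mem (C.var 1) (C.var 0)))))))
    have hX' : AtM U (nat m) (nat i) (nat j) X := hX
    refine ⟨_, good_LL.insert (good_LL.pair (nat_mem_LL 0) (good_LL.pair (nat_mem_LL m) hXL))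
      good_LL.empty, 0, X, (der_empty U).insert (Or.inl ⟨nat i, nat_mem_nat.2 hf.1, nat j,
        nat_mem_nat.2 hf.2, hX'⟩), ZFSet.mem_insert _ _, (atM_iff hf.1 hf.2).1 hX'⟩
  | eq i j =>
    intro m hf
    obtain ⟨X, hXL, hX⟩ := exists_LL_set (P := fun v => Asg (nat m) U v ∧ ∃ a ∈ U, ∃ b ∈ U,
        ZFSet.pair (nat i) a ∈ v ∧ ZFSet.pair (nat j) b ∈ v ∧ a = b) (fun v h => asg_bound h.1)
      (fun v h => h.1.memN good_LL hU) ((C.asg' (hN m) hUF (C.var 0)).and (C.bex hUF (C.bex hUF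
        ((C.mem (C.pair (hN i) (C.var 1)) (C.var 2)).and
        ((C.mem (C.pair (hN j) (C.var 0)) (C.var 2)).and (C.eq (C.var 1) (C.var 0)))))))
    have hX' : AtE U (nat m) (nat i) (nat j) X := hX
    refine ⟨_, good_LL.insert (good_LL.pair (nat_mem_LL 0) (good_LL.pair (nat_mem_LL m) hXL))
      good_LL.empty, 0, X, (der_empty U).insert (Or.inr (Or.inl ⟨nat i, nat_mem_nat.2 hf.1, nat j,
        nat_mem_nat.2 hf.2, hX'⟩)), ZFSet.mem_insert _ _, (atE_iff hf.1 hf.2).1 hX'⟩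
  | neg φ ih =>
    intro m hf
    obtain ⟨W, hWL, l, Y, hW, hY, hYe⟩ := ih m hf
    have hYL := (memN_of_mem_pair good_LL hWL hY).2.2
    obtain ⟨X, hXL, hX⟩ := exists_LL_set (P := fun v => Asg (nat m) U v ∧ v ∉ Y)
      (fun v h => asg_bound h.1) (fun v h => h.1.memN good_LL hU)
      ((C.asg' (hN m) hUF (C.var 0)).and (C.mem (C.var 0) (dfn_prm_LL hYL)).not)
    have hX' : OpN U (nat m) Y X := hX
    refine ⟨_, good_LL.insert (good_LL.pair (nat_mem_LL (l + 1))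
      (good_LL.pair (nat_mem_LL m) hXL)) hWL, l + 1, X, hW.insert (Or.inr (Or.inr (Or.inl
        ⟨nat l, nat_mem_nat.2 (Nat.lt_succ_self l), Y, hY, hX'⟩))), ZFSet.mem_insert _ _,
        (opN_iff (φ := φ) hf hYe).1 hX'⟩
  | and φ ψ ih1 ih2 =>
    intro m hf
    obtain ⟨W, hWL, l, Y, hW, hY, hYe⟩ := ih1 m hf.1
    obtain ⟨W', hWL', l', Z, hW', hZ, hZe⟩ := ih2 m hf.2
    have hYL := (memN_of_mem_pair good_LL hWL hY).2.2
    have hZL := (memN_of_mem_pair good_LL hWL' hZ).2.2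
    obtain ⟨X, hXL, hX⟩ := exists_LL_set (P := fun v => v ∈ Y ∧ v ∈ Z) (B := Y)
      (fun v h => h.1) (fun v h => LL_trans hYL h.1)
      ((C.mem (C.var 0) (dfn_prm_LL hYL)).and (C.mem (C.var 0) (dfn_prm_LL hZL)))
    have hX' : OpA Y Z X := hX
    refine ⟨_, good_LL.insert (good_LL.pair (nat_mem_LL (max l l' + 1))
      (good_LL.pair (nat_mem_LL m) hXL)) (union_mem_LL hWL hWL'), max l l' + 1, X,
      (hW.union hW').insert (Or.inr (Or.inr (Or.inr (Or.inl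
        ⟨nat l, nat_mem_nat.2 (by omega), Y, ZFSet.mem_union.2 (Or.inl hY), nat l',
          nat_mem_nat.2 (by omega), Z, ZFSet.mem_union.2 (Or.inr hZ), hX'⟩)))),
      ZFSet.mem_insert _ _, (opA_iff (φ := φ) (ψ := ψ) hf.1 hf.2 hYe hZe).1 hX'⟩
  | all φ ih =>
    intro m hf
    obtain ⟨W, hWL, l, Y, hW, hY, hYe⟩ := ih (m + 1) hf
    have hYL := (memN_of_mem_pair good_LL hWL hY).2.2
    obtain ⟨X, hXL, hX⟩ := exists_LL_set (P := fun v => Asg (nat m) U v ∧ ∀ a ∈ U,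
        ∃ v' ∈ Y, ConsR v a v')
      (fun v h => asg_bound h.1) (fun v h => h.1.memN good_LL hU)
      ((C.asg' (hN m) hUF (C.var 0)).and (C.ball hUF (C.bex (dfn_prm_LL hYL)
        (C.consR' (C.var 2) (C.var 1) (C.var 0)))))
    have hX' : OpQ U (nat m) Y X := hX
    refine ⟨_, good_LL.insert (good_LL.pair (nat_mem_LL (l + 1))
      (good_LL.pair (nat_mem_LL m) hXL)) hWL, l + 1, X, hW.insert (Or.inr (Or.inr (Or.inr (Or.inr
        ⟨nat l, nat_mem_nat.2 (Nat.lt_succ_self l), Y, hY, hX'⟩)))), ZFSet.mem_insert _ _,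
        (opQ_iff (φ := φ) hf hYe).1 hX'⟩

/-! ### The definable power set inside a class -/

/-- `x` is a definable subset of `U`, in the sense of the class `N`. -/
def InDef (N : Set ZFSet.{u}) (x U : ZFSet.{u}) : Prop :=
  x = ∅ ∨ (x ⊆ U ∧ ∃ W ∈ N, ∃ l ∈ om, ∃ m ∈ om, ∃ X ∈ N, ∃ p ∈ N, Der W U ∧
    ZFSet.pair l (ZFSet.pair (insert m m) X) ∈ W ∧ Asg m U p ∧
    ∀ a ∈ U, (a ∈ x ↔ ∃ v' ∈ X, ConsR p a v'))

namespace Ctx

variable {N Prm : Set ZFSet.{u}} (C : Ctx N Prm)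

include C

theorem inDef : Dfn N Prm fun v => InDef N (v 0) (v 1) := by
  have h1 : Dfn N Prm fun v => Der (v 4) (v 6) := C.der.rename fun i => if i = 0 then 4 else 6
  have h2 : Dfn N Prm fun v => ∀ a ∈ v 6, (a ∈ v 5 ↔ ∃ v' ∈ v 1, ConsR (v 0) a v') :=
    C.ball (C.var 6) ((C.mem (C.var 0) (C.var 6)).iff (C.bex (C.var 2)
      (C.consR' (C.var 2) (C.var 1) (C.var 0))))
  exact (C.eq (C.var 0) C.empty).or ((C.subset (C.var 0) (C.var 1)).and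
    ((C.bex C.om (C.bex C.om ((h1.and ((C.mem (C.pair (C.var 3) (C.pair (C.insert (C.var 2)
      (C.var 2)) (C.var 1))) (C.var 4)).and ((C.asg' (C.var 2) (C.var 6) (C.var 0)).and
        h2))).ex.ex))).ex))

theorem inDef_iff {x U : ZFSet.{u}} (hU : U ∈ LL) (hUt : U.IsTransitive) :
    InDef N x U ↔ x ∈ DefPow U := by
  rw [mem_DefPow]
  constructor
  · rintro (rfl | ⟨hx, W, _, l, hl, m, hm, X, _, p, _, hW, hX, hp, h⟩)
    · exact mem_DefPow.1 (empty_mem_DefPow U)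
    · refine ⟨hx, ?_⟩
      obtain ⟨l, rfl⟩ := mem_om.1 hl
      obtain ⟨m, rfl⟩ := mem_om.1 hm
      obtain ⟨φ, hφ, hXe⟩ := der_sound hW l (m + 1) X hX
      obtain ⟨w, hw, rfl⟩ := asg_iff.1 hp
      refine ⟨φ, fun i => if i < m then w i else ∅, ?_, ?_⟩
      · intro i
        by_cases hi : i < m
        · left
          simp only [if_pos hi]
          exact hw i hi
        · right
          simp only [if_neg hi]
      · intro a ha
        rw [h a ha]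
        have hcong : Sat (U : Set ZFSet.{u}) φ (cons a fun i => if i < m then w i else ∅) ↔
            Sat (U : Set ZFSet.{u}) φ (cons a w) := by
          refine sat_congr' _ φ hφ fun i hi => ?_
          cases i with
          | zero => rfl
          | succ i =>
            have : i < m := by omega
            simp only [cons_succ, if_pos this]
        rw [hcong]
        constructor
        · rintro ⟨v', hv', hc⟩
          rw [consR_iff] at hc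
          subst hc
          rwa [hXe, extP_tup hφ (cons_lt ha hw)] at hv'
        · intro hs
          refine ⟨_, ?_, consR_iff.2 rfl⟩
          rw [hXe, extP_tup hφ (cons_lt ha hw)]
          exact hs
  · rintro ⟨hx, φ, v, hv, h⟩
    by_cases hUe : ∃ z, z ∈ U
    · right
      have h0 : ∅ ∈ U := by
        obtain ⟨z, hz⟩ := hUe
        induction z using ZFSet.inductionOn with
        | h z ih =>
          rcases ZFSet.eq_empty_or_nonempty z with rfl | ⟨y, hy⟩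
          · exact hz
          · exact ih y hy (hUt z hz hy)
      have hvU : ∀ i, v i ∈ U := fun i => (hv i).elim id fun e => e ▸ h0
      obtain ⟨k, hk⟩ := exists_fv φ
      have hk' : φ.fv (k + 1) := fv_mono φ (Nat.le_succ k) hk
      obtain ⟨W, hWL, l, X, hW, hX, hXe⟩ := der_complete hU φ (k + 1) hk'
      have hXL := (memN_of_mem_pair good_LL hWL hX).2.2
      refine ⟨hx, W, C.sub hWL, nat l, nat_mem_om l, nat k, nat_mem_om k, X, C.sub hXL, tup k v,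
        C.good.tup fun i _ => C.good.trans (C.sub hU) (hvU i), hW, hX,
        asg_iff.2 ⟨v, fun i _ => hvU i, rfl⟩, ?_⟩
      intro a ha
      rw [h a ha]
      constructor
      · intro hs
        refine ⟨_, ?_, consR_iff.2 rfl⟩
        rw [hXe, extP_tup hk' (cons_lt ha fun i _ => hvU i)]
        exact hs
      · rintro ⟨v', hv', hc⟩
        rw [consR_iff] at hc
        subst hc
        rwa [hXe, extP_tup hk' (cons_lt ha fun i _ => hvU i)] at hv'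
    · left
      rw [ZFSet.eq_empty]
      intro z hz
      exact hUe ⟨z, hx hz⟩

end Ctx

end Pool.Agent.Helper88.SetTh
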