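import Pool.Agent.Helper88.SetTh.Rec

/-!
# Cohen conditions, names and the generic extension
-/

set_option autoImplicit false

universe u

namespace Pool.Agent.Helper88.SetTh

theorem mem_val {c τ y : ZFSet.{u}} : y ∈ val c τ ↔
    ∃ σ p, ZFSet.pair σ p ∈ τ ∧ IsCond p ∧ p ⊆ c ∧ y = val c σ := by
  rw [val, ZFSet.mem_range]
  constructor
  · rintro ⟨z, rfl⟩
    obtain ⟨p, h, hp, hc⟩ := z.2.choose_spec
    exact ⟨z.2.choose, p, h ▸ z.1.2, hp, hc, rfl⟩
  · rintro ⟨σ, p, h, hp, hc, rfl⟩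
    let z : {z : τ // ∃ σ p, z.1 = ZFSet.pair σ p ∧ IsCond p ∧ p ⊆ c} :=
      ⟨⟨ZFSet.pair σ p, h⟩, σ, p, rfl, hp, hc⟩
    refine ⟨z, ?_⟩
    obtain ⟨q, h', -⟩ := z.2.choose_spec
    have h' : ZFSet.pair σ p = ZFSet.pair z.2.choose q := h'
    rw [ZFSet.pair_inj] at h'
    rw [← h'.1]

/-! ### Conditions -/

theorem mem_code {x : ℕ → ℕ} {z : ZFSet.{u}} :
    z ∈ code x ↔ ∃ n, z = ZFSet.pair (nat n) (nat (x n)) := by
  unfold code
  rw [ZFSet.mem_range]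
  constructor
  · rintro ⟨n, rfl⟩; exact ⟨n, rfl⟩
  · rintro ⟨n, rfl⟩; exact ⟨n, rfl⟩

theorem pair_mem_code {x : ℕ → ℕ} {n m : ℕ} :
    ZFSet.pair (nat.{u} n) (nat m) ∈ code x ↔ x n = m := by
  rw [mem_code]
  constructor
  · rintro ⟨k, h⟩
    rw [ZFSet.pair_inj, nat_inj, nat_inj] at h
    rw [h.1, h.2]
  · rintro rfl
    exact ⟨n, rfl⟩

theorem code_injective : Function.Injective code.{u} := by
  intro x y h
  funext n
  have : ZFSet.pair (nat.{u} n) (nat (x n)) ∈ code x := pair_mem_code.2 rfl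
  rw [h, pair_mem_code] at this
  exact this.symm

theorem isCond_empty : IsCond (∅ : ZFSet.{u}) := ⟨∅, by simp, by simp, by simp⟩

theorem IsCond.union {p q : ZFSet.{u}} {x : ℕ → ℕ} (hp : IsCond p) (hq : IsCond q)
    (hpx : p ⊆ code x) (hqx : q ⊆ code x) : IsCond (p ∪ q) := by
  classical
  obtain ⟨s, h1, -, h3⟩ := hp
  obtain ⟨t, g1, -, g3⟩ := hq
  have key : ∀ a ∈ s ∪ t, x a.1 = a.2 := by
    intro a ha
    rcases Finset.mem_union.1 ha with ha | ha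
    · have := hpx ((h3 _).2 ⟨a, ha, rfl⟩)
      exact pair_mem_code.1 this
    · have := hqx ((g3 _).2 ⟨a, ha, rfl⟩)
      exact pair_mem_code.1 this
  refine ⟨s ∪ t, ?_, ?_, ?_⟩
  · intro a ha
    rcases Finset.mem_union.1 ha with ha | ha
    · exact h1 a ha
    · exact g1 a ha
  · intro a ha b hb hab
    have h4 := key a ha
    have h5 := key b hb
    rw [hab] at h4
    exact Prod.ext hab (h4.symm.trans h5)
  · intro z
    rw [ZFSet.mem_union, h3, g3]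
    constructor
    · rintro (⟨a, ha, rfl⟩ | ⟨a, ha, rfl⟩)
      · exact ⟨a, Finset.mem_union_left _ ha, rfl⟩
      · exact ⟨a, Finset.mem_union_right _ ha, rfl⟩
    · rintro ⟨a, ha, rfl⟩
      rcases Finset.mem_union.1 ha with ha | ha
      · exact Or.inl ⟨a, ha, rfl⟩
      · exact Or.inr ⟨a, ha, rfl⟩

/-- Definable characterisation of conditions. -/
theorem isCond_iff {p : ZFSet.{u}} : IsCond p ↔ ∃ n ∈ om, (∀ z ∈ p, ∃ i ∈ n, ∃ b ∈ nat 2,
    z = ZFSet.pair i b) ∧ ∀ i ∈ n, ¬ (ZFSet.pair i ∅ ∈ p ∧ ZFSet.pair i (nat 1) ∈ p) := by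
  classical
  constructor
  · rintro ⟨s, h1, h2, h3⟩
    obtain ⟨n, hn⟩ : ∃ n : ℕ, ∀ a ∈ s, a.1 < n := by
      refine ⟨s.sup (fun a => a.1) + 1, fun a ha => Nat.lt_succ_of_le ?_⟩
      exact Finset.le_sup (f := fun a : ℕ × ℕ => a.1) ha
    refine ⟨nat n, nat_mem_om n, ?_, ?_⟩
    · intro z hz
      obtain ⟨a, ha, rfl⟩ := (h3 z).1 hz
      exact ⟨nat a.1, nat_mem_nat.2 (hn a ha), nat a.2, nat_mem_nat.2 (h1 a ha), rfl⟩
    · rintro i _ ⟨g1, g2⟩
      obtain ⟨a, ha, e1⟩ := (h3 _).1 g1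
      obtain ⟨b, hb, e2⟩ := (h3 _).1 g2
      rw [ZFSet.pair_inj] at e1 e2
      have h4 : a.1 = b.1 := nat_injective (e1.1.symm.trans e2.1)
      have h5 := h2 a ha b hb h4
      rw [h5] at e1
      have h6 : (nat 0 : ZFSet.{u}) = nat 1 := e1.2.trans e2.2.symm
      rw [nat_inj] at h6
      omega
  · rintro ⟨n, hn, h1, h2⟩
    obtain ⟨n, rfl⟩ := mem_om.1 hn
    refine ⟨((Finset.range n) ×ˢ (Finset.range 2)).filter
      (fun a => ZFSet.pair (nat a.1) (nat a.2) ∈ p), ?_, ?_, ?_⟩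
    · intro a ha
      have := (Finset.mem_product.1 (Finset.mem_filter.1 ha).1).2
      exact Finset.mem_range.1 this
    · intro a ha b hb hab
      rw [Finset.mem_filter, Finset.mem_product, Finset.mem_range, Finset.mem_range] at ha hb
      have h3 := h2 (nat a.1) (nat_mem_nat.2 ha.1.1)
      apply Prod.ext hab
      have ha2 := ha.2
      have hb2 := hb.2
      rw [← hab] at hb2
      rcases Nat.lt_succ_iff_lt_or_eq.1 ha.1.2 with e1 | e1
      · have e1 : a.2 = 0 := by omega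
        rcases Nat.lt_succ_iff_lt_or_eq.1 hb.1.2 with e2 | e2
        · omega
        · exfalso
          rw [e1] at ha2
          rw [e2] at hb2
          exact h3 ⟨ha2, hb2⟩
      · rcases Nat.lt_succ_iff_lt_or_eq.1 hb.1.2 with e2 | e2
        · exfalso
          have e2 : b.2 = 0 := by omega
          rw [e1] at ha2
          rw [e2] at hb2
          exact h3 ⟨hb2, ha2⟩
        · omega
    · intro z
      constructor
      · intro hz
        obtain ⟨i, hi, b, hb, rfl⟩ := h1 z hz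
        obtain ⟨i, hi', rfl⟩ := mem_nat.1 hi
        obtain ⟨b, hb', rfl⟩ := mem_nat.1 hb
        exact ⟨(i, b), Finset.mem_filter.2 ⟨Finset.mem_product.2
          ⟨Finset.mem_range.2 hi', Finset.mem_range.2 hb'⟩, hz⟩, rfl⟩
      · rintro ⟨a, ha, rfl⟩
        exact (Finset.mem_filter.1 ha).2

theorem IsCond.bound {p : ZFSet.{u}} (h : IsCond p) :
    p ∈ ZFSet.powerset (ZFSet.prod om om) := by
  obtain ⟨s, -, -, h3⟩ := h
  rw [ZFSet.mem_powerset]
  intro z hz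
  obtain ⟨a, _, rfl⟩ := (h3 z).1 hz
  rw [ZFSet.pair_mem_prod]
  exact ⟨nat_mem_om _, nat_mem_om _⟩

namespace Ctx

variable {N Prm : Set ZFSet.{u}} (C : Ctx N Prm)

include C

theorem nat (n : ℕ) : DF N Prm fun _ => nat n := by
  induction n with
  | zero => exact C.empty
  | succ n ih => exact C.insert ih ih

theorem isCond {f : (ℕ → ZFSet.{u}) → ZFSet.{u}} (hf : DF N Prm f) :
    Dfn N Prm fun v => IsCond (f v) := by
  have h1 : Dfn N Prm fun v => ∃ n ∈ SetTh.om, (∀ z ∈ f v, ∃ i ∈ n, ∃ b ∈ SetTh.nat 2,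
      z = ZFSet.pair i b) ∧ ∀ i ∈ n, ¬ (ZFSet.pair i ∅ ∈ f v ∧ ZFSet.pair i (SetTh.nat 1) ∈ f v) :=
    C.bex C.om ((C.ball hf.shift (C.bex (C.var 1) (C.bex (C.nat 2)
      (C.eq (C.var 2) (C.pair (C.var 1) (C.var 0)))))).and
      (C.ball (C.var 0) ((C.mem (C.pair (C.var 0) C.empty) hf.shift.shift).and
        (C.mem (C.pair (C.var 0) (C.nat 1)) hf.shift.shift)).not))
  exact h1.congr fun v _ => isCond_iff.symm

end Ctx

theorem IsCond.mem_LL {p : ZFSet.{u}} (h : IsCond p) : p ∈ LL := by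
  obtain ⟨s, -, -, h3⟩ := h
  have C : Ctx (LL : Set ZFSet.{u}) LL := ctx_LL
  apply mem_LL_of_dfn
  · intro z hz
    obtain ⟨a, _, rfl⟩ := (h3 z).1 hz
    exact good_LL.pair (nat_mem_LL _) (nat_mem_LL _)
  · have key : ∀ t : Finset (ℕ × ℕ), Dfn (LL : Set ZFSet.{u}) LL fun v => ∃ a ∈ t,
        v 0 = ZFSet.pair (nat a.1) (nat a.2) := by
      classical
      intro t
      induction t using Finset.induction_on with
      | empty => exact (Dfn.const LL_ne False).congr fun v _ => by simp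
      | insert a t _ ih =>
        exact ((C.eq (C.var 0) (C.pair (C.nat a.1) (C.nat a.2))).or ih).congr fun v _ => by simp
    exact (key s).congr fun v _ => (h3 _).symm

/-- The set of all conditions. -/
theorem exists_Cd : ∃ X ∈ (LL : Set ZFSet.{u}), ∀ p, p ∈ X ↔ IsCond p :=
  exists_LL_set (fun _ h => h.bound) (fun _ h => h.mem_LL) (ctx_LL.isCond (ctx_LL.var 0))

noncomputable def Cd : ZFSet.{u} := exists_Cd.choose

theorem Cd_mem_LL : Cd.{u} ∈ LL := exists_Cd.choose_spec.1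

theorem mem_Cd {p : ZFSet.{u}} : p ∈ Cd ↔ IsCond p := exists_Cd.choose_spec.2 p

/-! ### Check names -/

noncomputable def chkΓ (x f : ZFSet.{u}) : ZFSet.{u} :=
  ZFSet.pairSep (fun w _ => ∃ y ∈ x, ZFSet.pair y w ∈ f) (ZFSet.sUnion (ZFSet.sUnion f)) {∅}

theorem mem_chkΓ {x f z : ZFSet.{u}} :
    z ∈ chkΓ x f ↔ ∃ y ∈ x, ∃ w, ZFSet.pair y w ∈ f ∧ z = ZFSet.pair w ∅ := by
  unfold chkΓ
  rw [ZFSet.mem_pairSep]
  constructor
  · rintro ⟨w, _, e, he, rfl, y, hy, h⟩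
    rw [ZFSet.mem_singleton] at he
    subst he
    exact ⟨y, hy, w, h, rfl⟩
  · rintro ⟨y, hy, w, h, rfl⟩
    refine ⟨w, ?_, ∅, ZFSet.mem_singleton.2 rfl, rfl, y, hy, h⟩
    rw [ZFSet.mem_sUnion]
    refine ⟨{y, w}, ?_, by simp⟩
    rw [ZFSet.mem_sUnion]
    exact ⟨_, h, by simp [ZFSet.pair]⟩

/-- The canonical name of `x`. -/
noncomputable def check (x : ZFSet.{u}) : ZFSet.{u} := recZ chkΓ x

theorem mem_check {x z : ZFSet.{u}} : z ∈ check x ↔ ∃ y ∈ x, z = ZFSet.pair (check y) ∅ := by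
  unfold check
  rw [recZ_eq, mem_chkΓ]
  constructor
  · rintro ⟨y, hy, w, h, rfl⟩
    rw [pair_mem_resZ] at h
    exact ⟨y, hy, by rw [h.2]⟩
  · rintro ⟨y, hy, rfl⟩
    exact ⟨y, hy, _, pair_mem_resZ.2 ⟨hy, rfl⟩, rfl⟩

theorem val_check (c x : ZFSet.{u}) : val c (check x) = x := by
  induction x using ZFSet.inductionOn with
  | h x ih =>
    apply ZFSet.ext
    intro z
    rw [mem_val]
    constructor
    · rintro ⟨σ, p, h, _, _, rfl⟩
      obtain ⟨y, hy, e⟩ := mem_check.1 h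
      rw [ZFSet.pair_inj] at e
      rw [e.1, ih y hy]
      exact hy
    · intro hz
      exact ⟨check z, ∅, mem_check.2 ⟨z, hz, rfl⟩, isCond_empty, ZFSet.empty_subset _,
        (ih z hz).symm⟩

theorem check_DF : DF (LL : Set ZFSet.{u}) LL fun v => check (v 0) := by
  have C : Ctx (LL : Set ZFSet.{u}) LL := ctx_LL
  apply recZ_DF
  apply DF_LL
  · intro v hv y hy
    obtain ⟨a, _, w, h, rfl⟩ := mem_chkΓ.1 hy
    exact good_LL.pair (good_LL.of_pair_mem (hv 1) h).2 empty_mem_LL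
  · have h1 : Dfn (LL : Set ZFSet.{u}) LL fun v => ∃ y ∈ v 1, ∃ w ∈ LL,
        ZFSet.pair y w ∈ v 2 ∧ v 0 = ZFSet.pair w ∅ :=
      C.bex (C.var 1) ((C.mem (C.pair (C.var 1) (C.var 0)) (C.var 4)).and
        (C.eq (C.var 2) (C.pair (C.var 0) C.empty))).ex
    refine h1.congr fun v hv => ?_
    rw [mem_chkΓ]
    constructor
    · rintro ⟨y, hy, w, _, h⟩
      exact ⟨y, hy, w, h⟩
    · rintro ⟨y, hy, w, h⟩
      exact ⟨y, hy, w, (good_LL.of_pair_mem (hv 2) h.1).2, h⟩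

theorem check_mem_LL {x : ZFSet.{u}} (hx : x ∈ LL) : check x ∈ LL :=
  check_DF.mem (fun _ => x) fun _ => hx

theorem LL_sub_LC (c : ZFSet.{u}) : LL ⊆ LC c := fun x hx =>
  ⟨check x, check_mem_LL hx, (val_check c x).symm⟩

theorem good_LC (c : ZFSet.{u}) : Good (LC c) where
  trans := by
    rintro x y ⟨τ, hτ, rfl⟩ hy
    obtain ⟨σ, p, h, _, _, rfl⟩ := mem_val.1 hy
    exact ⟨σ, (good_LL.of_pair_mem hτ h).1, rfl⟩
  empty := LL_sub_LC c empty_mem_LL
  insert := by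
    rintro x y ⟨σ, hσ, rfl⟩ ⟨τ, hτ, rfl⟩
    refine ⟨insert (ZFSet.pair σ ∅) τ, good_LL.insert (good_LL.pair hσ empty_mem_LL) hτ, ?_⟩
    apply ZFSet.ext
    intro z
    rw [ZFSet.mem_insert_iff, mem_val, mem_val]
    constructor
    · rintro (rfl | ⟨σ', p, h, hp, hc, rfl⟩)
      · exact ⟨σ, ∅, ZFSet.mem_insert _ _, isCond_empty, ZFSet.empty_subset _, rfl⟩
      · exact ⟨σ', p, ZFSet.mem_insert_of_mem _ h, hp, hc, rfl⟩
    · rintro ⟨σ', p, h, hp, hc, rfl⟩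
      rcases ZFSet.mem_insert_iff.1 h with h | h
      · rw [ZFSet.pair_inj] at h
        rw [h.1]
        exact Or.inl rfl
      · exact Or.inr ⟨σ', p, h, hp, hc, rfl⟩

/-- The class of ordinals. -/
def Ords : Set ZFSet.{u} := {x | x.IsOrdinal}

theorem ctx_LC (c : ZFSet.{u}) : Ctx (LC c) Ords := ⟨good_LC c, om_isOrdinal, LL_sub_LC c⟩

/-- The set of all `g a p` with `(a, p) ∈ ψ`. -/
noncomputable def pmap (g : ZFSet.{u} → ZFSet.{u} → ZFSet.{u}) (ψ : ZFSet.{u}) : ZFSet.{u} :=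
  ZFSet.range fun z : {z : ψ // ∃ a p, z.1 = ZFSet.pair a p} =>
    g z.2.choose z.2.choose_spec.choose

theorem mem_pmap {g : ZFSet.{u} → ZFSet.{u} → ZFSet.{u}} {ψ x : ZFSet.{u}} :
    x ∈ pmap g ψ ↔ ∃ a p, ZFSet.pair a p ∈ ψ ∧ x = g a p := by
  unfold pmap
  rw [ZFSet.mem_range]
  constructor
  · rintro ⟨z, rfl⟩
    have h := z.2.choose_spec.choose_spec
    exact ⟨_, _, h ▸ z.1.2, rfl⟩
  · rintro ⟨a, p, h, rfl⟩
    let z : {z : ψ // ∃ a p, z.1 = ZFSet.pair a p} := ⟨⟨ZFSet.pair a p, h⟩, a, p, rfl⟩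
    refine ⟨z, ?_⟩
    have h' : ZFSet.pair a p = _ := z.2.choose_spec.choose_spec
    rw [ZFSet.pair_inj] at h'
    exact congrArg₂ g h'.1.symm h'.2.symm

/-- Sets with a name that is a set of pairs of a constructible set and a condition. -/
theorem nice_mem_LC (c : ZFSet.{u}) {ψ x : ZFSet.{u}} (hψ : ψ ∈ LL)
    (hx : ∀ h, h ∈ x ↔ ∃ p, ZFSet.pair h p ∈ ψ ∧ IsCond p ∧ p ⊆ c) : x ∈ LC c := by
  have C : Ctx (LL : Set ZFSet.{u}) LL := ctx_LL
  refine ⟨pmap (fun h p => ZFSet.pair (check h) p) ψ, ?_, ?_⟩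
  · apply mem_LL_of_dfn
    · intro y hy
      obtain ⟨h, p, hp, rfl⟩ := mem_pmap.1 hy
      have := good_LL.of_pair_mem hψ hp
      exact good_LL.pair (check_mem_LL this.1) this.2
    · have h1 : DF (LL : Set ZFSet.{u}) LL fun v => check (v 1) := check_DF.rename fun _ => 1
      have hD : Dfn (LL : Set ZFSet.{u}) LL fun v => ∃ h ∈ LL, ∃ p ∈ LL,
          ZFSet.pair h p ∈ ψ ∧ v 0 = ZFSet.pair (check h) p :=
        (((C.mem (C.pair (C.var 1) (C.var 0)) (dfn_prm_LL hψ)).and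
          (C.eq (C.var 2) (C.pair h1 (C.var 0)))).ex).ex
      refine hD.congr fun v _ => ?_
      rw [mem_pmap]
      constructor
      · rintro ⟨h, _, p, _, h2⟩
        exact ⟨h, p, h2⟩
      · rintro ⟨h, p, h2⟩
        have := good_LL.of_pair_mem hψ h2.1
        exact ⟨h, this.1, p, this.2, h2⟩
  · apply ZFSet.ext
    intro z
    rw [hx, mem_val]
    constructor
    · rintro ⟨p, h1, h2, h3⟩
      exact ⟨check z, p, mem_pmap.2 ⟨z, p, h1, rfl⟩, h2, h3, (val_check c z).symm⟩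
    · rintro ⟨σ, p, h1, h2, h3, rfl⟩
      obtain ⟨a, q, h4, h5⟩ := mem_pmap.1 h1
      rw [ZFSet.pair_inj] at h5
      obtain ⟨rfl, rfl⟩ := h5
      rw [val_check]
      exact ⟨p, h4, h2, h3⟩

end Pool.Agent.Helper88.SetTh
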