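import Pool.Agent.Helper88.SetTh.Bridge

/-!
# Nice names of reals; the set of reals equivalent to the generic
-/

set_option autoImplicit false

universe u

namespace Pool.Agent.Helper88.SetTh

/-- `z` has a nice name evaluated by the real `x`. -/
def Nice (x z : ZFSet.{u}) : Prop :=
  ∃ ψ ∈ LL, ∀ h, h ∈ z ↔ ∃ p, ZFSet.pair h p ∈ ψ ∧ IsCond p ∧ p ⊆ x

theorem Nice.mem_LC {x z : ZFSet.{u}} (h : Nice x z) : z ∈ LC x := by
  obtain ⟨ψ, hψ, h⟩ := h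
  exact nice_mem_LC x hψ h

theorem code_elts_LL {x : ℕ → ℕ} {h : ZFSet.{u}} (hh : h ∈ code x) : h ∈ LL := by
  obtain ⟨n, rfl⟩ := mem_code.1 hh
  exact good_LL.pair (nat_mem_LL _) (nat_mem_LL _)

theorem union_sub {p q x : ZFSet.{u}} (hp : p ⊆ x) (hq : q ⊆ x) : p ∪ q ⊆ x := by
  intro z hz
  rcases ZFSet.mem_union.1 hz with hz | hz
  · exact hp hz
  · exact hq hz

/-- Reals in the generic extension have nice names. -/
theorem nice_of_mem_LC {x : ℕ → ℕ} (hx : IsCohen.{u} x) {y : ℕ → ℕ}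
    (hy : code.{u} y ∈ LC (code x)) : Nice (code.{u} x) (code y) := by
  have C : Ctx (LL : Set ZFSet.{u}) LL := ctx_LL
  obtain ⟨τ, ⟨γ, hγ⟩, hval⟩ := hy
  have hU : Lev γ ∈ (LL : Set ZFSet.{u}) := Lev_mem_LL γ
  have hUt := isTransitive_Lev γ
  have hτL : τ ∈ (LL : Set ZFSet.{u}) := LL_trans hU hγ
  have hC := dfn_prm_LL Cd_mem_LL.{u}
  -- the nice name
  have hR : Dfn (LL : Set ZFSet.{u}) LL fun v => ∃ σ ∈ LL, ∃ q ∈ Cd, ∃ p ∈ Cd,
      ZFSet.pair σ q ∈ τ ∧ q ⊆ v 1 ∧ p ⊆ v 1 ∧ ZFSet.pair σ p ∈ FE (Lev γ) (v 0) := by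
    have h0 : Dfn (LL : Set ZFSet.{u}) LL fun v => ZFSet.pair (v 2) (v 0) ∈ FE (Lev γ) (v 3) :=
      C.mem (C.pair (C.var 2) (C.var 0)) ((FE_DF hU).rename fun _ => 3)
    exact Dfn.ex (C.bex hC (C.bex hC ((C.mem (C.pair (C.var 2) (C.var 1)) (dfn_prm_LL hτL)).and
      ((C.subset (C.var 1) (C.var 4)).and ((C.subset (C.var 0) (C.var 4)).and h0)))))
  have hP : Dfn (LL : Set ZFSet.{u}) LL fun v => ∃ n ∈ om, ∃ m ∈ om, ∃ r ∈ Cd,
      v 0 = ZFSet.pair (ZFSet.pair n m) r ∧ ∃ σ ∈ LL, ∃ q ∈ Cd, ∃ p ∈ Cd,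
      ZFSet.pair σ q ∈ τ ∧ q ⊆ r ∧ p ⊆ r ∧ ZFSet.pair σ p ∈ FE (Lev γ) (ZFSet.pair n m) := by
    have h1 := Dfn.comp2 (R := fun a r => ∃ σ ∈ LL, ∃ q ∈ Cd, ∃ p ∈ Cd,
      ZFSet.pair σ q ∈ τ ∧ q ⊆ r ∧ p ⊆ r ∧ ZFSet.pair σ p ∈ FE (Lev γ) a) hR
      (C.pair (C.var 2) (C.var 1)) (C.var 0)
    exact C.bex C.om (C.bex C.om (C.bex hC ((C.eq (C.var 3)
      (C.pair (C.pair (C.var 2) (C.var 1)) (C.var 0))).and h1)))
  obtain ⟨ψ, hψ, hψ'⟩ := exists_LL_set (B := ZFSet.prod (ZFSet.prod om om) Cd)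
    (P := fun z => ∃ n ∈ om, ∃ m ∈ om, ∃ r ∈ Cd,
      z = ZFSet.pair (ZFSet.pair n m) r ∧ ∃ σ ∈ LL, ∃ q ∈ Cd, ∃ p ∈ Cd,
      ZFSet.pair σ q ∈ τ ∧ q ⊆ r ∧ p ⊆ r ∧ ZFSet.pair σ p ∈ FE (Lev γ) (ZFSet.pair n m))
    (by
      rintro z ⟨n, hn, m, hm, r, hr, rfl, -⟩
      rw [ZFSet.pair_mem_prod, ZFSet.pair_mem_prod]
      exact ⟨⟨hn, hm⟩, hr⟩)
    (by
      rintro z ⟨n, hn, m, hm, r, hr, rfl, -⟩
      exact good_LL.pair (good_LL.pair (LL_trans om_mem_LL hn) (LL_trans om_mem_LL hm))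
        (LL_trans Cd_mem_LL hr)) hP
  refine ⟨ψ, hψ, fun h => ?_⟩
  have hpt : ∀ {σ' q : ZFSet.{u}}, ZFSet.pair σ' q ∈ τ → σ' ∈ Lev γ := by
    intro σ' q hq
    have h1 : ZFSet.pair σ' q ∈ Lev γ := hUt.mem_trans hq hγ
    have h2 : ({σ', q} : ZFSet) ∈ Lev γ := hUt.mem_trans (by simp [ZFSet.pair]) h1
    exact hUt.mem_trans (by simp) h2
  constructor
  · intro hh
    obtain ⟨n, rfl⟩ := mem_code.1 hh
    rw [hval] at hh
    obtain ⟨σ, q, h1, h2, h3, h4⟩ := mem_val.1 hh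
    obtain ⟨p, h5, h6⟩ := (truth hx hU hUt _ (good_LL.pair (nat_mem_LL n) (nat_mem_LL (y n))) σ
      (hpt h1)).1 h4.symm
    have h7 := FE_isCond hU (good_LL.pair (nat_mem_LL n) (nat_mem_LL (y n))) h6
    refine ⟨q ∪ p, (hψ' _).2 ⟨nat n, nat_mem_om n, nat (y n), nat_mem_om _, q ∪ p,
      mem_Cd.2 (h2.union h7 h3 h5), rfl, σ, LL_trans hU (hpt h1), q, mem_Cd.2 h2, p, mem_Cd.2 h7,
      h1, fun z hz => ZFSet.mem_union.2 (Or.inl hz), fun z hz => ZFSet.mem_union.2 (Or.inr hz),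
      h6⟩, h2.union h7 h3 h5, union_sub h3 h5⟩
  · rintro ⟨r, h1, h2, h3⟩
    obtain ⟨n, hn, m, hm, r', hr', h4, σ, _, q, hq, p, hp, h5, h6, h7, h8⟩ := (hψ' _).1 h1
    rw [ZFSet.pair_inj] at h4
    obtain ⟨rfl, rfl⟩ := h4
    have h9 := (truth hx hU hUt _ (good_LL.pair (LL_trans om_mem_LL hn) (LL_trans om_mem_LL hm)) σ
      (hpt h5)).2 ⟨p, fun z hz => h3 (h7 hz), h8⟩
    rw [hval]
    exact mem_val.2 ⟨σ, q, h5, mem_Cd.1 hq, fun z hz => h3 (h6 hz), h9.symm⟩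

/-- The generic real is in the generic extension. -/
theorem nice_self {x : ℕ → ℕ} (hx : IsCohen.{u} x) : Nice (code.{u} x) (code x) := by
  have C : Ctx (LL : Set ZFSet.{u}) LL := ctx_LL
  have hC := dfn_prm_LL Cd_mem_LL.{u}
  have hlt := cohen_lt hx
  obtain ⟨ψ, hψ, hψ'⟩ := exists_LL_set (B := ZFSet.prod (ZFSet.sUnion Cd) Cd)
    (P := fun z : ZFSet.{u} => ∃ p ∈ Cd, ∃ h ∈ p, z = ZFSet.pair h p)
    (by
      rintro z ⟨p, hp, h, hh, rfl⟩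
      rw [ZFSet.pair_mem_prod]
      exact ⟨ZFSet.mem_sUnion.2 ⟨p, hp, hh⟩, hp⟩)
    (by
      rintro z ⟨p, hp, h, hh, rfl⟩
      have := LL_trans Cd_mem_LL hp
      exact good_LL.pair (LL_trans this hh) this)
    (C.bex hC (C.bex (C.var 0) (C.eq (C.var 2) (C.pair (C.var 0) (C.var 1)))))
  refine ⟨ψ, hψ, fun h => ?_⟩
  constructor
  · intro hh
    obtain ⟨n, rfl⟩ := mem_code.1 hh
    refine ⟨cset (ini (bin x) (n + 1)), (hψ' _).2 ⟨_, mem_Cd.2 (cset_isCond _), _,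
      mem_cset_ini hlt (Nat.lt_succ_self n), rfl⟩, cset_isCond _, ini_sub_code hlt _⟩
  · rintro ⟨p, h1, h2, h3⟩
    obtain ⟨p', _, h', hh', e⟩ := (hψ' _).1 h1
    rw [ZFSet.pair_inj] at e
    obtain ⟨rfl, rfl⟩ := e
    exact h3 hh'

/-- Finitely many facts about the generic are decided by an initial segment. -/
theorem finite_support {x : ℕ → ℕ} (hx : ∀ n, x n < 2) {ψ p : ZFSet.{u}} (hp : IsCond p)
    (h : ∀ g ∈ p, ∃ q, ZFSet.pair g q ∈ ψ ∧ IsCond q ∧ q ⊆ code x) :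
    ∃ N, ∀ g ∈ p, ∃ q, ZFSet.pair g q ∈ ψ ∧ IsCond q ∧ q ⊆ cset (ini (bin x) N) := by
  classical
  obtain ⟨s, -, -, h3⟩ := hp
  have key : ∀ t : Finset (ℕ × ℕ), t ⊆ s → ∃ N, ∀ a ∈ t, ∃ q,
      ZFSet.pair (ZFSet.pair (nat a.1) (nat a.2)) q ∈ ψ ∧ IsCond q ∧
      q ⊆ cset (ini (bin x) N) := by
    intro t
    induction t using Finset.induction_on with
    | empty => intro _; exact ⟨0, by simp⟩
    | insert a t _ ih =>
      intro hts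
      obtain ⟨N, hN⟩ := ih fun b hb => hts (Finset.mem_insert_of_mem hb)
      obtain ⟨q, h4, h5, h6⟩ := h _ ((h3 _).2 ⟨a, hts (Finset.mem_insert_self _ _), rfl⟩)
      obtain ⟨M, hM⟩ := cond_sub_ini hx h5 h6
      refine ⟨max N M, fun b hb => ?_⟩
      rcases Finset.mem_insert.1 hb with rfl | hb
      · exact ⟨q, h4, h5, fun z hz => cset_mono (ini_pre _ (le_max_right _ _)) (hM hz)⟩
      · obtain ⟨q', g1, g2, g3⟩ := hN b hb
        exact ⟨q', g1, g2, fun z hz => cset_mono (ini_pre _ (le_max_left _ _)) (g3 hz)⟩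
  obtain ⟨N, hN⟩ := key s (Finset.Subset.refl _)
  refine ⟨N, fun g hg => ?_⟩
  obtain ⟨a, ha, rfl⟩ := (h3 g).1 hg
  exact hN a ha

/-- Composition of nice names. -/
theorem Nice.comp {x c : ℕ → ℕ} (hx : ∀ n, x n < 2) {z : ZFSet.{u}}
    (h1 : Nice (code.{u} x) (code c)) (h2 : Nice (code.{u} c) z) : Nice (code.{u} x) z := by
  have C : Ctx (LL : Set ZFSet.{u}) LL := ctx_LL
  have hC := dfn_prm_LL Cd_mem_LL.{u}
  obtain ⟨ψ1, hψ1, h1⟩ := h1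
  obtain ⟨ψ2, hψ2, h2⟩ := h2
  have hd : Dfn (LL : Set ZFSet.{u}) LL fun v => ∃ h ∈ LL, ∃ r ∈ Cd, v 0 = ZFSet.pair h r ∧
      ∃ p ∈ Cd, ZFSet.pair h p ∈ ψ2 ∧ ∀ g ∈ p, ∃ q ∈ Cd, ZFSet.pair g q ∈ ψ1 ∧ q ⊆ r :=
    Dfn.ex (C.bex hC ((C.eq (C.var 2) (C.pair (C.var 1) (C.var 0))).and (C.bex hC
      ((C.mem (C.pair (C.var 2) (C.var 0)) (dfn_prm_LL hψ2)).and (C.ball (C.var 0)
        (C.bex hC ((C.mem (C.pair (C.var 1) (C.var 0)) (dfn_prm_LL hψ1)).and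
          (C.subset (C.var 0) (C.var 3)))))))))
  obtain ⟨ψ, hψ, hψ'⟩ := exists_LL_set (B := ZFSet.prod (ZFSet.sUnion (ZFSet.sUnion ψ2)) Cd)
    (P := fun z : ZFSet.{u} => ∃ h ∈ LL, ∃ r ∈ Cd, z = ZFSet.pair h r ∧
      ∃ p ∈ Cd, ZFSet.pair h p ∈ ψ2 ∧ ∀ g ∈ p, ∃ q ∈ Cd, ZFSet.pair g q ∈ ψ1 ∧ q ⊆ r)
    (by
      rintro z ⟨h, _, r, hr, rfl, p, _, hp, _⟩
      rw [ZFSet.pair_mem_prod]
      refine ⟨?_, hr⟩
      rw [ZFSet.mem_sUnion]
      refine ⟨{h, p}, ?_, by simp⟩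
      rw [ZFSet.mem_sUnion]
      exact ⟨_, hp, by simp [ZFSet.pair]⟩)
    (by
      rintro z ⟨h, hh, r, hr, rfl, _⟩
      exact good_LL.pair hh (LL_trans Cd_mem_LL hr)) hd
  refine ⟨ψ, hψ, fun h => ?_⟩
  constructor
  · intro hh
    obtain ⟨p, g1, g2, g3⟩ := (h2 h).1 hh
    obtain ⟨N, hN⟩ := finite_support hx g2 fun g hg => (h1 g).1 (g3 hg)
    refine ⟨cset (ini (bin x) N), (hψ' _).2 ⟨h, (good_LL.of_pair_mem hψ2 g1).1, _,
      mem_Cd.2 (cset_isCond _), rfl, p, mem_Cd.2 g2, g1, fun g hg => ?_⟩, cset_isCond _,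
      ini_sub_code hx _⟩
    obtain ⟨q, e1, e2, e3⟩ := hN g hg
    exact ⟨q, mem_Cd.2 e2, e1, e3⟩
  · rintro ⟨r, g1, g2, g3⟩
    obtain ⟨h', _, r', hr', e, p, hp, e1, e2⟩ := (hψ' _).1 g1
    rw [ZFSet.pair_inj] at e
    obtain ⟨rfl, rfl⟩ := e
    refine (h2 h).2 ⟨p, e1, mem_Cd.1 hp, fun g hg => ?_⟩
    obtain ⟨q, e3, e4, e5⟩ := e2 g hg
    exact (h1 g).2 ⟨q, e4, mem_Cd.1 e3, fun z hz => g3 (e5 hz)⟩

/-- A Cohen real is not constructible. -/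
theorem cohen_not_mem_LL {x : ℕ → ℕ} (hx : IsCohen.{u} x) : code.{u} x ∉ LL := by
  classical
  intro hxL
  have C : Ctx (LL : Set ZFSet.{u}) LL := ctx_LL
  obtain ⟨q, hq, hqx, hn⟩ := generic_mem hx (P := fun q => ¬ q ⊆ code x)
    (C.subset (C.var 0) (dfn_prm_LL hxL)).not
    (by
      rintro p ⟨s, h1, h2, h3⟩
      by_cases hpx : p ⊆ code x
      · obtain ⟨n, hn⟩ : ∃ n : ℕ, ∀ a ∈ s, a.1 < n := by
          refine ⟨s.sup (fun a => a.1) + 1, fun a ha => Nat.lt_succ_of_le ?_⟩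
          exact Finset.le_sup (f := fun a : ℕ × ℕ => a.1) ha
        refine ⟨insert (ZFSet.pair (nat n) (nat (1 - x n))) p, ⟨insert (n, 1 - x n) s, ?_, ?_, ?_⟩,
          fun z hz => ZFSet.mem_insert_of_mem _ hz, fun h => ?_⟩
        · intro a ha
          rcases Finset.mem_insert.1 ha with rfl | ha
          · change 1 - x n < 2
            omega
          · exact h1 a ha
        · intro a ha b hb hab
          rcases Finset.mem_insert.1 ha with rfl | ha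
          · rcases Finset.mem_insert.1 hb with rfl | hb
            · rfl
            · have := hn b hb
              have hab : n = b.1 := hab
              omega
          · rcases Finset.mem_insert.1 hb with rfl | hb
            · have := hn a ha
              have hab : a.1 = n := hab
              omega
            · exact h2 a ha b hb hab
        · intro z
          rw [ZFSet.mem_insert_iff, h3]
          constructor
          · rintro (rfl | ⟨a, ha, rfl⟩)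
            · exact ⟨(n, 1 - x n), Finset.mem_insert_self _ _, rfl⟩
            · exact ⟨a, Finset.mem_insert_of_mem ha, rfl⟩
          · rintro ⟨a, ha, rfl⟩
            rcases Finset.mem_insert.1 ha with rfl | ha
            · exact Or.inl rfl
            · exact Or.inr ⟨a, ha, rfl⟩
        · have h4 := pair_mem_code.1 (h (ZFSet.mem_insert _ _))
          omega
      · exact ⟨p, ⟨s, h1, h2, h3⟩, fun _ hz => hz, hpx⟩)
  exact hn hqx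

end Pool.Agent.Helper88.SetTh
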