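import Pool.Agent.Helper88.SetTh.Hier

/-!
# Recursion inside `L`
-/

set_option autoImplicit false

universe u

namespace Pool.Agent.Helper88.SetTh

/-- Recursion on membership: `recZ Γ x = Γ x {(y, recZ Γ y) : y ∈ x}`. -/
noncomputable def recZ (Γ : ZFSet.{u} → ZFSet.{u} → ZFSet.{u}) (x : ZFSet.{u}) : ZFSet.{u} :=
  Γ x (ZFSet.range fun y : x => ZFSet.pair y.1 (recZ Γ y.1))
termination_by x
decreasing_by exact y.2

/-- The restriction of `recZ Γ` to `x`. -/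
noncomputable def resZ (Γ : ZFSet.{u} → ZFSet.{u} → ZFSet.{u}) (x : ZFSet.{u}) : ZFSet.{u} :=
  ZFSet.range fun y : x => ZFSet.pair y.1 (recZ Γ y.1)

variable {Γ : ZFSet.{u} → ZFSet.{u} → ZFSet.{u}}

theorem recZ_eq (x : ZFSet.{u}) : recZ Γ x = Γ x (resZ Γ x) := by
  rw [recZ]
  rfl

theorem mem_resZ {x z : ZFSet.{u}} : z ∈ resZ Γ x ↔ ∃ y ∈ x, z = ZFSet.pair y (recZ Γ y) := by
  unfold resZ
  rw [ZFSet.mem_range]
  constructor
  · rintro ⟨⟨b, hb⟩, rfl⟩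
    exact ⟨b, hb, rfl⟩
  · rintro ⟨b, hb, rfl⟩
    exact ⟨⟨b, hb⟩, rfl⟩

theorem pair_mem_resZ {x y z : ZFSet.{u}} : ZFSet.pair y z ∈ resZ Γ x ↔ y ∈ x ∧ z = recZ Γ y := by
  rw [mem_resZ]
  constructor
  · rintro ⟨y', hy', h⟩
    rw [ZFSet.pair_inj] at h
    obtain ⟨rfl, rfl⟩ := h
    exact ⟨hy', rfl⟩
  · rintro ⟨h, rfl⟩
    exact ⟨y, h, rfl⟩

/-- `g` is the restriction of `f` to `x`. -/
def RestrR (f x g : ZFSet.{u}) : Prop := ∀ q, q ∈ g ↔ q ∈ f ∧ ∃ y ∈ x, ∃ w, q = ZFSet.pair y w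

theorem restrR_resZ {x y : ZFSet.{u}} (h : y ⊆ x) : RestrR (resZ Γ x) y (resZ Γ y) := by
  intro q
  rw [mem_resZ, mem_resZ]
  constructor
  · rintro ⟨z, hz, rfl⟩
    exact ⟨⟨z, h hz, rfl⟩, z, hz, _, rfl⟩
  · rintro ⟨⟨z, _, rfl⟩, z', hz', w, e⟩
    rw [ZFSet.pair_inj] at e
    obtain ⟨rfl, -⟩ := e
    exact ⟨z, hz', rfl⟩

/-- `f` is an attempt. -/
def Att (Γ : ZFSet.{u} → ZFSet.{u} → ZFSet.{u}) (f : ZFSet.{u}) : Prop :=
  ∀ x ∈ LL, ∀ z ∈ LL, ZFSet.pair x z ∈ f → (∀ y ∈ x, ∃ w ∈ LL, ZFSet.pair y w ∈ f) ∧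
    ∃ g ∈ LL, RestrR f x g ∧ z = Γ x g

theorem Att.sound {f : ZFSet.{u}} (hf : f ∈ LL) (h : Att Γ f) : ∀ x z : ZFSet.{u},
    ZFSet.pair x z ∈ f → z = recZ Γ x := by
  intro x
  induction x using ZFSet.inductionOn with
  | h x ih =>
    intro z hz
    have hm := good_LL.of_pair_mem hf hz
    obtain ⟨h1, g, _, hg, rfl⟩ := h x hm.1 z hm.2 hz
    rw [recZ_eq]
    congr 1
    apply ZFSet.ext
    intro q
    rw [hg q, mem_resZ]
    constructor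
    · rintro ⟨hq, y, hy, w, rfl⟩
      exact ⟨y, hy, by rw [ih y hy w hq]⟩
    · rintro ⟨y, hy, rfl⟩
      obtain ⟨w, _, hw⟩ := h1 y hy
      rw [← ih y hy w hw]
      exact ⟨hw, y, hy, w, rfl⟩

theorem restrR_dfn : Dfn (LL : Set ZFSet.{u}) LL fun v => RestrR (v 0) (v 1) (v 2) := by
  have C : Ctx (LL : Set ZFSet.{u}) LL := ctx_LL
  have h1 : Dfn (LL : Set ZFSet.{u}) LL fun v => ∀ q ∈ LL, (q ∈ v 2 ↔ q ∈ v 0 ∧ ∃ y ∈ v 1,
      ∃ w ∈ LL, q = ZFSet.pair y w) :=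
    ((C.mem (C.var 0) (C.var 3)).iff ((C.mem (C.var 0) (C.var 1)).and (C.bex (C.var 2)
      (C.eq (C.var 2) (C.pair (C.var 1) (C.var 0))).ex))).all
  refine h1.congr fun v hv => ?_
  constructor
  · intro h q
    constructor
    · intro hq
      obtain ⟨h2, y, hy, w, _, e⟩ := (h q (LL_trans (hv 2) hq)).1 hq
      exact ⟨h2, y, hy, w, e⟩
    · rintro ⟨h2, y, hy, w, rfl⟩
      exact (h _ (LL_trans (hv 0) h2)).2 ⟨h2, y, hy, w, (good_LL.of_pair_mem (hv 0) h2).2, rfl⟩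
  · intro h q _
    rw [h q]
    constructor
    · rintro ⟨h2, y, hy, w, rfl⟩
      exact ⟨h2, y, hy, w, (good_LL.of_pair_mem (hv 0) h2).2, rfl⟩
    · rintro ⟨h2, y, hy, w, _, rfl⟩
      exact ⟨h2, y, hy, w, rfl⟩

section

variable (hΓ : DF (LL : Set ZFSet.{u}) LL fun v => Γ (v 0) (v 1))

include hΓ

theorem gamma_eq_dfn : Dfn (LL : Set ZFSet.{u}) LL fun v => v 0 = Γ (v 1) (v 2) :=
  hΓ.dfn

theorem att_dfn : Dfn (LL : Set ZFSet.{u}) LL fun v => Att Γ (v 0) := by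
  have C : Ctx (LL : Set ZFSet.{u}) LL := ctx_LL
  have h1 : Dfn (LL : Set ZFSet.{u}) LL fun v => RestrR (v 3) (v 2) (v 0) :=
    restrR_dfn.rename fun i => if i = 0 then 3 else if i = 1 then 2 else 0
  have h2 : Dfn (LL : Set ZFSet.{u}) LL fun v => v 1 = Γ (v 2) (v 0) :=
    (gamma_eq_dfn hΓ).rename fun i => if i = 0 then 1 else if i = 1 then 2 else 0
  exact (((C.mem (C.pair (C.var 1) (C.var 0)) (C.var 2)).imp
    ((C.ball (C.var 1) (C.mem (C.pair (C.var 1) (C.var 0)) (C.var 4)).ex).and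
      (h1.and h2).ex)).all).all

omit hΓ in
theorem sep_resZ_mem {x y : ZFSet.{u}} (h : y ⊆ x) (hy : y ∈ LL) (hx : resZ Γ x ∈ LL) :
    resZ Γ y ∈ LL := by
  have C : Ctx (LL : Set ZFSet.{u}) LL := ctx_LL
  apply mem_LL_of_dfn
  · intro q hq
    exact LL_trans hx ((restrR_resZ h q).1 hq).1
  · have h1 : Dfn (LL : Set ZFSet.{u}) LL fun v => v 0 ∈ resZ Γ x ∧ ∃ a ∈ y, ∃ w ∈ LL,
        v 0 = ZFSet.pair a w :=
      (C.mem (C.var 0) (dfn_prm_LL hx)).and (C.bex (dfn_prm_LL hy)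
        (C.eq (C.var 2) (C.pair (C.var 1) (C.var 0))).ex)
    refine h1.congr fun v hv => ?_
    rw [restrR_resZ h]
    constructor
    · rintro ⟨h2, a, ha, w, _, e⟩
      exact ⟨h2, a, ha, w, e⟩
    · rintro ⟨h2, a, ha, w, e⟩
      exact ⟨h2, a, ha, w, (good_LL.of_pair_mem hx (e ▸ h2)).2, e⟩

theorem recZ_mem_of_res {x : ZFSet.{u}} (hx : x ∈ LL) (h : resZ Γ x ∈ LL) : recZ Γ x ∈ LL := by
  rw [recZ_eq]
  have := hΓ.mem (cons x fun _ => resZ Γ x) (cons_mem hx fun _ => h)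
  exact this

omit hΓ in
theorem att_resZ {β : Ordinal.{u}} (h : resZ Γ (Lev β) ∈ LL) : Att Γ (resZ Γ (Lev β)) := by
  intro x hx z _ hxz
  rw [pair_mem_resZ] at hxz
  obtain ⟨hxβ, rfl⟩ := hxz
  have hsub : x ⊆ Lev β := isTransitive_Lev β x hxβ
  refine ⟨fun y hy => ?_, resZ Γ x, sep_resZ_mem hsub hx h, restrR_resZ hsub, recZ_eq x⟩
  have h1 : ZFSet.pair y (recZ Γ y) ∈ resZ Γ (Lev β) := pair_mem_resZ.2 ⟨hsub hy, rfl⟩
  exact ⟨recZ Γ y, (good_LL.of_pair_mem h h1).2, h1⟩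

theorem resZ_Lev_mem (β : Ordinal.{u}) : resZ Γ (Lev β) ∈ LL := by
  have C : Ctx (LL : Set ZFSet.{u}) LL := ctx_LL
  induction β using WellFoundedLT.induction with
  | ind β ih =>
    have hres : ∀ y ∈ Lev β, ∃ γ < β, y ⊆ Lev γ := by
      intro y hy
      obtain ⟨γ, hγ, h⟩ := mem_Lev.1 hy
      exact ⟨γ, hγ, (mem_DefPow.1 h).1⟩
    have hresL : ∀ y ∈ Lev β, resZ Γ y ∈ LL := by
      intro y hy
      obtain ⟨γ, hγ, h⟩ := hres y hy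
      exact sep_resZ_mem h ⟨β, hy⟩ (ih γ hγ)
    have hrecL : ∀ y ∈ Lev β, recZ Γ y ∈ LL := fun y hy =>
      recZ_mem_of_res hΓ ⟨β, hy⟩ (hresL y hy)
    apply mem_LL_of_dfn
    · intro q hq
      obtain ⟨y, hy, rfl⟩ := mem_resZ.1 hq
      exact good_LL.pair ⟨β, hy⟩ (hrecL y hy)
    · have h1 : Dfn (LL : Set ZFSet.{u}) LL fun v => RestrR (v 1) (v 3) (v 0) :=
        restrR_dfn.rename fun i => if i = 0 then 1 else if i = 1 then 3 else 0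
      have h2 : Dfn (LL : Set ZFSet.{u}) LL fun v => v 2 = Γ (v 3) (v 0) :=
        (gamma_eq_dfn hΓ).rename fun i => if i = 0 then 2 else if i = 1 then 3 else 0
      have h3 : Dfn (LL : Set ZFSet.{u}) LL fun v => ∃ y ∈ Lev β, ∃ z ∈ LL,
          v 0 = ZFSet.pair y z ∧ ∃ f ∈ LL, Att Γ f ∧ (∀ a ∈ y, ∃ w ∈ LL, ZFSet.pair a w ∈ f) ∧
            ∃ g ∈ LL, RestrR f y g ∧ z = Γ y g :=
        C.bex (dfn_prm_LL (Lev_mem_LL β)) (((C.eq (C.var 2) (C.pair (C.var 1) (C.var 0))).and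
          ((att_dfn hΓ).and ((C.ball (C.var 2) (C.mem (C.pair (C.var 1) (C.var 0))
            (C.var 2)).ex).and (h1.and h2).ex)).ex).ex)
      refine h3.congr fun v _ => ?_
      rw [mem_resZ]
      constructor
      · rintro ⟨y, hy, z, _, e, f, hf, hatt, hdom, g, _, hg, rfl⟩
        refine ⟨y, hy, ?_⟩
        rw [e, recZ_eq]
        congr 2
        apply ZFSet.ext
        intro q
        rw [hg q, mem_resZ]
        constructor
        · rintro ⟨hq, a, ha, w, rfl⟩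
          exact ⟨a, ha, by rw [hatt.sound hf a w hq]⟩
        · rintro ⟨a, ha, rfl⟩
          obtain ⟨w, _, hw⟩ := hdom a ha
          rw [← hatt.sound hf a w hw]
          exact ⟨hw, a, ha, w, rfl⟩
      · rintro ⟨y, hy, e⟩
        obtain ⟨γ, hγ, hsub⟩ := hres y hy
        refine ⟨y, hy, _, hrecL y hy, e, resZ Γ (Lev γ), ih γ hγ, att_resZ (ih γ hγ), ?_,
          resZ Γ y, hresL y hy, restrR_resZ hsub, recZ_eq y⟩
        intro a ha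
        have h1 : ZFSet.pair a (recZ Γ a) ∈ resZ Γ (Lev γ) := pair_mem_resZ.2 ⟨hsub ha, rfl⟩
        exact ⟨recZ Γ a, (good_LL.of_pair_mem (ih γ hγ) h1).2, h1⟩

/-- **Recursion in `L`.** -/
theorem recZ_DF : DF (LL : Set ZFSet.{u}) LL fun v => recZ Γ (v 0) := by
  have C : Ctx (LL : Set ZFSet.{u}) LL := ctx_LL
  have hmem : ∀ x ∈ LL, recZ Γ x ∈ LL := by
    rintro x ⟨β, hβ⟩
    have h1 : ZFSet.pair x (recZ Γ x) ∈ resZ Γ (Lev β) := pair_mem_resZ.2 ⟨hβ, rfl⟩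
    exact (good_LL.of_pair_mem (resZ_Lev_mem hΓ β) h1).2
  refine ⟨fun v hv => hmem _ (hv 0), ?_⟩
  have h1 : Dfn (LL : Set ZFSet.{u}) LL fun v => ∃ f ∈ LL, Att Γ f ∧ ZFSet.pair (v 1) (v 0) ∈ f :=
    ((att_dfn hΓ).and (C.mem (C.pair (C.var 2) (C.var 1)) (C.var 0))).ex
  refine h1.congr fun v hv => ?_
  constructor
  · rintro ⟨f, hf, hatt, h⟩
    exact hatt.sound hf _ _ h
  · intro h
    have h : v 0 = recZ Γ (v 1) := h
    obtain ⟨β, hβ⟩ := hv 1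
    refine ⟨resZ Γ (Lev β), resZ_Lev_mem hΓ β, att_resZ (resZ_Lev_mem hΓ β), ?_⟩
    rw [h]
    exact pair_mem_resZ.2 ⟨hβ, rfl⟩

end

end Pool.Agent.Helper88.SetTh
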