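import Pool.Agent.Helper88.SetTh.RelC

/-!
# Reflection for the rank hierarchy of a class; internal ordinal definability
-/

set_option autoImplicit false

universe u

namespace Pool.Agent.Helper88.SetTh

open Ordinal ZFSet

/-- The sets of rank less than `θ` of the class `N`. -/
def rk (N : Set ZFSet.{u}) (θ : Ordinal.{u}) : Set ZFSet.{u} := {y | y ∈ N ∧ y ∈ V_ θ}

theorem rk_mono {N : Set ZFSet.{u}} {a b : Ordinal.{u}} (h : a ≤ b) : rk N a ⊆ rk N b :=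
  fun _ hy => ⟨hy.1, vonNeumann_subset_of_le h hy.2⟩

theorem exists_common_rk {N : Set ZFSet.{u}} {δ : Ordinal.{u}} (h0 : 0 < δ)
    (hδ : ∀ β < δ, β + 1 < δ) {w : ℕ → ZFSet.{u}} (hw : ∀ i, w i ∈ rk N δ) (n : ℕ) :
    ∃ β < δ, ∀ i < n, w i ∈ rk N β := by
  induction n with
  | zero => exact ⟨0, h0, fun i hi => absurd hi (Nat.not_lt_zero _)⟩
  | succ n ih =>
    obtain ⟨β, hβ, h⟩ := ih
    have h2 := mem_vonNeumann.1 (hw n).2
    refine ⟨max β (rank (w n) + 1), max_lt hβ (hδ _ h2), fun i hi => ?_⟩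
    rcases Nat.lt_succ_iff_lt_or_eq.1 hi with h1 | rfl
    · exact rk_mono (le_max_left _ _) (h i h1)
    · exact rk_mono (le_max_right _ _) ⟨(hw i).1, mem_vonNeumann.2 (lt_add_one _)⟩

/-- **Reflection.** -/
theorem reflect_rk {N : Set ZFSet.{u}} (hN : ∅ ∈ N) (φ : Fml) :
    ∃ F : Ordinal.{u} → Ordinal.{u}, ∀ δ, Closed F δ →
    ∀ w : ℕ → ZFSet.{u}, (∀ i, w i ∈ rk N δ) → (Sat N φ w ↔ Sat (rk N δ) φ w) := by
  induction φ with
  | mem i j => exact ⟨fun _ => 0, fun δ _ w _ => Iff.rfl⟩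
  | eq i j => exact ⟨fun _ => 0, fun δ _ w _ => Iff.rfl⟩
  | neg φ ih =>
    obtain ⟨F, hF⟩ := ih
    exact ⟨F, fun δ hδ w hw => not_congr (hF δ hδ w hw)⟩
  | and φ ψ ih1 ih2 =>
    obtain ⟨F, hF⟩ := ih1
    obtain ⟨G, hG⟩ := ih2
    refine ⟨fun β => max (F β) (G β), fun δ hδ w hw => and_congr (hF δ ⟨hδ.1, fun β hβ => ?_⟩ w hw)
      (hG δ ⟨hδ.1, fun β hβ => ?_⟩ w hw)⟩
    · exact ⟨(hδ.2 β hβ).1, lt_of_le_of_lt (le_max_left _ _) (hδ.2 β hβ).2⟩
    · exact ⟨(hδ.2 β hβ).1, lt_of_le_of_lt (le_max_right _ _) (hδ.2 β hβ).2⟩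
  | all φ ih =>
    obtain ⟨F, hF⟩ := ih
    classical
    have key : ∀ w : ℕ → ZFSet.{u}, ∃ γ : Ordinal.{u}, (∃ x ∈ N, ¬ Sat N φ (cons x w)) →
        ∃ x ∈ rk N γ, ¬ Sat N φ (cons x w) := by
      intro w
      by_cases h : ∃ x ∈ N, ¬ Sat N φ (cons x w)
      · obtain ⟨x, hxN, hx⟩ := h
        exact ⟨rank x + 1, fun _ => ⟨x, ⟨hxN, mem_vonNeumann.2 (lt_add_one _)⟩, hx⟩⟩
      · exact ⟨0, fun h' => absurd h' h⟩
    choose lv hlv using key
    refine ⟨fun β => max (F β) (⨆ w : ℕ → (V_ β : ZFSet.{u}), lv fun i => w i),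
      fun δ hδ w hw => ?_⟩
    have hF' := hF δ ⟨hδ.1, fun β hβ =>
      ⟨(hδ.2 β hβ).1, lt_of_le_of_lt (le_max_left _ _) (hδ.2 β hβ).2⟩⟩
    constructor
    · intro h x hx
      exact (hF' _ (cons_mem (N := rk N δ) hx hw)).1 (h x hx.1)
    · intro h x hx
      by_contra hc
      obtain ⟨β, hβ, hwβ⟩ := exists_common_rk hδ.1 (fun β hβ => (hδ.2 β hβ).1) hw φ.bd
      let β' := β + 1
      have hβ' : β' < δ := (hδ.2 β hβ).1
      let w' : ℕ → ZFSet.{u} := fun i => if i < φ.bd then w i else ∅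
      have hw' : ∀ i, w' i ∈ V_ β' := by
        intro i
        by_cases hi : i < φ.bd
        · simp only [w', if_pos hi]
          exact vonNeumann_subset_of_le (le_add_right le_rfl) (hwβ i hi).2
        · simp only [w', if_neg hi]
          refine mem_vonNeumann.2 ?_
          rw [rank_empty]
          exact lt_of_le_of_lt zero_le (lt_add_one β)
      have hagree : ∀ y, ∀ i < φ.bd, cons y w i = cons y w' i := by
        intro y i hi
        cases i with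
        | zero => rfl
        | succ i =>
          have : i < φ.bd := by omega
          simp only [cons_succ, w', if_pos this]
      have h1 : ¬ Sat N φ (cons x w') := by
        rwa [← sat_congr N φ _ _ (hagree x)]
      obtain ⟨y, hy, hy'⟩ := hlv w' ⟨x, hx, h1⟩
      have h2 : lv w' < δ := by
        refine lt_of_le_of_lt ?_ (lt_of_le_of_lt (le_max_right _ _) (hδ.2 β' hβ').2)
        exact Ordinal.le_iSup (fun w : ℕ → (V_ β' : ZFSet.{u}) => lv fun i => w i)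
          fun i => ⟨w' i, hw' i⟩
      have hyδ : y ∈ rk N δ := rk_mono h2.le hy
      rw [← sat_congr N φ _ _ (hagree y), hF' _ (cons_mem (N := rk N δ) hyδ hw)] at hy'
      exact hy' (h y hyδ)

/-- Ordinal definability over a set `{y ∈ N : rank y < θ}`. -/
theorem isODRank_of_isODIn {N : Set ZFSet.{u}} (hN : ∅ ∈ N)
    (hord : ∀ p : ZFSet.{u}, p.IsOrdinal → p ∈ N) {A : Set (ℕ → ℕ)} (h : IsODIn N A) :
    IsODRank N A := by
  obtain ⟨φ, p, hp, hφ⟩ := h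
  obtain ⟨F, hF⟩ := reflect_rk hN φ
  obtain ⟨θ, hθ, hcl⟩ := exists_closed F
    (max (⨆ i, rank (p i)) (⨆ x : ℕ → ℕ, rank (code.{u} x)))
  have h1 : ∀ i, p i ∈ V_ θ := fun i => mem_vonNeumann.2
    (lt_of_le_of_lt ((Ordinal.le_iSup (fun i => rank (p i)) i).trans (le_max_left _ _)) hθ)
  have h2 : ∀ x : ℕ → ℕ, code.{u} x ∈ V_ θ := fun x => mem_vonNeumann.2
    (lt_of_le_of_lt ((Ordinal.le_iSup (fun x : ℕ → ℕ => rank (code.{u} x)) x).trans
      (le_max_right _ _)) hθ)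
  refine ⟨θ, φ, p, fun i => ⟨hp i, h1 i⟩, fun x => ?_⟩
  rw [hφ x]
  constructor
  · rintro ⟨h3, h4⟩
    refine ⟨⟨h3, h2 x⟩, (hF θ hcl _ ?_).1 h4⟩
    exact cons_mem (N := rk N θ) ⟨h3, h2 x⟩ fun i => ⟨hord _ (hp i), h1 i⟩
  · rintro ⟨⟨h3, _⟩, h4⟩
    refine ⟨h3, (hF θ hcl _ ?_).2 h4⟩
    exact cons_mem (N := rk N θ) ⟨h3, h2 x⟩ fun i => ⟨hord _ (hp i), h1 i⟩

end Pool.Agent.Helper88.SetTh
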