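import Pool.Agent.Helper88.SetTh.Final

/-!
# Relative constructibility
-/

set_option autoImplicit false

universe u

namespace Pool.Agent.Helper88.SetTh

theorem mem_LevR {S : ZFSet.{u}} {o : Ordinal.{u}} {x : ZFSet.{u}} :
    x ∈ LevR S o ↔ x ∈ S ∨ ∃ a < o, x ∈ DefPow (LevR S a) := by
  rw [LevR, ZFSet.mem_union]
  simp

theorem isTransitive_LevR {S : ZFSet.{u}} (hS : S.IsTransitive) (o : Ordinal.{u}) :
    (LevR S o).IsTransitive := by
  induction o using WellFoundedLT.induction with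
  | ind o ih =>
    intro x hx y hy
    rw [mem_LevR] at hx ⊢
    rcases hx with hx | ⟨a, ha, hx⟩
    · exact Or.inl (hS x hx hy)
    · exact Or.inr ⟨a, ha, subset_DefPow (ih a ha) ((mem_DefPow.1 hx).1 hy)⟩

theorem defPow_sub_LL {U x : ZFSet.{u}} (hU : U ∈ LL) (hUt : U.IsTransitive) (hx : x ∈ DefPow U) :
    x ∈ LL := by
  have C : Ctx (LL : Set ZFSet.{u}) LL := ctx_LL
  rcases (C.inDef_iff hU hUt).2 hx with rfl | ⟨hxU, W, _, l, _, m, _, X, hX, p, hp, _, _, _, h⟩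
  · exact empty_mem_LL
  · apply mem_LL_of_dfn
    · intro y hy
      exact LL_trans hU (hxU hy)
    · have h1 : Dfn (LL : Set ZFSet.{u}) LL fun v => v 0 ∈ U ∧ ∃ v' ∈ X, ConsR p (v 0) v' :=
        (C.mem (C.var 0) (dfn_prm_LL hU)).and (C.bex (dfn_prm_LL hX)
          (C.consR' (dfn_prm_LL hp) (C.var 1) (C.var 0)))
      refine h1.congr fun v _ => ?_
      constructor
      · rintro ⟨h2, h3⟩
        exact (h _ h2).2 h3
      · intro h2
        exact ⟨hxU h2, (h _ (hxU h2)).1 h2⟩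

open Classical in
noncomputable def levΓ (S x f : ZFSet.{u}) : ZFSet.{u} :=
  S ∪ ZFSet.sUnion (pmap (fun _ Y => if Y.IsTransitive then DefPow Y else ∅) f)

theorem mem_levΓ {S x f z : ZFSet.{u}} : z ∈ levΓ S x f ↔
    z ∈ S ∨ ∃ a Y, ZFSet.pair a Y ∈ f ∧ Y.IsTransitive ∧ z ∈ DefPow Y := by
  unfold levΓ
  rw [ZFSet.mem_union, ZFSet.mem_sUnion]
  constructor
  · rintro (h | ⟨w, hw, hz⟩)
    · exact Or.inl h
    · obtain ⟨a, Y, h1, rfl⟩ := mem_pmap.1 hw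
      split_ifs at hz with h2
      · exact Or.inr ⟨a, Y, h1, h2, hz⟩
      · exact absurd hz (ZFSet.notMem_empty _)
  · rintro (h | ⟨a, Y, h1, h2, h3⟩)
    · exact Or.inl h
    · refine Or.inr ⟨DefPow Y, mem_pmap.2 ⟨a, Y, h1, ?_⟩, h3⟩
      rw [if_pos h2]

theorem levΓ_DF {S : ZFSet.{u}} (hS : S ∈ LL) :
    DF (LL : Set ZFSet.{u}) LL fun v => levΓ S (v 0) (v 1) := by
  have C : Ctx (LL : Set ZFSet.{u}) LL := ctx_LL
  apply DF_LL
  · intro v hv z hz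
    rcases mem_levΓ.1 hz with h | ⟨a, Y, h1, h2, h3⟩
    · exact LL_trans hS h
    · exact defPow_sub_LL (good_LL.of_pair_mem (hv 1) h1).2 h2 h3
  · have hdef : Dfn (LL : Set ZFSet.{u}) LL fun v => InDef LL (v 2) (v 0) :=
      C.inDef.rename fun i => if i = 0 then 2 else 0
    have h1 : Dfn (LL : Set ZFSet.{u}) LL fun v => v 0 ∈ S ∨ ∃ a ∈ LL, ∃ Y ∈ LL,
        ZFSet.pair a Y ∈ v 2 ∧ Y.IsTransitive ∧ InDef LL (v 0) Y :=
      (C.mem (C.var 0) (dfn_prm_LL hS)).or (Dfn.ex (Dfn.ex ((C.mem (C.pair (C.var 1) (C.var 0))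
        (C.var 4)).and ((isTransitive_dfn good_LL LL_ne (C.var 0)).and hdef))))
    refine h1.congr fun v hv => ?_
    rw [mem_levΓ]
    refine or_congr Iff.rfl ?_
    constructor
    · rintro ⟨a, _, Y, hY, h2, h3, h4⟩
      exact ⟨a, Y, h2, h3, (C.inDef_iff hY h3).1 h4⟩
    · rintro ⟨a, Y, h2, h3, h4⟩
      have h5 := good_LL.of_pair_mem (hv 2) h2
      exact ⟨a, h5.1, Y, h5.2, h2, h3, (C.inDef_iff h5.2 h3).2 h4⟩

theorem levR_eq {S : ZFSet.{u}} (hS : S.IsTransitive) (o : Ordinal.{u}) :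
    recZ (levΓ S) o.toZFSet = LevR S o := by
  induction o using WellFoundedLT.induction with
  | ind o ih =>
    apply ZFSet.ext
    intro z
    rw [recZ_eq, mem_levΓ, mem_LevR]
    refine or_congr Iff.rfl ?_
    constructor
    · rintro ⟨a, Y, h1, _, h3⟩
      rw [pair_mem_resZ] at h1
      obtain ⟨h1, rfl⟩ := h1
      obtain ⟨b, hb, rfl⟩ := Ordinal.mem_toZFSet_iff.1 h1
      rw [ih b hb] at h3
      exact ⟨b, hb, h3⟩
    · rintro ⟨b, hb, h1⟩
      refine ⟨b.toZFSet, LevR S b, pair_mem_resZ.2 ⟨Ordinal.mem_toZFSet_iff.2 ⟨b, hb, rfl⟩,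
        (ih b hb).symm⟩, isTransitive_LevR hS b, h1⟩

theorem levR_mem_LL {S : ZFSet.{u}} (hS : S.IsTransitive) (hSL : S ∈ LL) (o : Ordinal.{u}) :
    LevR S o ∈ LL := by
  rw [← levR_eq hS o]
  exact (recZ_DF (levΓ_DF hSL)).mem (fun _ => o.toZFSet) fun _ => toZFSet_mem_LL o

/-- Hereditarily finite pieces: `L_ω` is closed under insertion. -/
theorem insert_mem_Lev {o : Ordinal.{u}} (ho : ∀ a < o, a + 1 < o) {x y : ZFSet.{u}}
    (hx : x ∈ Lev o) (hy : y ∈ Lev o) : insert x y ∈ Lev o := by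
  obtain ⟨a, ha, hx⟩ := mem_Lev.1 hx
  obtain ⟨b, hb, hy⟩ := mem_Lev.1 hy
  have hx' : x ∈ Lev (max a b + 1) := mem_Lev.2 ⟨a, lt_of_le_of_lt (le_max_left _ _)
    (lt_add_one _), hx⟩
  have hy' : y ∈ Lev (max a b + 1) := mem_Lev.2 ⟨b, lt_of_le_of_lt (le_max_right _ _)
    (lt_add_one _), hy⟩
  refine mem_Lev.2 ⟨max a b + 1, ho _ (max_lt ha hb), ?_⟩
  rw [mem_DefPow]
  refine ⟨?_, .neg (.and (.neg (.eq 0 1)) (.neg (.mem 0 2))), cons x fun _ => y, ?_, ?_⟩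
  · intro z hz
    rcases ZFSet.mem_insert_iff.1 hz with rfl | hz
    · exact hx'
    · exact isTransitive_Lev _ _ hy' hz
  · intro i
    cases i with
    | zero => exact Or.inl hx'
    | succ i => exact Or.inl hy'
  · intro z _
    simp only [Sat]
    change z ∈ insert x y ↔ ¬ (¬ z = x ∧ ¬ z ∈ y)
    rw [ZFSet.mem_insert_iff]
    tauto

theorem nat_mem_Lev (n : ℕ) : nat.{u} n ∈ Lev Ordinal.omega0 := by
  have ho : ∀ a < Ordinal.omega0.{u}, a + 1 < Ordinal.omega0 := by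
    intro a ha
    obtain ⟨n, rfl⟩ := Ordinal.lt_omega0.1 ha
    have := Ordinal.natCast_lt_omega0 (n + 1)
    push_cast at this
    exact this
  induction n with
  | zero => exact empty_mem_Lev Ordinal.omega0_pos
  | succ n ih => exact insert_mem_Lev ho ih ih

theorem pair_mem_Lev (m n : ℕ) : ZFSet.pair (nat.{u} m) (nat n) ∈ Lev Ordinal.omega0 := by
  have ho : ∀ a < Ordinal.omega0.{u}, a + 1 < Ordinal.omega0 := by
    intro a ha
    obtain ⟨n, rfl⟩ := Ordinal.lt_omega0.1 ha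
    have := Ordinal.natCast_lt_omega0 (n + 1)
    push_cast at this
    exact this
  have h0 : (∅ : ZFSet.{u}) ∈ Lev Ordinal.omega0 := empty_mem_Lev Ordinal.omega0_pos
  have h1 : ({nat.{u} m} : ZFSet) ∈ Lev Ordinal.omega0 := insert_mem_Lev ho (nat_mem_Lev m) h0
  have h2 : ({nat.{u} n} : ZFSet) ∈ Lev Ordinal.omega0 := insert_mem_Lev ho (nat_mem_Lev n) h0
  have h3 : ({nat.{u} m, nat n} : ZFSet) ∈ Lev Ordinal.omega0 :=
    insert_mem_Lev ho (nat_mem_Lev m) h2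
  have h4 : ({({nat.{u} m, nat n} : ZFSet)} : ZFSet) ∈ Lev Ordinal.omega0 :=
    insert_mem_Lev ho h3 h0
  exact insert_mem_Lev ho h1 h4

theorem base_transitive (r : ℕ → ℕ) :
    (insert (code.{u} r) (Lev Ordinal.omega0)).IsTransitive := by
  intro x hx y hy
  rcases ZFSet.mem_insert_iff.1 hx with rfl | hx
  · obtain ⟨n, rfl⟩ := mem_code.1 hy
    exact ZFSet.mem_insert_of_mem _ (pair_mem_Lev _ _)
  · exact ZFSet.mem_insert_of_mem _ (isTransitive_Lev _ _ hx hy)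

/-- `L[r] ⊆ L` for a constructible real `r`. -/
theorem lreal_sub_LL {r : ℕ → ℕ} (hr : code.{u} r ∈ LL) : Lreal.{u} r ⊆ LL := by
  rintro x ⟨o, ho⟩
  exact LL_trans (levR_mem_LL (base_transitive r) (good_LL.insert hr (Lev_mem_LL _)) o) ho

/-- `r ∈ L[r]`. -/
theorem code_mem_lreal (r : ℕ → ℕ) : code.{u} r ∈ Lreal.{u} r :=
  ⟨0, mem_LevR.2 (Or.inl (ZFSet.mem_insert _ _))⟩

theorem zero_real_mem_LL : code.{u} (fun _ => 0) ∈ LL := by
  have C : Ctx (LL : Set ZFSet.{u}) LL := ctx_LL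
  apply mem_LL_of_dfn
  · intro z hz
    exact code_elts_LL hz
  · have h1 : Dfn (LL : Set ZFSet.{u}) LL fun v => ∃ n ∈ om, v 0 = ZFSet.pair n ∅ :=
      C.bex C.om (C.eq (C.var 1) (C.pair (C.var 0) C.empty))
    refine h1.congr fun v _ => ?_
    rw [mem_code]
    constructor
    · rintro ⟨n, hn, h⟩
      obtain ⟨n, rfl⟩ := mem_om.1 hn
      exact ⟨n, h⟩
    · rintro ⟨n, h⟩
      exact ⟨nat n, nat_mem_om n, h⟩

theorem isODFrom_of_isODIn {N : Set ZFSet.{u}} {A : Set (ℕ → ℕ)} (h : IsODIn N A) (r : ℕ → ℕ) :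
    IsODFrom N r A := by
  obtain ⟨φ, p, hp, hφ⟩ := h
  refine ⟨φ.rename fun i => if i = 0 then 0 else i + 1, p, hp, fun x => ?_⟩
  rw [hφ, sat_rename]
  have e : (fun i => cons (code x) (cons (code r) p) (if i = 0 then 0 else i + 1)) =
      cons (code x) p := by
    funext i
    cases i <;> rfl
  rw [e]

theorem not_MSOD {c : ℕ → ℕ} (hc : IsCohen.{u} c) : ¬ MSOD (LC (code.{u} c)) := by
  intro h
  rcases h (fun _ => 0) (LL_sub_LC _ zero_real_mem_LL) (CohenEquiv.{u} c)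
    (isODFrom_of_isODIn (cohenEquiv_OD hc) _) with h1 | ⟨P, hPN, hP, hsub⟩
  · exact cohen_not_mem_LL hc (lreal_sub_LL zero_real_mem_LL (h1 c (self_mem_cohenEquiv hc)))
  · exact no_perfect hc hPN hP hsub

end Pool.Agent.Helper88.SetTh
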